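import Pool.Agent.TRW.Defs

/-! [DNL-D2] the sum of the `1 / N v` over the split primes -/

set_option autoImplicit false

open Finset Filter Topology
open scoped Classical

namespace TRQ

variable {P : Type}

/-- the inclusion of the split primes -/
def kEmb (k : P → Prop) : {v : P // k v} ↪ P := ⟨Subtype.val, Subtype.val_injective⟩

/-- the split primes -/
def subBase (B : Base P) (k : P → Prop) : Base {v : P // k v} where
  N := fun v => B.N v.1
  e := fun u v => B.e u.1 v.1
  ρ := fun v => B.ρ v.1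
  two := fun v => B.two v.1
  fin := fun x => (B.fin x).preimage Subtype.val_injective.injOn
  sym := fun u v => B.sym u.1 v.1

theorem map_pb (B : Base P) (k : P → Prop) (x : ℝ) :
    ((subBase B k).pb x).map (kEmb k) = (B.pb x).filter k := by
  ext v
  rw [Finset.mem_map, Finset.mem_filter, B.mem_pb]
  constructor
  · rintro ⟨u, hu, rfl⟩
    exact ⟨((subBase B k).mem_pb).1 hu, u.2⟩
  · rintro ⟨h1, h2⟩
    exact ⟨⟨v, h2⟩, ((subBase B k).mem_pb).2 h1, rfl⟩

theorem sum_sub_pb (B : Base P) (k : P → Prop) (x : ℝ) (f : P → ℝ) :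
    ∑ v ∈ (subBase B k).pb x, f v.1 = ∑ v ∈ (B.pb x).filter k, f v := by
  rw [← map_pb, Finset.sum_map]
  rfl

/-- the system of the split primes -/
noncomputable def subSys (B : SysL P) : Sys0 {v : P // B.k v} where
  toBase := subBase B.toBase B.k
  β := B.βs
  C := B.C
  δ := B.δ
  hβ := B.hβs
  hβ1 := (B.hβs1.trans_le B.hβ1).le
  hC := B.hC
  hδ := B.hδ
  hδ1 := B.hδ1
  same := by
    intro n S hS
    rw [← Finset.card_map (kEmb B.k)]
    refine B.same n _ fun v hv => ?_
    obtain ⟨u, hu, rfl⟩ := Finset.mem_map.1 hv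
    exact hS u hu
  cheb := by
    intro x hx
    refine le_trans ?_ (B.cheb x hx)
    have h1 := sum_sub_pb B.toBase B.k x (fun v => Real.log (B.N v))
    refine le_trans (le_of_eq h1) ?_
    refine Finset.sum_le_sum_of_subset_of_nonneg (Finset.filter_subset _ _) fun v _ _ => ?_
    exact Real.log_nonneg (by exact_mod_cast le_trans (by norm_num) (B.two v))
  mert := by
    intro x hx
    have h1 := sum_sub_pb B.toBase B.k x (fun v => Real.log (B.N v) / B.N v)
    have h2 := B.mertk x hx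
    rw [← h1] at h2
    exact h2
  bil := by
    intro Y₁ Y₂ h1 h12 U V hU hV a b ha hb
    obtain ⟨a', ha'⟩ : ∃ a' : P → ℝ, ∀ v, a' v = if h : B.k v then a ⟨v, h⟩ else 0 := ⟨_, fun _ => rfl⟩
    obtain ⟨b', hb'⟩ : ∃ b' : P → ℝ, ∀ v, b' v = if h : B.k v then b ⟨v, h⟩ else 0 := ⟨_, fun _ => rfl⟩
    have h3 := B.bil Y₁ Y₂ h1 h12 (U.map (kEmb B.k)) (V.map (kEmb B.k)) (fun u hu => by
      obtain ⟨w, hw, rfl⟩ := Finset.mem_map.1 hu
      exact hU w hw) (fun v hv => by
      obtain ⟨w, hw, rfl⟩ := Finset.mem_map.1 hv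
      exact hV w hw) a' b' (fun u => by
      rw [ha']
      split_ifs with h
      · exact ha _
      · simp) (fun v => by
      rw [hb']
      split_ifs with h
      · exact hb _
      · simp)
    refine le_trans (le_of_eq ?_) h3
    congr 1
    rw [Finset.sum_map]
    refine Finset.sum_congr rfl fun u _ => ?_
    rw [Finset.sum_map]
    refine Finset.sum_congr rfl fun v _ => ?_
    have h4 : a' (kEmb B.k u) = a u := by
      rw [ha', dif_pos (show B.k (kEmb B.k u) from u.2)]
      rfl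
    have h5 : b' (kEmb B.k v) = b v := by
      rw [hb', dif_pos (show B.k (kEmb B.k v) from v.2)]
      rfl
    rw [h4, h5]
    congr 1
    unfold Base.sg
    have h6 : (u = v) ↔ (kEmb B.k u = kEmb B.k v) := ((kEmb B.k).apply_eq_iff_eq u v).symm
    by_cases h7 : u = v
    · rw [if_pos h7, if_pos (h6.1 h7)]
    · rw [if_neg h7, if_neg (fun h => h7 (h6.2 h))]
      rfl

/-- [DNL-D2] PROOF. `abs_H_sub_le` for the system of the split primes. -/
theorem abs_Hk_sub_le (B : SysL P) : ∃ C' : ℝ, 0 < C' ∧ ∀ x : ℝ, 3 ≤ x →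
    |∑ v ∈ (B.pb x).filter B.k, 1 / (B.N v : ℝ) - B.βs * Real.log (Real.log x)| ≤ C' := by
  obtain ⟨C', hC', h⟩ := abs_H_sub_le (subSys B)
  refine ⟨C', hC', fun x hx => ?_⟩
  rw [← sum_sub_pb B.toBase B.k x (fun v => 1 / (B.N v : ℝ))]
  exact h x hx

end TRQ
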