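import Pool.Agent.TRQ.D8a
import Pool.Agent.TRQ.D7

/-! [DNL] densities over `L`: abstract definitions -/

set_option autoImplicit false

open Finset Filter Topology
open scoped Classical

namespace TRQ

/-- a system with two kinds of primes: `k v` (split) and `¬ k v` (inert) -/
structure SysL (P : Type) extends Sys0 P where
  k : P → Prop
  βs : ℝ
  hβs : 0 < βs
  hβs1 : βs < β
  /-- Mertens for the split primes -/
  mertk : ∀ x : ℝ, 1 ≤ x → |∑ v ∈ (toBase.pb x).filter k, Real.log (N v) / N v - βs * Real.log x| ≤ C
  /-- an upper bound for the value at `1` of the `L`-function of a character, split primes only -/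
  chrk : ∀ A : Finset P, A.Nonempty → (∀ u ∈ A, k u) → ∀ x : ℝ, 1 ≤ x →
    ∑ v ∈ (toBase.pb x \ A).filter k, toBase.xi A 0 v / N v ≤ Real.log (Real.log (toBase.nS A + 3)) + C

/-- the criterion over `L`: the reduced Laplacian on the split primes of `S`, where the inert primes of `S` are merged with the root, is invertible -/
def OddL {P : Type} (B : Base P) (k : P → Prop) (S : Finset P) : Prop :=
  Pool.Agent.TRG.f B.e (fun v => B.ρ v + ∑ w ∈ S.filter (fun w => ¬ k w), B.e v w) (S.filter k) ≠ 0

end TRQ
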