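import Pool.Agent.TRQ.D6
import Pool.Agent.TRW.Defs

/-! [DNL-D6] the count for graphs with two kinds of vertices -/

set_option autoImplicit false

open Finset Filter Topology
open scoped Classical

namespace TRQ

/-- merging the vertices outside `S` with the root: a principal submatrix of the Laplacian -/
theorem lap_sub {ι : Type} [Fintype ι] [DecidableEq ι] (E : ι → ι → ZMod 2) (R : ι → ZMod 2) (S : Finset ι)
    (R' : ι → ZMod 2) (hR : ∀ v ∈ S, R' v = R v + ∑ w ∈ Finset.univ.filter (fun w => w ∉ S), E v w) :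
    Pool.Agent.TRG.lap E R' S = (lapI E R).submatrix Subtype.val Subtype.val := by
  ext i j
  rw [Matrix.submatrix_apply]
  unfold Pool.Agent.TRG.lap lapI
  by_cases h : i = j
  · subst h
    rw [if_pos rfl, if_pos rfl, hR i i.2, add_assoc]
    congr 1
    have h1 : Finset.univ.erase (i : ι) = Finset.univ.filter (fun w => w ∉ S) ∪ S.erase i := by
      ext v
      rw [Finset.mem_erase, Finset.mem_union, Finset.mem_filter, Finset.mem_erase]
      constructor
      · intro hv
        by_cases hS : v ∈ S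
        · exact Or.inr ⟨hv.1, hS⟩
        · exact Or.inl ⟨Finset.mem_univ _, hS⟩
      · rintro (hv | hv)
        · exact ⟨fun h => hv.2 (h ▸ i.2), Finset.mem_univ _⟩
        · exact ⟨hv.1, Finset.mem_univ _⟩
    rw [h1, Finset.sum_union]
    rw [Finset.disjoint_left]
    intro v hv hv'
    exact (Finset.mem_filter.1 hv).2 (Finset.mem_of_mem_erase hv')
  · rw [if_neg h, if_neg fun h1 => h (Subtype.ext h1)]

section
variable {T : Type} {m : ℕ}

theorem symm_add (A B : TRN.Pairs m → ZMod 2) (i j : Fin m) :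
    TRN.symm (A + B) i j = TRN.symm A i j + TRN.symm B i j := by
  unfold TRN.symm
  split_ifs
  · rfl
  · rfl
  · rw [add_zero]

theorem symm_zero (i j : Fin m) : TRN.symm (0 : TRN.Pairs m → ZMod 2) i j = 0 := by
  unfold TRN.symm
  split_ifs <;> rfl

theorem bigE_add (a : T → T → ZMod 2) (g : Fin m → (T → ZMod 2) × ZMod 2) (A B : TRN.Pairs m → ZMod 2)
    (i j : T ⊕ Fin m) : bigE a g (A + B) i j = bigE a g A i j + bigE a g B i j + bigE a g 0 i j := by
  have h : ∀ c : ZMod 2, c = c + c + c := fun c => by rw [TRN.zmod2_add_self, zero_add]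
  rcases i with i | i <;> rcases j with j | j
  · exact h _
  · exact h _
  · exact h _
  · change TRN.symm (A + B) i j = TRN.symm A i j + TRN.symm B i j + TRN.symm 0 i j
    rw [symm_add, symm_zero, add_zero]

/-- the Laplacian is an affine function of `A` -/
theorem lapI_add [Fintype T] (a : T → T → ZMod 2) (g : Fin m → (T → ZMod 2) × ZMod 2) (R : T ⊕ Fin m → ZMod 2)
    (A B : TRN.Pairs m → ZMod 2) : lapI (bigE a g (A + B)) R =
      lapI (bigE a g A) R + lapI (bigE a g B) R + lapI (bigE a g 0) R := by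
  ext i j
  rw [Matrix.add_apply, Matrix.add_apply]
  unfold lapI
  by_cases h : i = j
  · rw [if_pos h, if_pos h, if_pos h, if_pos h]
    have h1 : ∑ k ∈ Finset.univ.erase i, bigE a g (A + B) i k = ∑ k ∈ Finset.univ.erase i, bigE a g A i k +
        ∑ k ∈ Finset.univ.erase i, bigE a g B i k + ∑ k ∈ Finset.univ.erase i, bigE a g 0 i k := by
      rw [← Finset.sum_add_distrib, ← Finset.sum_add_distrib]
      exact Finset.sum_congr rfl fun k _ => bigE_add a g A B i k
    rw [h1]
    linear_combination -(TRN.zmod2_add_self (R i))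
  · rw [if_neg h, if_neg h, if_neg h, if_neg h]
    exact bigE_add a g A B i j

/-- the principal submatrix -/
noncomputable def mtS [Fintype T] (a : T → T → ZMod 2) (g : Fin m → (T → ZMod 2) × ZMod 2) (R : T ⊕ Fin m → ZMod 2)
    (S : Finset (T ⊕ Fin m)) (A : TRN.Pairs m → ZMod 2) : Matrix S S (ZMod 2) :=
  (lapI (bigE a g A) R).submatrix Subtype.val Subtype.val

theorem mtS_add [Fintype T] (a : T → T → ZMod 2) (g : Fin m → (T → ZMod 2) × ZMod 2) (R : T ⊕ Fin m → ZMod 2)
    (S : Finset (T ⊕ Fin m)) (A B : TRN.Pairs m → ZMod 2) :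
    mtS a g R S (A + B) = mtS a g R S A + mtS a g R S B + mtS a g R S 0 := by
  unfold mtS
  rw [lapI_add]
  rfl

theorem mat_add_self {α β : Type} (X : Matrix α β (ZMod 2)) : X + X = 0 := by
  ext i j
  exact TRN.zmod2_add_self _

/-- the fibres have the same size -/
theorem mtS_fib [Fintype T] (a : T → T → ZMod 2) (g : Fin m → (T → ZMod 2) × ZMod 2) (R : T ⊕ Fin m → ZMod 2)
    (S : Finset (T ⊕ Fin m)) (A0 A1 : TRN.Pairs m → ZMod 2) :
    (Finset.univ.filter fun A => mtS a g R S A = mtS a g R S A0).card =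
      (Finset.univ.filter fun A => mtS a g R S A = mtS a g R S A1).card := by
  have h1 : ∀ A, mtS a g R S (A + (A0 + A1)) = mtS a g R S A + (mtS a g R S A0 + mtS a g R S A1) := by
    intro A
    rw [mtS_add, mtS_add]
    have h2 := mat_add_self (mtS a g R S 0)
    rw [add_assoc, add_assoc (mtS a g R S A0 + mtS a g R S A1), h2, add_zero]
  have h3 : ∀ A : TRN.Pairs m → ZMod 2, A + (A0 + A1) + (A0 + A1) = A := by
    intro A
    funext p
    change A p + (A0 p + A1 p) + (A0 p + A1 p) = A p
    rw [add_assoc, TRN.zmod2_add_self, add_zero]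
  refine Finset.card_bij' (fun A _ => A + (A0 + A1)) (fun A _ => A + (A0 + A1)) ?_ ?_ ?_ ?_
  · intro A hA
    rw [Finset.mem_filter] at hA ⊢
    refine ⟨Finset.mem_univ _, ?_⟩
    rw [h1, hA.2, ← add_assoc, mat_add_self, zero_add]
  · intro A hA
    rw [Finset.mem_filter] at hA ⊢
    refine ⟨Finset.mem_univ _, ?_⟩
    rw [h1, hA.2, add_comm (mtS a g R S A0), ← add_assoc, mat_add_self, zero_add]
  · intro A _
    exact h3 A
  · intro A _
    exact h3 A

/-- the vectors supported on `T` -/
def supT (S : Finset (T ⊕ Fin m)) : Submodule (ZMod 2) (S → ZMod 2) where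
  carrier := {u | ∀ (i : Fin m) (h : Sum.inr i ∈ S), u ⟨Sum.inr i, h⟩ = 0}
  zero_mem' := fun _ _ => rfl
  add_mem' := fun {a b} ha hb i h => by rw [Pi.add_apply, ha i h, hb i h, add_zero]
  smul_mem' := fun c a ha i h => by rw [Pi.smul_apply, ha i h, smul_zero]

theorem supT_le [Fintype T] (S : Finset (T ⊕ Fin m)) :
    Module.finrank (ZMod 2) (supT S) ≤ (Finset.univ.filter fun u : T => Sum.inl u ∈ S).card := by
  let F : supT S →ₗ[ZMod 2] ({u : T // Sum.inl u ∈ S} → ZMod 2) :=
    { toFun := fun x u => (x : S → ZMod 2) ⟨Sum.inl u.1, u.2⟩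
      map_add' := fun x y => rfl
      map_smul' := fun c x => rfl }
  have h1 : Function.Injective F := by
    intro x y h
    refine Subtype.ext (funext fun v => ?_)
    obtain ⟨v, hv⟩ := v
    rcases v with u | i
    · exact congrFun h ⟨u, hv⟩
    · rw [x.2 i hv, y.2 i hv]
  have h2 := LinearMap.finrank_le_finrank_of_injective h1
  rw [Module.finrank_pi, Fintype.card_subtype] at h2
  exact h2.trans (le_of_eq (cfd fun _ _ => Iff.rfl))

/-- `M` agrees with the matrices `mtS` on the columns of `T` -/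
theorem mtS_col [Fintype T] (a : T → T → ZMod 2) (g : Fin m → (T → ZMod 2) × ZMod 2) (R : T ⊕ Fin m → ZMod 2)
    (S : Finset (T ⊕ Fin m)) (A A' : TRN.Pairs m → ZMod 2) {u : S → ZMod 2} (hu : u ∈ supT S) :
    Matrix.mulVec (mtS a g R S A) u = Matrix.mulVec (mtS a g R S A') u := by
  funext v
  rw [Matrix.mulVec, Matrix.mulVec, dotProduct, dotProduct]
  refine Finset.sum_congr rfl fun w _ => ?_
  obtain ⟨w, hw⟩ := w
  rcases w with t | i
  · congr 1
    exact lapI_col a g A A' R v t
  · rw [hu i hw, mul_zero, mul_zero]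

theorem mtS_symm [Fintype T] {a : T → T → ZMod 2} (ha : ∀ u v, a u v = a v u) (g : Fin m → (T → ZMod 2) × ZMod 2)
    (R : T ⊕ Fin m → ZMod 2) (S : Finset (T ⊕ Fin m)) (A : TRN.Pairs m → ZMod 2) : (mtS a g R S A).IsSymm :=
  (lapI_isSymm (bigE_symm ha g A) R).submatrix _

/-- every symmetric matrix with the given columns occurs -/
theorem mtS_surj [Fintype T] {a : T → T → ZMod 2} (ha : ∀ u v, a u v = a v u) (g : Fin m → (T → ZMod 2) × ZMod 2)
    (R : T ⊕ Fin m → ZMod 2) {S : Finset (T ⊕ Fin m)} {i₀ : Fin m} (h0 : Sum.inr i₀ ∉ S) {M : Matrix S S (ZMod 2)}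
    (hM : M ∈ symU (supT S) (mtS a g R S 0)) : ∃ A, mtS a g R S A = M := by
  rw [mem_symU] at hM
  obtain ⟨hs, hcol⟩ := hM
  -- the given entries
  set N : Fin m → Fin m → ZMod 2 := fun i j =>
    if h : Sum.inr i ∈ S ∧ Sum.inr j ∈ S then M ⟨Sum.inr i, h.1⟩ ⟨Sum.inr j, h.2⟩ else 0 with hN
  have hNs : ∀ i j, N i j = N j i := by
    intro i j
    rw [hN]
    simp only
    by_cases h : Sum.inr i ∈ S ∧ Sum.inr j ∈ S
    · rw [dif_pos h, dif_pos ⟨h.2, h.1⟩]
      exact hs.apply _ _
    · rw [dif_neg h, dif_neg fun h' => h ⟨h'.2, h'.1⟩]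
  set c : Fin m → ZMod 2 := fun i => if Sum.inr i ∈ S then
    N i i + R (Sum.inr i) + ∑ u : T, (g i).1 u + ∑ j ∈ Finset.univ.erase i, N i j else 0 with hc
  have hc0 : c i₀ = 0 := by
    rw [hc]
    simp only
    rw [if_neg h0]
  set L : Matrix (Fin m) (Fin m) (ZMod 2) := fun i j => N i j + (if j = i₀ then c i else 0) +
    (if i = i₀ then c j else 0) with hL
  have hLs : L.IsSymm := by
    ext i j
    rw [Matrix.transpose_apply, hL]
    simp only
    rw [hNs j i]
    ring
  refine ⟨fun p => L p.1.1 p.1.2, ?_⟩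
  set A : TRN.Pairs m → ZMod 2 := fun p => L p.1.1 p.1.2 with hA
  have hcolA : ∀ (v : S) (t : T) (ht : Sum.inl t ∈ S), M v ⟨Sum.inl t, ht⟩ = mtS a g R S A v ⟨Sum.inl t, ht⟩ := by
    intro v t ht
    have h5 : (Pi.single (⟨Sum.inl t, ht⟩ : S) 1 : S → ZMod 2) ∈ supT S := by
      intro i hi
      rw [Pi.single_eq_of_ne]
      intro h
      exact Sum.inr_ne_inl (congrArg Subtype.val h)
    have h6 := congrFun (hcol _ h5) v
    rw [Matrix.mulVec_single_one, Matrix.mulVec_single_one] at h6
    have h7 := congrFun (mtS_col a g R S 0 A h5) v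
    rw [Matrix.mulVec_single_one, Matrix.mulVec_single_one] at h7
    exact h6.trans h7
  ext v w
  obtain ⟨v, hv⟩ := v
  obtain ⟨w, hw⟩ := w
  rcases w with t | j
  · exact (hcolA ⟨v, hv⟩ t hw).symm
  · rcases v with t | i
    · have h1 := hcolA ⟨Sum.inr j, hw⟩ t hv
      have h2 := (mtS_symm ha g R S A).apply ⟨Sum.inr j, hw⟩ ⟨Sum.inl t, hv⟩
      have h3 := hs.apply ⟨Sum.inr j, hw⟩ ⟨Sum.inl t, hv⟩
      rw [h2, ← h1, ← h3]
    · have hNij : N i j = M ⟨Sum.inr i, hv⟩ ⟨Sum.inr j, hw⟩ := by
        rw [hN]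
        simp only
        rw [dif_pos ⟨hv, hw⟩]
      have hi0 : i ≠ i₀ := fun h => h0 (h ▸ hv)
      have hj0 : j ≠ i₀ := fun h => h0 (h ▸ hw)
      change lapI (bigE a g A) R (Sum.inr i) (Sum.inr j) = M ⟨Sum.inr i, hv⟩ ⟨Sum.inr j, hw⟩
      rw [← hNij]
      unfold lapI
      by_cases hij : i = j
      · subst hij
        rw [if_pos rfl]
        have e1 : ∑ k ∈ Finset.univ.erase (Sum.inr i), bigE a g A (Sum.inr i) k =
            ∑ u : T, (g i).1 u + ∑ j ∈ Finset.univ.erase i, L i j := by
          have e2 : (Finset.univ.erase (Sum.inr i) : Finset (T ⊕ Fin m)) =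
              (Finset.univ : Finset T).disjSum (Finset.univ.erase i) := by
            ext k
            rcases k with k | k
            · simp
            · simp
          rw [e2, Finset.sum_disjSum]
          congr 1
          refine Finset.sum_congr rfl fun j hj => ?_
          exact TRN.symm_of_matrix hLs (Finset.ne_of_mem_erase hj).symm
        have e3 : ∑ j ∈ Finset.univ.erase i, L i j = ∑ j ∈ Finset.univ.erase i, N i j + c i := by
          rw [hL]
          simp only
          rw [Finset.sum_add_distrib, Finset.sum_add_distrib]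
          have e4 : ∑ j ∈ Finset.univ.erase i, (if i = i₀ then c j else 0) = 0 :=
            Finset.sum_eq_zero fun j _ => if_neg hi0
          have e5 : ∑ j ∈ Finset.univ.erase i, (if j = i₀ then c i else 0) = c i := by
            rw [Finset.sum_ite_eq', if_pos (Finset.mem_erase.2 ⟨hi0.symm, Finset.mem_univ _⟩)]
          rw [e4, e5, add_zero]
        have e6 : c i = N i i + R (Sum.inr i) + ∑ u : T, (g i).1 u + ∑ j ∈ Finset.univ.erase i, N i j := by
          rw [hc]
          simp only
          rw [if_pos hv]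
        rw [e1, e3, e6]
        have f1 := TRN.zmod2_add_self (R (Sum.inr i))
        have f2 := TRN.zmod2_add_self (∑ u : T, (g i).1 u)
        have f3 := TRN.zmod2_add_self (∑ j ∈ Finset.univ.erase i, N i j)
        linear_combination f1 + f2 + f3
      · rw [if_neg fun h => hij (Sum.inr_injective h)]
        change TRN.symm A i j = N i j
        rw [hA, TRN.symm_of_matrix hLs hij, hL]
        simp only
        rw [if_neg hj0, if_neg hi0, add_zero, add_zero]

/-- the count -/
theorem count_sub [Fintype T] {a : T → T → ZMod 2} (ha : ∀ u v, a u v = a v u) (g : Fin m → (T → ZMod 2) × ZMod 2)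
    (R : T ⊕ Fin m → ZMod 2) {S : Finset (T ⊕ Fin m)} (h1 : ∃ i : Fin m, Sum.inr i ∉ S)
    (h2 : ∀ A : Finset T, A.Nonempty → (∀ u ∈ A, Sum.inl u ∈ S) → ∃ i : Fin m, Sum.inr i ∈ S ∧ ∑ u ∈ A, (g i).1 u ≠ 0) :
    ∃ n : ℕ, S.card ≤ n + 2 * (Finset.univ.filter fun u : T => Sum.inl u ∈ S).card ∧
      ((Finset.univ.filter fun A : TRN.Pairs m → ZMod 2 => (mtS a g R S A).det ≠ 0).card : ℝ) =
        TRN.sn n * 2 ^ Fintype.card (TRN.Pairs m) := by
  have hinj : ∀ u ∈ supT S, Matrix.mulVec (mtS a g R S 0) u = 0 → u = 0 := by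
    intro x hx h0
    set B : Finset T := Finset.univ.filter fun u : T => ∃ h : Sum.inl u ∈ S, x ⟨Sum.inl u, h⟩ ≠ 0 with hB
    have h3 : ∀ i : Fin m, Sum.inr i ∈ S → ∑ u ∈ B, (g i).1 u = 0 := by
      intro i hi
      have h4 := congrFun h0 ⟨Sum.inr i, hi⟩
      rw [Matrix.mulVec, dotProduct, Pi.zero_apply] at h4
      refine Eq.trans ?_ h4
      symm
      rw [← Finset.sum_filter_add_sum_filter_not Finset.univ (fun v : S => x v ≠ 0)]
      have h5 : ∑ v ∈ Finset.univ.filter (fun v : S => ¬ x v ≠ 0), mtS a g R S 0 ⟨Sum.inr i, hi⟩ v * x v = 0 := by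
        refine Finset.sum_eq_zero fun v hv => ?_
        rw [Finset.mem_filter, not_not] at hv
        rw [hv.2, mul_zero]
      rw [h5, add_zero]
      symm
      refine Finset.sum_bij (fun u hu => (⟨Sum.inl u, (Finset.mem_filter.1 hu).2.choose⟩ : S)) ?_ ?_ ?_ ?_
      · intro u hu
        exact Finset.mem_filter.2 ⟨Finset.mem_univ _, (Finset.mem_filter.1 hu).2.choose_spec⟩
      · intro u _ v _ h
        exact Sum.inl_injective (congrArg Subtype.val h)
      · intro v hv
        rw [Finset.mem_filter] at hv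
        obtain ⟨v, hvS⟩ := v
        rcases v with u | j
        · exact ⟨u, Finset.mem_filter.2 ⟨Finset.mem_univ _, hvS, hv.2⟩, rfl⟩
        · exact absurd (hx j hvS) hv.2
      · intro u hu
        have h6 := (Finset.mem_filter.1 hu).2.choose_spec
        rcases TRN.zmod2_cases (x ⟨Sum.inl u, (Finset.mem_filter.1 hu).2.choose⟩) with h7 | h7
        · exact absurd h7 h6
        · rw [h7, mul_one]
          change (g i).1 u = lapI (bigE a g 0) R (Sum.inr i) (Sum.inl u)
          unfold lapI
          rw [if_neg Sum.inr_ne_inl]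
          rfl
    have h8 : ¬ B.Nonempty := by
      intro h9
      obtain ⟨i, hi, hi'⟩ := h2 B h9 fun u hu => (Finset.mem_filter.1 hu).2.choose
      exact hi' (h3 i hi)
    rw [Finset.not_nonempty_iff_eq_empty, hB, Finset.filter_eq_empty_iff] at h8
    funext v
    obtain ⟨v, hv⟩ := v
    rcases v with u | i
    · by_contra h9
      exact h8 (Finset.mem_univ u) ⟨hv, h9⟩
    · exact hx i hv
  obtain ⟨n, k1, -, k3⟩ := count_forms (supT S) hinj
  obtain ⟨i₀, hi₀⟩ := h1
  refine ⟨n, ?_, ?_⟩
  · have h4 := supT_le S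
    rw [Fintype.card_coe] at k1
    omega
  · -- counting by the fibres
    set c := (Finset.univ.filter fun A : TRN.Pairs m → ZMod 2 => mtS a g R S A = mtS a g R S 0).card with hcdef
    have hmem : ∀ A, mtS a g R S A ∈ symU (supT S) (mtS a g R S 0) := by
      intro A
      rw [mem_symU]
      exact ⟨mtS_symm ha g R S A, fun u hu => mtS_col a g R S A 0 hu⟩
    have hfib : ∀ M ∈ symU (supT S) (mtS a g R S 0),
        (Finset.univ.filter fun A : TRN.Pairs m → ZMod 2 => mtS a g R S A = M).card = c := by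
      intro M hM
      obtain ⟨A, rfl⟩ := mtS_surj ha g R hi₀ hM
      exact mtS_fib a g R S A 0
    have htot : 2 ^ Fintype.card (TRN.Pairs m) = (symU (supT S) (mtS a g R S 0)).card * c := by
      have e1 : (Finset.univ : Finset (TRN.Pairs m → ZMod 2)).card = 2 ^ Fintype.card (TRN.Pairs m) := by
        rw [Finset.card_univ, Fintype.card_fun, ZMod.card]
      rw [← e1, Finset.card_eq_sum_card_fiberwise (f := fun A => mtS a g R S A)
        (t := symU (supT S) (mtS a g R S 0)) fun A _ => hmem A, Finset.sum_congr rfl hfib, Finset.sum_const, smul_eq_mul]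
    have hdet : (Finset.univ.filter fun A : TRN.Pairs m → ZMod 2 => (mtS a g R S A).det ≠ 0).card =
        ((symU (supT S) (mtS a g R S 0)).filter fun M => M.det ≠ 0).card * c := by
      rw [Finset.card_eq_sum_card_fiberwise (f := fun A => mtS a g R S A)
        (t := (symU (supT S) (mtS a g R S 0)).filter fun M => M.det ≠ 0)]
      · rw [← smul_eq_mul, ← Finset.sum_const]
        refine Finset.sum_congr rfl fun M hM => ?_
        rw [Finset.mem_filter] at hM
        rw [← hfib M hM.1, Finset.filter_filter]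
        refine cfd fun A _ => ⟨fun h => h.2, fun h => ⟨?_, h⟩⟩
        rw [h]
        exact hM.2
      · intro A hA
        rw [Finset.mem_coe, Finset.mem_filter] at hA
        rw [Finset.mem_coe, Finset.mem_filter]
        exact ⟨hmem A, hA.2⟩
    rw [hdet]
    have e2 : (2 : ℝ) ^ Fintype.card (TRN.Pairs m) = (symU (supT S) (mtS a g R S 0)).card * c := by
      exact_mod_cast htot
    rw [e2]
    push_cast
    rw [← mul_assoc, ← k3]

end

section
variable {T : Type} {m : ℕ}

/-- the kinds of the vertices -/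
def bigK (kT : T → Prop) (g : Fin m → (T → ZMod 2) × ZMod 2 × Bool) : T ⊕ Fin m → Prop
  | Sum.inl u => kT u
  | Sum.inr i => (g i).2.2 = true

/-- the edges to the root, the inert vertices are merged with the root -/
noncomputable def bigRL [Fintype T] (a : T → T → ZMod 2) (r : T → ZMod 2) (kT : T → Prop) (g : Fin m → (T → ZMod 2) × ZMod 2 × Bool)
    (A : TRN.Pairs m → ZMod 2) (v : T ⊕ Fin m) : ZMod 2 :=
  bigR r (fun i => ((g i).1, (g i).2.1)) v +
    ∑ w ∈ Finset.univ.filter (fun w => ¬ bigK kT g w), bigE a (fun i => ((g i).1, (g i).2.1)) A v w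

theorem card_bigK [Fintype T] (kT : T → Prop) (g : Fin m → (T → ZMod 2) × ZMod 2 × Bool) :
    (Finset.univ.filter (bigK kT g)).card =
      (Finset.univ.filter fun u => kT u).card + (Finset.univ.filter fun i => (g i).2.2 = true).card := by
  have h : Finset.univ.filter (bigK kT g) =
      (Finset.univ.filter fun u => kT u).disjSum (Finset.univ.filter fun i => (g i).2.2 = true) := by
    ext v
    rcases v with u | i
    · rw [Finset.inl_mem_disjSum, Finset.mem_filter, Finset.mem_filter]
      exact ⟨fun h => ⟨Finset.mem_univ _, h.2⟩, fun h => ⟨Finset.mem_univ _, h.2⟩⟩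
    · rw [Finset.inr_mem_disjSum, Finset.mem_filter, Finset.mem_filter]
      exact ⟨fun h => ⟨Finset.mem_univ _, h.2⟩, fun h => ⟨Finset.mem_univ _, h.2⟩⟩
  rw [h, Finset.card_disjSum]

/-- [DNL-D6] THE COUNT for graphs with two kinds of vertices; the graphs with the inert vertices merged with the root. (`n` = the number of the split `i` minus the dimension of the radical of the
block of the split `u : T`.) -/
theorem count_bigL [Fintype T] (a : T → T → ZMod 2) (ha : ∀ u v, a u v = a v u) (r : T → ZMod 2) (kT : T → Prop)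
    (g : Fin m → (T → ZMod 2) × ZMod 2 × Bool) (h1 : ∃ i, (g i).2.2 = false)
    (h2 : ∀ A : Finset T, A.Nonempty → (∀ u ∈ A, kT u) → ∃ i, (g i).2.2 = true ∧ ∑ u ∈ A, (g i).1 u ≠ 0) :
    ∃ n : ℕ, (Finset.univ.filter fun i => (g i).2.2 = true).card ≤ n + (Finset.univ.filter fun u => kT u).card ∧
      ((Finset.univ.filter fun A : TRN.Pairs m → ZMod 2 =>
        Pool.Agent.TRG.f (bigE a (fun i => ((g i).1, (g i).2.1)) A) (bigRL a r kT g A)
          (Finset.univ.filter (bigK kT g)) ≠ 0).card : ℝ) = TRN.sn n * 2 ^ Fintype.card (TRN.Pairs m) := by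
  have hS : ∀ v, v ∈ Finset.univ.filter (bigK kT g) ↔ bigK kT g v := by
    intro v
    rw [Finset.mem_filter]
    exact and_iff_right (Finset.mem_univ _)
  have g1 : ∃ i : Fin m, Sum.inr i ∉ Finset.univ.filter (bigK kT g) := by
    obtain ⟨i, hi⟩ := h1
    refine ⟨i, fun h => ?_⟩
    rw [hS] at h
    change (g i).2.2 = true at h
    rw [hi] at h
    exact Bool.false_ne_true h
  obtain ⟨n, k1, k2⟩ := count_sub ha (fun i => ((g i).1, (g i).2.1)) (bigR r (fun i => ((g i).1, (g i).2.1))) g1 (by
    intro A hA hAS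
    obtain ⟨i, hi, hi'⟩ := h2 A hA fun u hu => (hS _).1 (hAS u hu)
    exact ⟨i, (hS _).2 hi, hi'⟩)
  refine ⟨n, ?_, ?_⟩
  · rw [card_bigK] at k1
    have h3 : (Finset.univ.filter fun u : T => Sum.inl u ∈ Finset.univ.filter (bigK kT g)).card =
        (Finset.univ.filter fun u => kT u).card := cfd fun u _ => hS _
    rw [h3] at k1
    omega
  · rw [← k2]
    refine congrArg Nat.cast (cfd fun A _ => not_congr ?_)
    unfold Pool.Agent.TRG.f mtS
    rw [lap_sub _ (bigR r (fun i => ((g i).1, (g i).2.1)))]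
    intro v _
    unfold bigRL
    congr 1
    refine Finset.sum_congr ?_ fun _ _ => rfl
    refine Finset.filter_congr fun w _ => ?_
    rw [hS]

end

/-- reindexing -/
theorem f_image {ι κ : Type} [DecidableEq ι] [DecidableEq κ] {φ : ι → κ} (hφ : Function.Injective φ)
    {E : κ → κ → ZMod 2} {R : κ → ZMod 2} {E' : ι → ι → ZMod 2} {R' : ι → ZMod 2} {S : Finset ι}
    (hE : ∀ i ∈ S, ∀ j ∈ S, i ≠ j → E' i j = E (φ i) (φ j)) (hR : ∀ i ∈ S, R' i = R (φ i)) :
    Pool.Agent.TRG.f E' R' S = Pool.Agent.TRG.f E R (S.image φ) := by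
  unfold Pool.Agent.TRG.f
  let ψ : S → (S.image φ : Finset κ) := fun i => ⟨φ i, Finset.mem_image_of_mem φ i.2⟩
  have hψ : Function.Bijective ψ := by
    constructor
    · intro i j h
      exact Subtype.ext (hφ (congrArg Subtype.val h))
    · rintro ⟨v, hv⟩
      obtain ⟨i, hi, rfl⟩ := Finset.mem_image.1 hv
      exact ⟨⟨i, hi⟩, rfl⟩
  rw [← Matrix.det_submatrix_equiv_self (Equiv.ofBijective ψ hψ)]
  congr 1
  ext i j
  rw [Matrix.submatrix_apply]
  unfold Pool.Agent.TRG.lap
  by_cases h : i = j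
  · subst h
    rw [if_pos rfl, if_pos rfl, hR i i.2]
    change R (φ i) + _ = R (φ i) + ∑ v ∈ (S.image φ).erase (φ i), E (φ i) v
    rw [← Finset.image_erase hφ, Finset.sum_image fun a _ b _ h => hφ h]
    congr 1
    refine Finset.sum_congr rfl fun j hj => ?_
    exact hE i i.2 j (Finset.mem_of_mem_erase hj) (Finset.ne_of_mem_erase hj).symm
  · rw [if_neg h, if_neg fun h1 => h ((Equiv.ofBijective ψ hψ).injective h1)]
    exact hE i i.2 j j.2 fun h1 => h (Subtype.ext h1)

section
variable {P : Type}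

/-- the type of `v` -/
noncomputable def typL (B : Base P) (k : P → Prop) (T : Finset P) (v : P) : (T → ZMod 2) × ZMod 2 × Bool :=
  (fun u => B.e u v, B.ρ v, decide (k v))

/-- [DNL-D6b] Reindexing -/
theorem f_bigL (B : Base P) (k : P → Prop) (T : Finset P) {m : ℕ} (x : Fin m → P) (hx : Function.Injective x)
    (hT : ∀ i, x i ∉ T) :
    OddL B k (T ∪ Finset.univ.image x) ↔
      Pool.Agent.TRG.f (bigE (fun u v : T => B.e u v) (fun i => ((typL B k T (x i)).1, (typL B k T (x i)).2.1))
          (fun p => B.e (x p.1.1) (x p.1.2)))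
        (bigRL (fun u v : T => B.e u v) (fun u : T => B.ρ u) (fun u : T => k u) (fun i => typL B k T (x i))
          (fun p => B.e (x p.1.1) (x p.1.2)))
        (Finset.univ.filter (bigK (fun u : T => k u) (fun i => typL B k T (x i)))) ≠ 0 := by
  let φ : T ⊕ Fin m → P := Sum.elim (fun u => (u : P)) x
  have hφ : Function.Injective φ := by
    rintro (u | i) (v | j) h
    · exact congrArg Sum.inl (Subtype.ext h)
    · have h1 : (u : P) = x j := h
      exact absurd (h1 ▸ u.2) (hT j)
    · have h1 : x i = (v : P) := h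
      exact absurd (h1 ▸ v.2) (hT i)
    · exact congrArg Sum.inr (hx h)
  have hφS : ∀ v, φ v ∈ T ∪ Finset.univ.image x := by
    rintro (u | i)
    · exact Finset.mem_union_left _ u.2
    · exact Finset.mem_union_right _ (Finset.mem_image_of_mem _ (Finset.mem_univ _))
  have hsurj : ∀ v ∈ T ∪ Finset.univ.image x, ∃ w, φ w = v := by
    intro v hv
    rcases Finset.mem_union.1 hv with h | h
    · exact ⟨Sum.inl ⟨v, h⟩, rfl⟩
    · obtain ⟨i, -, rfl⟩ := Finset.mem_image.1 h
      exact ⟨Sum.inr i, rfl⟩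
  have hk : ∀ v, bigK (fun u : T => k u) (fun i => typL B k T (x i)) v ↔ k (φ v) := by
    rintro (u | i)
    · exact Iff.rfl
    · exact decide_eq_true_iff
  have him : (Finset.univ.filter (bigK (fun u : T => k u) (fun i => typL B k T (x i)))).image φ =
      (T ∪ Finset.univ.image x).filter k := by
    ext v
    rw [Finset.mem_image, Finset.mem_filter]
    constructor
    · rintro ⟨w, hw, rfl⟩
      exact ⟨hφS w, (hk w).1 (Finset.mem_filter.1 hw).2⟩
    · rintro ⟨h1, h2⟩
      obtain ⟨w, rfl⟩ := hsurj v h1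
      exact ⟨w, Finset.mem_filter.2 ⟨Finset.mem_univ _, (hk w).2 h2⟩, rfl⟩
  have him' : (Finset.univ.filter fun w => ¬ bigK (fun u : T => k u) (fun i => typL B k T (x i)) w).image φ =
      (T ∪ Finset.univ.image x).filter fun w => ¬ k w := by
    ext v
    rw [Finset.mem_image, Finset.mem_filter]
    constructor
    · rintro ⟨w, hw, rfl⟩
      exact ⟨hφS w, fun h => (Finset.mem_filter.1 hw).2 ((hk w).2 h)⟩
    · rintro ⟨h1, h2⟩
      obtain ⟨w, rfl⟩ := hsurj v h1
      exact ⟨w, Finset.mem_filter.2 ⟨Finset.mem_univ _, fun h => h2 ((hk w).1 h)⟩, rfl⟩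
  have hE : ∀ i j : T ⊕ Fin m, i ≠ j →
      bigE (fun u v : T => B.e u v) (fun i => ((typL B k T (x i)).1, (typL B k T (x i)).2.1))
        (fun p => B.e (x p.1.1) (x p.1.2)) i j = B.e (φ i) (φ j) := by
    intro i j hij
    rcases i with i | i <;> rcases j with j | j
    · rfl
    · rfl
    · exact B.sym _ _
    · change TRN.symm (fun p : TRN.Pairs m => B.e (x p.1.1) (x p.1.2)) i j = B.e (x i) (x j)
      unfold TRN.symm
      have h8 : i ≠ j := fun h => hij (congrArg Sum.inr h)
      by_cases h1 : i < j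
      · rw [dif_pos h1]
      · rw [dif_neg h1, dif_pos (lt_of_le_of_ne (not_lt.1 h1) h8.symm), B.sym]
  have key := f_image (E := B.e)
    (R := fun v => B.ρ v + ∑ w ∈ (T ∪ Finset.univ.image x).filter (fun w => ¬ k w), B.e v w) hφ
    (E' := bigE (fun u v : T => B.e u v) (fun i => ((typL B k T (x i)).1, (typL B k T (x i)).2.1))
          (fun p => B.e (x p.1.1) (x p.1.2)))
    (R' := bigRL (fun u v : T => B.e u v) (fun u : T => B.ρ u) (fun u : T => k u) (fun i => typL B k T (x i))
          (fun p => B.e (x p.1.1) (x p.1.2)))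
    (S := Finset.univ.filter (bigK (fun u : T => k u) (fun i => typL B k T (x i))))
    (fun i _ j _ hij => hE i j hij) (by
      intro v hv
      unfold bigRL
      have e1 : bigR (fun u : T => B.ρ u) (fun i => ((typL B k T (x i)).1, (typL B k T (x i)).2.1)) v = B.ρ (φ v) := by
        rcases v with u | i <;> rfl
      rw [e1, ← him', Finset.sum_image fun a _ b _ h => hφ h]
      congr 1
      refine Finset.sum_congr rfl fun w hw => hE v w ?_
      rintro rfl
      exact (Finset.mem_filter.1 hw).2 (Finset.mem_filter.1 hv).2)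
  rw [key, him]
  rfl

end

end TRQ
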