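import Pool.Agent.TRW.D2

/-! [DNL-D7] the exceptional sets -/

set_option autoImplicit false

open Finset Filter Topology
open scoped Classical

namespace TRQ

variable {P : Type}

/-- the weights -/
noncomputable def wL (B : SysL P) (fs f1 f2 X : ℝ) (v : P) : ℝ :=
  if (B.N v : ℝ) ≤ zX X then fs else if B.k v then f1 else f2

theorem wL_nonneg (B : SysL P) {fs f1 f2 : ℝ} (h0 : 0 ≤ f1) (h0' : 0 ≤ f2) (h1 : f1 ≤ fs) (X : ℝ) (v : P) :
    0 ≤ wL B fs f1 f2 X v := by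
  unfold wL
  split_ifs <;> linarith

theorem wL_le (B : SysL P) {fs f1 f2 : ℝ} (h1 : f1 ≤ fs) (h2 : f2 ≤ fs) (X : ℝ) (v : P) :
    wL B fs f1 f2 X v ≤ fs := by
  unfold wL
  split_ifs <;> linarith

/-- the sum of the weights -/
theorem sum_wL (B : SysL P) {fs f1 f2 X : ℝ} (h0 : 0 ≤ f1) (h0' : 0 ≤ f2) (h1 : f1 ≤ fs) (hz : zX X ≤ X) :
    ∑ v ∈ B.pb X, wL B fs f1 f2 X v / B.N v ≤
      f2 * (B.H X - ∑ v ∈ (B.pb X).filter B.k, 1 / (B.N v : ℝ)) +
        f1 * ∑ v ∈ (B.pb X).filter B.k, 1 / (B.N v : ℝ) + fs * B.H (zX X) := by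
  have hpz : (B.pb X).filter (fun v => (B.N v : ℝ) ≤ zX X) = B.pb (zX X) := by
    ext v
    rw [Finset.mem_filter, B.mem_pb, B.mem_pb]
    exact ⟨fun h => h.2, fun h => ⟨h.trans hz, h⟩⟩
  have e1 : fs * B.H (zX X) = ∑ v ∈ B.pb X, if (B.N v : ℝ) ≤ zX X then fs * (1 / (B.N v : ℝ)) else 0 := by
    unfold Base.H
    rw [← hpz, Finset.mul_sum, Finset.sum_filter]
  have e2 : f2 * (B.H X - ∑ v ∈ (B.pb X).filter B.k, 1 / (B.N v : ℝ)) +
        f1 * ∑ v ∈ (B.pb X).filter B.k, 1 / (B.N v : ℝ) =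
      ∑ v ∈ B.pb X, (if B.k v then f1 else f2) * (1 / (B.N v : ℝ)) := by
    unfold Base.H
    rw [Finset.sum_filter, mul_sub, Finset.mul_sum, Finset.mul_sum, Finset.mul_sum, ← Finset.sum_sub_distrib,
      ← Finset.sum_add_distrib]
    refine Finset.sum_congr rfl fun v _ => ?_
    split_ifs <;> ring
  rw [e1, e2, ← Finset.sum_add_distrib]
  refine Finset.sum_le_sum fun v _ => ?_
  have hN : (0 : ℝ) < B.N v := by exact_mod_cast lt_of_lt_of_le (by norm_num) (B.two v)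
  have hN' : 0 ≤ 1 / (B.N v : ℝ) := by positivity
  unfold wL
  rw [div_eq_mul_one_div]
  by_cases hv : (B.N v : ℝ) ≤ zX X
  · rw [if_pos hv, if_pos hv]
    have : 0 ≤ (if B.k v then f1 else f2) * (1 / (B.N v : ℝ)) := by
      refine mul_nonneg ?_ hN'
      split_ifs <;> assumption
    linarith
  · rw [if_neg hv, if_neg hv, add_zero]

/-- the general form -/
theorem exc_genL (B : SysL P) {fs f1 f2 c0 : ℝ} (h0 : 0 ≤ f1) (h0' : 0 ≤ f2) (h1 : f1 ≤ fs) (h2 : f2 ≤ fs)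
    (he : B.βs * f1 + (B.β - B.βs) * f2 + c0 * Real.log 2 < B.β) :
    ∃ c X₀ : ℝ, 0 < c ∧ ∀ X : ℝ, X₀ ≤ X → ∀ p : Finset P → Prop,
      (∀ S, p S → 1 ≤ (2:ℝ) ^ (c0 * lX X) * ∏ v ∈ S, wL B fs f1 f2 X v) →
      (((B.sb X).filter p).card : ℝ) ≤ X * (Real.log X) ^ (B.β - 1 - c) := by
  obtain ⟨C', hC', hs⟩ := sum_le B.toSys0 (max 1 fs) (le_max_left _ _)
  obtain ⟨C1, _, hH⟩ := abs_H_sub_le B.toSys0
  obtain ⟨C2, _, hK⟩ := abs_Hk_sub_le B
  have hfs : 0 ≤ fs := h0.trans h1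
  have hβ := B.hβ
  obtain ⟨c, hc⟩ : ∃ c : ℝ, c = (B.β - (B.βs * f1 + (B.β - B.βs) * f2) - c0 * Real.log 2) / 2 := ⟨_, rfl⟩
  have hc0 : 0 < c := by rw [hc]; linarith
  obtain ⟨A, hA⟩ : ∃ A : ℝ, A = Real.log C' + (f2 * (C1 + C2) + f1 * C2 + fs * C1) := ⟨_, rfl⟩
  -- the final inequality, eventually
  have hfin : ∀ᶠ X : ℝ in atTop, A + 3 * B.β * fs * Real.log (lX X) ≤ c * lX X := by
    have h0 : ∀ᶠ l : ℝ in atTop, A + 3 * B.β * fs * Real.log l ≤ c * l := by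
      have hD : 0 ≤ 3 * B.β * fs := by positivity
      have hk : 0 < c / (2 * (3 * B.β * fs + 1)) := by positivity
      have h := Real.isLittleO_log_id_atTop.bound hk
      have hconst : ∀ᶠ l : ℝ in atTop, A ≤ c / 2 * l :=
        (tendsto_id.const_mul_atTop (by linarith : (0:ℝ) < c / 2)).eventually_ge_atTop _
      filter_upwards [h, hconst, eventually_ge_atTop 1] with l h1 h2 h3
      have hl : 0 ≤ Real.log l := Real.log_nonneg h3
      rw [id, Real.norm_of_nonneg hl, Real.norm_of_nonneg (by linarith)] at h1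
      have h4 : (3 * B.β * fs + 1) * Real.log l ≤ c / 2 * l := by
        calc (3 * B.β * fs + 1) * Real.log l
            ≤ (3 * B.β * fs + 1) * (c / (2 * (3 * B.β * fs + 1)) * l) :=
              mul_le_mul_of_nonneg_left h1 (by linarith)
          _ = c / 2 * l := by field_simp
      nlinarith
    exact lX_tendsto.eventually h0
  obtain ⟨X₀, hX₀⟩ := eventually_atTop.1 (hfin.and eventually_X)
  refine ⟨c, X₀, hc0, fun X hX p hp => ?_⟩
  obtain ⟨hf, hX2, hl2, hz3, hzX, hL1⟩ := hX₀ X hX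
  have hX0 : 0 < X := by linarith
  have hL0 : 0 < Real.log X := by linarith
  have hnn : ∀ v : P, 0 ≤ wL B fs f1 f2 X v := wL_nonneg B h0 h0' h1 X
  have hle : ∀ v : P, wL B fs f1 f2 X v ≤ max 1 fs := fun v => (wL_le B h1 h2 X v).trans (le_max_right _ _)
  have hW : 0 < (2:ℝ) ^ (c0 * lX X) := Real.rpow_pos_of_pos (by norm_num) _
  have k1 : (((B.sb X).filter p).card : ℝ) ≤
      (2:ℝ) ^ (c0 * lX X) * ∑ S ∈ B.sb X, ∏ v ∈ S, wL B fs f1 f2 X v := by
    calc (((B.sb X).filter p).card : ℝ) = ∑ S ∈ (B.sb X).filter p, (1:ℝ) := by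
          rw [Finset.sum_const, nsmul_eq_mul, mul_one]
      _ ≤ ∑ S ∈ (B.sb X).filter p, (2:ℝ) ^ (c0 * lX X) * ∏ v ∈ S, wL B fs f1 f2 X v :=
          Finset.sum_le_sum fun S hS => hp S (Finset.mem_filter.1 hS).2
      _ ≤ ∑ S ∈ B.sb X, (2:ℝ) ^ (c0 * lX X) * ∏ v ∈ S, wL B fs f1 f2 X v := by
          refine Finset.sum_le_sum_of_subset_of_nonneg (Finset.filter_subset _ _) fun S _ _ => ?_
          exact mul_nonneg hW.le (Finset.prod_nonneg fun v _ => hnn v)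
      _ = _ := by rw [Finset.mul_sum]
  have k2 := hs (fun v => wL B fs f1 f2 X v) hnn hle X hX2
  have k3 := sum_wL B h0 h0' h1 hzX
  obtain ⟨K, hKdef⟩ : ∃ K : ℝ, K = ∑ v ∈ (B.pb X).filter B.k, 1 / (B.N v : ℝ) := ⟨_, rfl⟩
  rw [← hKdef] at k3
  have hX3 : 3 ≤ X := hz3.trans hzX
  have hH1 : B.H X ≤ B.β * lX X + C1 := by
    have := (abs_le.1 (hH X hX3)).2
    unfold lX; linarith
  have hK1 : K ≤ B.βs * lX X + C2 := by
    have := (abs_le.1 (hK X hX3)).2
    rw [← hKdef] at this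
    unfold lX; linarith
  have hK2 : B.βs * lX X - C2 ≤ K := by
    have := (abs_le.1 (hK X hX3)).1
    rw [← hKdef] at this
    unfold lX; linarith
  have hH2 : B.H (zX X) ≤ B.β * (3 * Real.log (lX X)) + C1 := by
    have := (abs_le.1 (hH (zX X) hz3)).2
    have e : Real.log (Real.log (zX X)) = 3 * Real.log (lX X) := by
      unfold zX
      rw [Real.log_exp, Real.log_pow]; norm_num
    rw [e] at this
    linarith
  have k4 : ∑ v ∈ B.pb X, wL B fs f1 f2 X v / B.N v ≤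
      (B.βs * f1 + (B.β - B.βs) * f2) * lX X + (f2 * (C1 + C2) + f1 * C2 + fs * C1) +
        3 * B.β * fs * Real.log (lX X) := by
    have a1 : f2 * (B.H X - K) ≤ f2 * ((B.β * lX X + C1) - (B.βs * lX X - C2)) :=
      mul_le_mul_of_nonneg_left (by linarith) h0'
    have a2 := mul_le_mul_of_nonneg_left hK1 h0
    have a3 := mul_le_mul_of_nonneg_left hH2 hfs
    nlinarith
  refine (k1.trans (mul_le_mul_of_nonneg_left k2 hW.le)).trans ?_
  have e1 : (2:ℝ) ^ (c0 * lX X) = Real.exp (c0 * lX X * Real.log 2) := by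
    rw [Real.rpow_def_of_pos (by norm_num)]; congr 1; ring
  have e2 : X / Real.log X = X * Real.exp (-lX X) := by
    unfold lX; rw [Real.exp_neg, Real.exp_log hL0]; rfl
  have e3 : (Real.log X) ^ (B.β - 1 - c) = Real.exp (lX X * (B.β - 1 - c)) := by
    rw [Real.rpow_def_of_pos hL0]; rfl
  rw [e1, e2, e3]
  obtain ⟨W, hWd⟩ : ∃ W : ℝ, W = ∑ v ∈ B.pb X, wL B fs f1 f2 X v / B.N v := ⟨_, rfl⟩
  rw [← hWd] at k4 ⊢
  calc Real.exp (c0 * lX X * Real.log 2) * (C' * (X * Real.exp (-lX X)) * Real.exp W)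
      = X * Real.exp (c0 * lX X * Real.log 2 + Real.log C' + -lX X + W) := by
          rw [Real.exp_add (c0 * lX X * Real.log 2 + Real.log C' + -lX X),
            Real.exp_add (c0 * lX X * Real.log 2 + Real.log C'), Real.exp_add (c0 * lX X * Real.log 2),
            Real.exp_log hC']; ring
    _ ≤ X * Real.exp (lX X * (B.β - 1 - c)) := by
        refine mul_le_mul_of_nonneg_left (Real.exp_le_exp.2 ?_) hX0.le
        have : lX X * (2 * c) = lX X * (B.β - (B.βs * f1 + (B.β - B.βs) * f2) - c0 * Real.log 2) := by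
          rw [hc]; ring
        nlinarith

/-- the product of the weights -/
theorem prod_wL (B : SysL P) (fs f1 f2 X : ℝ) (S : Finset P) :
    ∏ v ∈ S, wL B fs f1 f2 X v = fs ^ (S.filter fun v => (B.N v : ℝ) ≤ zX X).card *
      (f1 ^ (S.filter fun v => zX X < (B.N v : ℝ) ∧ B.k v).card *
        f2 ^ (S.filter fun v => zX X < (B.N v : ℝ) ∧ ¬ B.k v).card) := by
  unfold wL
  rw [Finset.prod_ite, Finset.prod_const, Finset.prod_ite, Finset.prod_const, Finset.prod_const,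
    Finset.filter_filter, Finset.filter_filter]
  simp only [not_le]

/-- [DNL-D7a] PROOF. As `card_few_large` (`sum_le` with `f = 1/2` for the split `v` with `N v > z`, `f = 1` otherwise). -/
theorem card_few_large_split (B : SysL P) : ∃ c X₀ : ℝ, 0 < c ∧ ∀ X : ℝ, X₀ ≤ X →
    (((B.sb X).filter fun S => ((S.filter fun v => zX X < (B.N v : ℝ) ∧ B.k v).card : ℝ) ≤ B.βs / 2 * lX X).card : ℝ) ≤
      X * (Real.log X) ^ (B.β - 1 - c) := by
  have he : B.βs * (1 / 2) + (B.β - B.βs) * 1 + (B.βs / 2) * Real.log 2 < B.β := by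
    have := Real.log_two_lt_d9
    have := B.hβs
    nlinarith
  obtain ⟨c, X₀, hc, h⟩ := exc_genL B (fs := 1) (f1 := 1 / 2) (f2 := 1) (c0 := B.βs / 2) (by norm_num) (by norm_num)
    (by norm_num) le_rfl he
  refine ⟨c, X₀, hc, fun X hX => h X hX _ fun S hS => ?_⟩
  rw [prod_wL, one_pow, one_mul, one_pow, mul_one, one_div, inv_pow, ← Real.rpow_natCast,
    ← Real.rpow_neg (by norm_num), ← Real.rpow_add (by norm_num)]
  exact Real.one_le_rpow (by norm_num) (by linarith)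

/-- [DNL-D7b] PROOF. As `card_many_small`. -/
theorem card_many_small' (B : SysL P) : ∃ c X₀ : ℝ, 0 < c ∧ ∀ X : ℝ, X₀ ≤ X →
    (((B.sb X).filter fun S => B.βs / 4 * lX X < ((S.filter fun v => (B.N v : ℝ) ≤ zX X).card : ℝ)).card : ℝ) ≤
      X * (Real.log X) ^ (B.β - 1 - c) := by
  have he : B.βs * 1 + (B.β - B.βs) * 1 + (-(B.βs / 4)) * Real.log 2 < B.β := by
    have := Real.log_two_gt_d9
    have := B.hβs
    nlinarith
  obtain ⟨c, X₀, hc, h⟩ := exc_genL B (fs := 2) (f1 := 1) (f2 := 1) (c0 := -(B.βs / 4)) (by norm_num) (by norm_num)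
    (by norm_num) (by norm_num) he
  refine ⟨c, X₀, hc, fun X hX => h X hX _ fun S hS => ?_⟩
  rw [prod_wL, one_pow, one_pow, mul_one, mul_one, ← Real.rpow_natCast, ← Real.rpow_add (by norm_num)]
  exact Real.one_le_rpow (by norm_num) (by linarith)

/-- [DNL-D7c] PROOF. `sum_le` with `f = 0` for the inert `v` with `N v > z`, `f = 1` otherwise: `C X (log X)^(-1 + βs) ℓ^C`, `βs < β`. -/
theorem prod_wL_no_inert (B : SysL P) (X : ℝ) (S : Finset P) (hS : ∀ v ∈ S, zX X < (B.N v : ℝ) → B.k v) :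
    ∏ v ∈ S, wL B 1 1 0 X v = 1 := by
  refine Finset.prod_eq_one fun v hv => ?_
  unfold wL
  by_cases h1 : (B.N v : ℝ) ≤ zX X
  · rw [if_pos h1]
  · rw [if_neg h1, if_pos (hS v hv (not_le.1 h1))]

theorem card_no_inert (B : SysL P) : ∃ c X₀ : ℝ, 0 < c ∧ ∀ X : ℝ, X₀ ≤ X →
    (((B.sb X).filter fun S => ∀ v ∈ S, zX X < (B.N v : ℝ) → B.k v).card : ℝ) ≤
      X * (Real.log X) ^ (B.β - 1 - c) := by
  have he : B.βs * 1 + (B.β - B.βs) * 0 + 0 * Real.log 2 < B.β := by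
    have := B.hβs1
    linarith
  obtain ⟨c, X₀, hc, h⟩ := exc_genL B (fs := 1) (f1 := 1) (f2 := 0) (c0 := 0) zero_le_one le_rfl le_rfl zero_le_one he
  refine ⟨c, X₀, hc, fun X hX => ?_⟩
  have h2 := h X hX (fun S => ∀ v ∈ S, zX X < (B.N v : ℝ) → B.k v) fun S hS => ?_
  · convert h2
  · rw [prod_wL_no_inert B X S hS, zero_mul, Real.rpow_zero, mul_one]

end TRQ
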