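import Pool.Agent.TRW.D6
import Pool.Agent.TRW.D7
import Pool.Agent.TRW.D7d
import Pool.Agent.TRQ.D8

/-! [DNL-D8] the density for an abstract system with two kinds of primes -/

set_option autoImplicit false

open Finset Filter Topology
open scoped Classical Nat

namespace TRQ

variable {P : Type}

/-- the error term -/
noncomputable def errL (B : Base P) (C δ z X : ℝ) (T : Finset P) (m : ℕ) : ℝ :=
  C * 2 ^ (m ^ 2) * ((2 : ℝ) ^ (T.card + 2)) ^ m * (X / B.nS T) * Real.log (X / B.nS T + 2) * z ^ (-δ) *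
    (1 + B.H (X / B.nS T)) ^ m

/-- the sum of the error terms -/
theorem errL_small (B : Sys0 P) {C δ : ℝ} (hC : 0 < C) (hδ : 0 < δ) {η : ℝ} (hη : 0 < η) : ∃ X₀ : ℝ, ∀ X : ℝ, X₀ ≤ X →
    ∑ T ∈ (B.pb (zX X)).powerset.filter (fun T => T.card ≤ ⌊2 * lX X⌋₊), ∑ m ∈ range (⌊2 * lX X⌋₊ + 1),
      errL B.toBase C δ (zX X) X T m ≤ η * (B.sb X).card := by
  obtain ⟨C', hC', hH⟩ := abs_H_sub_le B
  obtain ⟨c, X1, hc, hN⟩ := card_sb_ge B
  have hev : ∀ᶠ X : ℝ in atTop, ∑ T ∈ (B.pb (zX X)).powerset.filter (fun T => T.card ≤ ⌊2 * lX X⌋₊),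
      ∑ m ∈ range (⌊2 * lX X⌋₊ + 1), errL B.toBase C δ (zX X) X T m ≤ η * (B.sb X).card := by
    have e1 := lX_tendsto.eventually (poly_le hδ (11 + 2 * C') (C' + C'))
    have e2 : ∀ᶠ X : ℝ in atTop, 2 * C * Real.exp (-lX X) ≤ η * c := by
      have h1 : Tendsto (fun X => 2 * C * Real.exp (-lX X)) atTop (𝓝 (2 * C * 0)) :=
        (Real.tendsto_exp_neg_atTop_nhds_zero.comp lX_tendsto).const_mul _
      rw [mul_zero] at h1
      exact h1.eventually_le_const (by positivity)
    filter_upwards [e1, e2, eventually_ge_atTop X1, lX_tendsto.eventually_ge_atTop 2,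
      eventually_ge_atTop (Real.exp (Real.exp 2))] with X h1 h2 h3 h4 h5
    set l := lX X with hl
    have hX0 : 0 < X := (Real.exp_pos _).trans_le h5
    have hlog : Real.exp 2 ≤ Real.log X := by
      rw [Real.le_log_iff_exp_le hX0]
      exact h5
    have hlogpos : 0 < Real.log X := (Real.exp_pos _).trans_le hlog
    have hexp : Real.exp l = Real.log X := by
      rw [hl]
      unfold lX
      exact Real.exp_log hlogpos
    have hX3 : 3 ≤ X := by
      have h6 : (3 : ℝ) ≤ Real.exp 2 := by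
        have := Real.add_one_le_exp (2 : ℝ)
        linarith
      have h7 : Real.exp 2 ≤ Real.exp (Real.exp 2) := Real.exp_le_exp.2 (by linarith)
      linarith
    have hzdef : zX X = Real.exp (l ^ 3) := rfl
    have hz3 : 3 ≤ zX X := by
      rw [hzdef]
      have h6 : (8 : ℝ) ≤ l ^ 3 := by
        have : (2 : ℝ) ^ 3 ≤ l ^ 3 := pow_le_pow_left₀ (by norm_num) h4 3
        linarith
      have := Real.add_one_le_exp (l ^ 3)
      linarith
    have hβ1 := B.hβ1
    have hβ := B.hβ
    have hHX : B.H X ≤ l + C' := by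
      have h6 := (abs_le.1 (hH X hX3)).2
      have h8 : l = Real.log (Real.log X) := rfl
      rw [← h8] at h6
      have h7 : B.β * l ≤ 1 * l := mul_le_mul_of_nonneg_right hβ1 (by linarith)
      linarith
    have hHz : B.H (zX X) ≤ 3 * l + C' := by
      have h6 := (abs_le.1 (hH (zX X) hz3)).2
      have h7 : Real.log (Real.log (zX X)) ≤ 3 * l := by
        rw [hzdef, Real.log_exp, Real.log_pow]
        have h8 : Real.log l ≤ l := (Real.log_le_sub_one_of_pos (by linarith)).trans (by linarith)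
        push_cast
        linarith
      have h9 : B.β * Real.log (Real.log (zX X)) ≤ 1 * (3 * l) := by
        refine (mul_le_mul_of_nonneg_left h7 hβ.le).trans ?_
        exact mul_le_mul_of_nonneg_right hβ1 (by linarith)
      linarith
    set M := ⌊2 * l⌋₊ with hM
    have hMl : (M : ℝ) ≤ 2 * l := Nat.floor_le (by linarith)
    have hlog2 : Real.log (X + 2) ≤ 2 * Real.exp l := by
      rw [hexp]
      have h6 : Real.log (X + 2) ≤ Real.log (X ^ 2) := Real.log_le_log (by linarith) (by nlinarith)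
      rw [Real.log_pow] at h6
      exact_mod_cast h6
    have hterm : ∀ T ∈ (B.pb (zX X)).powerset.filter (fun T => T.card ≤ M), ∀ m ∈ range (M + 1),
        errL B.toBase C δ (zX X) X T m ≤
          C * Real.exp (8 * l ^ 2 + 4 * l) * (X * (1 / B.nS T)) * (2 * Real.exp l) * Real.exp (-δ * l ^ 3) *
            Real.exp (2 * l * (l + C')) := by
      intro T hT m hm
      rw [Finset.mem_filter] at hT
      have hTc : (T.card : ℝ) ≤ 2 * l := le_trans (by exact_mod_cast hT.2) hMl
      have hmc : (m : ℝ) ≤ 2 * l := le_trans (by exact_mod_cast Nat.lt_succ_iff.1 (Finset.mem_range.1 hm)) hMl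
      have hnS : (1 : ℝ) ≤ B.nS T := by exact_mod_cast B.nS_pos T
      have hZX : X / B.nS T ≤ X := div_le_self hX0.le hnS
      have hZ0 : 0 < X / B.nS T := by positivity
      unfold errL
      have g1 : (2 : ℝ) ^ (m ^ 2) * ((2 : ℝ) ^ (T.card + 2)) ^ m ≤ Real.exp (8 * l ^ 2 + 4 * l) := by
        rw [← pow_mul, ← pow_add]
        refine (two_pow_le_exp _).trans (Real.exp_le_exp.2 ?_)
        push_cast
        have q1 : (m : ℝ) ^ 2 ≤ (2 * l) ^ 2 := pow_le_pow_left₀ (Nat.cast_nonneg m) hmc 2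
        have q2 : ((T.card : ℝ) + 2) * m ≤ (2 * l + 2) * (2 * l) :=
          mul_le_mul (by linarith) hmc (Nat.cast_nonneg m) (by linarith)
        nlinarith
      have g2 : Real.log (X / B.nS T + 2) ≤ 2 * Real.exp l :=
        (Real.log_le_log (by linarith) (by linarith)).trans hlog2
      have g2' : 0 ≤ Real.log (X / B.nS T + 2) := Real.log_nonneg (by linarith)
      have g3 : zX X ^ (-δ) = Real.exp (-δ * l ^ 3) := by
        rw [hzdef, ← Real.exp_mul, mul_comm]
      have g4 : (1 + B.H (X / B.nS T)) ^ m ≤ Real.exp (2 * l * (l + C')) := by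
        have q1 : B.H (X / B.nS T) ≤ l + C' := (H_mono B.toBase hZX).trans hHX
        have q2 : 1 + B.H (X / B.nS T) ≤ Real.exp (l + C') := by
          have := Real.add_one_le_exp (l + C')
          linarith
        have q3 := H_nonneg B.toBase (X / B.nS T)
        refine (pow_le_pow_left₀ (by linarith) q2 m).trans ?_
        rw [← Real.exp_nat_mul]
        refine Real.exp_le_exp.2 (mul_le_mul_of_nonneg_right hmc ?_)
        linarith
      have g5 : 0 ≤ (1 + B.H (X / B.nS T)) ^ m := by
        have q3 := H_nonneg B.toBase (X / B.nS T)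
        positivity
      rw [g3]
      have e1 : C * 2 ^ (m ^ 2) * ((2 : ℝ) ^ (T.card + 2)) ^ m ≤ C * Real.exp (8 * l ^ 2 + 4 * l) := by
        rw [mul_assoc]
        exact mul_le_mul_of_nonneg_left g1 hC.le
      have e2 : X / (B.nS T : ℝ) = X * (1 / B.nS T) := by ring
      rw [← e2]
      have e3 : C * 2 ^ (m ^ 2) * ((2 : ℝ) ^ (T.card + 2)) ^ m * (X / B.nS T) ≤
          C * Real.exp (8 * l ^ 2 + 4 * l) * (X / B.nS T) := mul_le_mul_of_nonneg_right e1 hZ0.le
      have e4 : C * 2 ^ (m ^ 2) * ((2 : ℝ) ^ (T.card + 2)) ^ m * (X / B.nS T) * Real.log (X / B.nS T + 2) ≤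
          C * Real.exp (8 * l ^ 2 + 4 * l) * (X / B.nS T) * (2 * Real.exp l) :=
        mul_le_mul e3 g2 g2' (by positivity)
      have e5 := mul_le_mul_of_nonneg_right e4 (Real.exp_pos (-δ * l ^ 3)).le
      exact mul_le_mul e5 g4 g5 (by positivity)
    have hM1 : ((M : ℝ) + 1) ≤ Real.exp (2 * l) := by
      have := Real.add_one_le_exp (2 * l)
      linarith
    have hsumT : ∑ T ∈ (B.pb (zX X)).powerset.filter (fun T => T.card ≤ M), (1 / (B.nS T : ℝ)) ≤
        Real.exp (3 * l + C') := by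
      refine (Finset.sum_le_sum_of_subset_of_nonneg (Finset.filter_subset _ _) fun T _ _ => by positivity).trans ?_
      have q1 : ∀ T ∈ (B.pb (zX X)).powerset, (1 / (B.nS T : ℝ)) = ∏ v ∈ T, 1 / (B.N v : ℝ) := by
        intro T _
        unfold Base.nS
        rw [Finset.prod_div_distrib, Finset.prod_const_one]
        push_cast
        rfl
      rw [Finset.sum_congr rfl q1]
      refine (sum_powerset_le fun v _ => by positivity).trans (Real.exp_le_exp.2 hHz)
    have hsum : ∑ T ∈ (B.pb (zX X)).powerset.filter (fun T => T.card ≤ M), ∑ m ∈ range (M + 1),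
        errL B.toBase C δ (zX X) X T m ≤
        Real.exp (3 * l + C') * Real.exp (2 * l) * (C * Real.exp (8 * l ^ 2 + 4 * l) * X * (2 * Real.exp l) *
          Real.exp (-δ * l ^ 3) * Real.exp (2 * l * (l + C'))) := by
      set K := C * Real.exp (8 * l ^ 2 + 4 * l) * X * (2 * Real.exp l) *
          Real.exp (-δ * l ^ 3) * Real.exp (2 * l * (l + C')) with hK
      have hK0 : 0 ≤ K := by positivity
      have q1 : ∀ T ∈ (B.pb (zX X)).powerset.filter (fun T => T.card ≤ M), ∑ m ∈ range (M + 1),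
          errL B.toBase C δ (zX X) X T m ≤ (1 / (B.nS T : ℝ)) * (Real.exp (2 * l) * K) := by
        intro T hT
        refine (Finset.sum_le_sum fun m hm => hterm T hT m hm).trans ?_
        rw [Finset.sum_const, Finset.card_range, nsmul_eq_mul]
        push_cast
        have q2 : C * Real.exp (8 * l ^ 2 + 4 * l) * (X * (1 / (B.nS T : ℝ))) * (2 * Real.exp l) *
            Real.exp (-δ * l ^ 3) * Real.exp (2 * l * (l + C')) = (1 / (B.nS T : ℝ)) * K := by
          rw [hK]
          ring
        rw [q2]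
        have q3 : ((M : ℝ) + 1) * ((1 / (B.nS T : ℝ)) * K) = (1 / (B.nS T : ℝ)) * (((M : ℝ) + 1) * K) := by ring
        rw [q3]
        refine mul_le_mul_of_nonneg_left (mul_le_mul_of_nonneg_right hM1 hK0) (by positivity)
      refine (Finset.sum_le_sum q1).trans ?_
      rw [← Finset.sum_mul, mul_assoc (Real.exp (3 * l + C'))]
      exact mul_le_mul_of_nonneg_right hsumT (by positivity)
    refine hsum.trans ?_
    have hbig : Real.exp (3 * l + C') * Real.exp (2 * l) * (C * Real.exp (8 * l ^ 2 + 4 * l) * X * (2 * Real.exp l) *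
          Real.exp (-δ * l ^ 3) * Real.exp (2 * l * (l + C'))) =
        2 * C * X * Real.exp (-δ * l ^ 3 + 10 * l ^ 2 + (10 + 2 * C') * l + C') := by
      have : -δ * l ^ 3 + 10 * l ^ 2 + (10 + 2 * C') * l + C' =
          (3 * l + C') + (2 * l) + (8 * l ^ 2 + 4 * l) + l + (-δ * l ^ 3) + (2 * l * (l + C')) := by ring
      have h6 : ∀ a b c d e f : ℝ, Real.exp (a + b + c + d + e + f) =
          Real.exp a * Real.exp b * Real.exp c * Real.exp d * Real.exp e * Real.exp f := by
        intro a b c d e f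
        rw [Real.exp_add, Real.exp_add, Real.exp_add, Real.exp_add, Real.exp_add]
      rw [this, h6]
      ring
    rw [hbig]
    have hexp2 : Real.exp (-δ * l ^ 3 + 10 * l ^ 2 + (10 + 2 * C') * l + C') ≤ Real.exp (-l) * Real.exp (-l) := by
      rw [← Real.exp_add]
      refine Real.exp_le_exp.2 ?_
      have : (11 + 2 * C') * l = (10 + 2 * C') * l + l := by ring
      linarith
    have hNX := hN X h3
    have hpow : Real.exp (-l) ≤ (Real.log X) ^ (B.β - 1) := by
      rw [← hexp, ← Real.exp_mul]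
      refine Real.exp_le_exp.2 ?_
      have : l * (B.β - 1) = l * B.β - l := by ring
      have h6 : 0 ≤ l * B.β := by
        have : 0 ≤ l := by linarith
        positivity
      linarith
    calc 2 * C * X * Real.exp (-δ * l ^ 3 + 10 * l ^ 2 + (10 + 2 * C') * l + C')
        ≤ 2 * C * X * (Real.exp (-l) * Real.exp (-l)) := mul_le_mul_of_nonneg_left hexp2 (by positivity)
      _ = (2 * C * Real.exp (-l)) * (X * Real.exp (-l)) := by ring
      _ ≤ (η * c) * (X * Real.exp (-l)) := mul_le_mul_of_nonneg_right h2 (by positivity)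
      _ ≤ (η * c) * (X * (Real.log X) ^ (B.β - 1)) :=
          mul_le_mul_of_nonneg_left (mul_le_mul_of_nonneg_left hpow hX0.le) (by positivity)
      _ = η * (c * X * (Real.log X) ^ (B.β - 1)) := by ring
      _ ≤ η * (B.sb X).card := mul_le_mul_of_nonneg_left hNX hη.le
  obtain ⟨X₀, hX₀⟩ := Filter.eventually_atTop.1 hev
  exact ⟨X₀, hX₀⟩

/-- the tuples of one length, general form -/
theorem main_lenG (B : Base P) {Q : Finset P → Prop} {q : Finset P → (m : ℕ) → (Fin m → P) → ℝ} {er z X : ℝ}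
    {T : Finset P} {m : ℕ} (hlocal : |∑ x ∈ tup B m z (X / B.nS T),
      ((if Q (T ∪ Finset.univ.image x) then 1 else 0) - q T m x)| ≤ er)
    (G : Finset P → ℝ) (hnear : ∀ x ∈ tup B m z (X / B.nS T),
      |q T m x - sinf| ≤ G (T ∪ Finset.univ.image x)) :
    |∑ V ∈ (B.sb (X / B.nS T)).filter (fun V => V.card = m ∧ ∀ v ∈ V, z < (B.N v : ℝ)),
      ((if Q (T ∪ V) then 1 else 0) - sinf)| ≤ er +
      ∑ V ∈ (B.sb (X / B.nS T)).filter (fun V => V.card = m ∧ ∀ v ∈ V, z < (B.N v : ℝ)), G (T ∪ V) := by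
  have h1 := tup_sum B m z (X / B.nS T) fun V => (if Q (T ∪ V) then (1 : ℝ) else 0) - sinf
  have h2 := tup_sum B m z (X / B.nS T) fun V => G (T ∪ V)
  set a := ∑ V ∈ (B.sb (X / B.nS T)).filter (fun V => V.card = m ∧ ∀ v ∈ V, z < (B.N v : ℝ)),
      ((if Q (T ∪ V) then (1 : ℝ) else 0) - sinf) with ha
  set g := ∑ V ∈ (B.sb (X / B.nS T)).filter (fun V => V.card = m ∧ ∀ v ∈ V, z < (B.N v : ℝ)), G (T ∪ V) with hg
  have h3 : |∑ x ∈ tup B m z (X / B.nS T),
      ((if Q (T ∪ Finset.univ.image x) then (1 : ℝ) else 0) - sinf)| ≤ er +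
      ∑ x ∈ tup B m z (X / B.nS T), G (T ∪ Finset.univ.image x) := by
    have h4 : ∑ x ∈ tup B m z (X / B.nS T),
        ((if Q (T ∪ Finset.univ.image x) then (1 : ℝ) else 0) - sinf) =
        ∑ x ∈ tup B m z (X / B.nS T),
          ((if Q (T ∪ Finset.univ.image x) then 1 else 0) - q T m x) +
        ∑ x ∈ tup B m z (X / B.nS T), (q T m x - sinf) := by
      rw [← Finset.sum_add_distrib]
      refine Finset.sum_congr rfl fun x _ => ?_
      ring
    rw [h4]
    refine (abs_add_le _ _).trans (add_le_add hlocal ?_)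
    refine (Finset.abs_sum_le_sum_abs _ _).trans (Finset.sum_le_sum hnear)
  rw [h1, h2, abs_mul, Nat.abs_cast] at h3
  have hm : (1 : ℝ) ≤ (m ! : ℝ) := by exact_mod_cast Nat.factorial_pos m
  have hE : 0 ≤ er := (abs_nonneg _).trans hlocal
  have h5 : (m ! : ℝ) * |a| ≤ (m ! : ℝ) * (er + g) := by
    refine h3.trans ?_
    rw [mul_add]
    have : er ≤ (m ! : ℝ) * er := le_mul_of_one_le_left hE hm
    linarith
  exact le_of_mul_le_mul_left h5 (by linarith)

/-- THE MAIN ESTIMATE, general form -/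
theorem main_gen (B : Sys0 P) {Q : Finset P → Prop} {q : Finset P → (m : ℕ) → (Fin m → P) → ℝ}
    (hq0 : ∀ T m x, 0 ≤ q T m x) (hq1 : ∀ T m x, q T m x ≤ 1) {er : ℝ → Finset P → ℕ → ℝ}
    {ex : ℝ → Finset (Finset P)}
    (hlocal : ∀ X : ℝ, 0 < X → 1 ≤ zX X → ∀ T ⊆ B.pb (zX X), ∀ m, |∑ x ∈ tup B.toBase m (zX X) (X / B.nS T),
      ((if Q (T ∪ Finset.univ.image x) then 1 else 0) - q T m x)| ≤ er X T m)
    (hexM : ∀ X : ℝ, ∀ S ∈ B.sb X, 2 * lX X < S.card → S ∈ ex X)
    (hnear : ∀ {η : ℝ}, 0 < η → ∃ X₀ : ℝ, ∀ X : ℝ, X₀ ≤ X → ∀ T ⊆ B.pb (zX X), ∀ (m : ℕ)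
      (x : Fin m → P), Function.Injective x → (∀ i, zX X < (B.N (x i) : ℝ)) → T ∪ Finset.univ.image x ∈ B.sb X →
      T ∪ Finset.univ.image x ∉ ex X → |q T m x - sinf| ≤ η)
    (hex : ∀ {η : ℝ}, 0 < η → ∃ X₀ : ℝ, ∀ X : ℝ, X₀ ≤ X → ((ex X).card : ℝ) ≤ η * (B.sb X).card)
    (her : ∀ {η : ℝ}, 0 < η → ∃ X₀ : ℝ, ∀ X : ℝ, X₀ ≤ X →
      ∑ T ∈ (B.pb (zX X)).powerset.filter (fun T => T.card ≤ ⌊2 * lX X⌋₊), ∑ m ∈ range (⌊2 * lX X⌋₊ + 1),
        er X T m ≤ η * (B.sb X).card) :
    Tendsto (fun X : ℝ => (((B.sb X).filter fun S => Q S).card : ℝ) / ((B.sb X).card : ℝ)) atTop (𝓝 sinf) := by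
  rw [Metric.tendsto_atTop]
  intro ε hε
  have hη : 0 < ε / 8 := by positivity
  obtain ⟨X1, h1⟩ := hnear hη
  obtain ⟨X2, h2⟩ := hex hη
  obtain ⟨X3, h3⟩ := her hη
  have h4 : ∀ᶠ X : ℝ in atTop, 1 ≤ zX X := by
    filter_upwards [lX_tendsto.eventually_ge_atTop 0] with X hX
    unfold zX
    exact Real.one_le_exp (by positivity)
  obtain ⟨X4, h4⟩ := Filter.eventually_atTop.1 h4
  refine ⟨max (max X1 X2) (max (max X3 X4) 1), fun X hX => ?_⟩
  have g1 : X1 ≤ X := (le_max_left _ _).trans ((le_max_left _ _).trans hX)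
  have g2 : X2 ≤ X := (le_max_right _ _).trans ((le_max_left _ _).trans hX)
  have g3 : X3 ≤ X := (le_max_left _ _).trans ((le_max_left _ _).trans ((le_max_right _ _).trans hX))
  have g4 : X4 ≤ X := (le_max_right _ _).trans ((le_max_left _ _).trans ((le_max_right _ _).trans hX))
  have g5 : 1 ≤ X := (le_max_right _ _).trans ((le_max_right _ _).trans hX)
  have hX0 : 0 < X := by linarith
  set l := lX X with hl
  set z := zX X with hz
  set M := ⌊2 * l⌋₊ with hM
  set η := ε / 8 with hηd
  set G : Finset P → ℝ := fun S => if S ∈ ex X then 1 else η with hG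
  set D : Finset P → ℝ := fun S => (if Q S then 1 else 0) - sinf with hD
  have hD1 : ∀ S, |D S| ≤ 1 := by
    intro S
    have q1 := sinf_nonneg
    have q2 := sinf_le_one
    rw [hD, abs_le]
    simp only
    split_ifs
    · constructor <;> linarith
    · constructor <;> linarith
  have hG0 : ∀ S, 0 ≤ G S := by
    intro S
    rw [hG]
    simp only
    split_ifs
    · exact zero_le_one
    · exact hη.le
  have hGe : ∀ S, S ∈ ex X → G S = 1 := fun S hS => if_pos hS
  -- the union of a set of small primes and a set of large primes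
  have hunion : ∀ T ⊆ B.pb z, ∀ V ∈ (B.sb (X / B.nS T)).filter (fun V => ∀ v ∈ V, z < (B.N v : ℝ)),
      T ∪ V ∈ B.sb X ∧ (T ∪ V).card = T.card + V.card := by
    intro T hT V hV
    rw [Finset.mem_filter, B.mem_sb] at hV
    have hdis : Disjoint T V := by
      rw [Finset.disjoint_left]
      intro v hv hv'
      exact absurd (hV.2 v hv') (not_lt.2 (B.mem_pb.1 (hT hv)))
    refine ⟨?_, Finset.card_union_of_disjoint hdis⟩
    rw [B.mem_sb]
    have q1 : B.nS (T ∪ V) = B.nS T * B.nS V := Finset.prod_union hdis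
    have q2 : (0 : ℝ) < B.nS T := by exact_mod_cast B.nS_pos T
    rw [q1]
    push_cast
    rw [le_div_iff₀ q2] at hV
    linarith [hV.1]
  have hexcM : ∀ S ∈ B.sb X, M < S.card → S ∈ ex X := by
    intro S hS hSM
    exact hexM X S hS (Nat.lt_of_floor_lt hSM)
  -- the sum for one set of small primes
  have hT : ∀ T ∈ (B.pb z).powerset, |∑ V ∈ (B.sb (X / B.nS T)).filter (fun V => ∀ v ∈ V, z < (B.N v : ℝ)), D (T ∪ V)| ≤
      ∑ V ∈ (B.sb (X / B.nS T)).filter (fun V => ∀ v ∈ V, z < (B.N v : ℝ)), G (T ∪ V) +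
      (if T.card ≤ M then ∑ m ∈ range (M + 1), er X T m else 0) := by
    intro T hTp
    rw [Finset.mem_powerset] at hTp
    by_cases hc : T.card ≤ M
    · rw [if_pos hc]
      set W := (B.sb (X / B.nS T)).filter (fun V => ∀ v ∈ V, z < (B.N v : ℝ)) with hW
      have hWm : ∀ m, W.filter (fun V => V.card = m) =
          (B.sb (X / B.nS T)).filter (fun V => V.card = m ∧ ∀ v ∈ V, z < (B.N v : ℝ)) := by
        intro m
        rw [hW, Finset.filter_filter]
        refine Finset.filter_congr fun V _ => ?_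
        exact and_comm
      have hsplit : ∀ F : Finset P → ℝ, ∑ V ∈ W, F V =
          ∑ m ∈ range (M + 1), ∑ V ∈ W.filter (fun V => V.card = m), F V + ∑ V ∈ W.filter (fun V => ¬ V.card ≤ M), F V := by
        intro F
        rw [← Finset.sum_filter_add_sum_filter_not W (fun V => V.card ≤ M)]
        congr 1
        rw [← Finset.sum_fiberwise_of_maps_to (s := W.filter fun V => V.card ≤ M) (t := range (M + 1))
          (g := fun V : Finset P => V.card)]
        · refine Finset.sum_congr rfl fun m hm => ?_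
          rw [Finset.filter_filter]
          refine Finset.sum_congr (Finset.filter_congr fun V _ => ?_) fun _ _ => rfl
          constructor
          · exact fun h => h.2
          · intro h
            exact ⟨by rw [h]; exact Nat.lt_succ_iff.1 (Finset.mem_range.1 hm), h⟩
        · intro V hV
          rw [Finset.mem_filter] at hV
          exact Finset.mem_range.2 (Nat.lt_succ_of_le hV.2)
      rw [hsplit, hsplit]
      have k1 : ∀ m ∈ range (M + 1), |∑ V ∈ W.filter (fun V => V.card = m), D (T ∪ V)| ≤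
          er X T m + ∑ V ∈ W.filter (fun V => V.card = m), G (T ∪ V) := by
        intro m _
        rw [hWm]
        refine main_lenG B.toBase (hlocal X hX0 (h4 X g4) T hTp m) G ?_
        intro x hx
        rw [mem_tup] at hx
        obtain ⟨hinj, hbig, hnorm⟩ := hx
        have hV : Finset.univ.image x ∈ W := by
          rw [hW, Finset.mem_filter, B.mem_sb]
          refine ⟨?_, ?_⟩
          · have : B.nS (Finset.univ.image x) = ∏ i, B.N (x i) := by
              unfold Base.nS
              rw [Finset.prod_image fun i _ j _ h => hinj h]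
            rw [this]
            exact hnorm
          · intro v hv
            obtain ⟨i, -, rfl⟩ := Finset.mem_image.1 hv
            exact hbig i
        by_cases he : T ∪ Finset.univ.image x ∈ ex X
        · rw [hGe _ he]
          have q1 := sinf_nonneg
          have q2 := sinf_le_one
          have q3 := hq0 T m x
          have q4 := hq1 T m x
          rw [abs_le]
          constructor <;> linarith
        · rw [hG]
          simp only
          rw [if_neg he]
          exact h1 X g1 T hTp m x hinj hbig (hunion T hTp _ hV).1 he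
      have k2 : |∑ V ∈ W.filter (fun V => ¬ V.card ≤ M), D (T ∪ V)| ≤
          ∑ V ∈ W.filter (fun V => ¬ V.card ≤ M), G (T ∪ V) := by
        refine (Finset.abs_sum_le_sum_abs _ _).trans (Finset.sum_le_sum fun V hV => ?_)
        rw [Finset.mem_filter] at hV
        have q1 := hunion T hTp V hV.1
        rw [hGe _ (hexcM _ q1.1 (by omega))]
        exact hD1 _
      refine (abs_add_le _ _).trans ((add_le_add ((Finset.abs_sum_le_sum_abs _ _).trans (Finset.sum_le_sum k1)) k2).trans ?_)
      rw [Finset.sum_add_distrib]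
      linarith
    · rw [if_neg hc, add_zero]
      refine (Finset.abs_sum_le_sum_abs _ _).trans (Finset.sum_le_sum fun V hV => ?_)
      have q1 := hunion T hTp V hV
      rw [hGe _ (hexcM _ q1.1 (by omega))]
      exact hD1 _
  -- the sum over all sets
  have htot : |∑ S ∈ B.sb X, D S| ≤ ∑ S ∈ B.sb X, G S + η * (B.sb X).card := by
    rw [sum_split B.toBase z X D, sum_split B.toBase z X G]
    refine (Finset.abs_sum_le_sum_abs _ _).trans ((Finset.sum_le_sum hT).trans ?_)
    rw [Finset.sum_add_distrib]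
    refine add_le_add le_rfl ?_
    rw [← Finset.sum_filter]
    exact h3 X g3
  have hGsum : ∑ S ∈ B.sb X, G S ≤ η * (B.sb X).card + η * (B.sb X).card := by
    have q1 : ∀ S ∈ B.sb X, G S ≤ η + if S ∈ ex X then 1 else 0 := by
      intro S _
      rw [hG]
      simp only
      split_ifs
      · linarith
      · linarith
    refine (Finset.sum_le_sum q1).trans ?_
    rw [Finset.sum_add_distrib, Finset.sum_const, nsmul_eq_mul, mul_comm]
    refine add_le_add le_rfl ?_
    rw [Finset.sum_boole]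
    refine le_trans ?_ (h2 X g2)
    exact_mod_cast Finset.card_le_card fun S hS => (Finset.mem_filter.1 hS).2
  have hN : (0 : ℝ) < (B.sb X).card := by
    have : (∅ : Finset P) ∈ B.sb X := by
      rw [B.mem_sb]
      unfold Base.nS
      rw [Finset.prod_empty]
      push_cast
      exact g5
    exact_mod_cast Finset.card_pos.2 ⟨_, this⟩
  have hDsum : ∑ S ∈ B.sb X, D S = (((B.sb X).filter fun S => Q S).card : ℝ) - sinf * (B.sb X).card := by
    rw [hD]
    simp only
    rw [Finset.sum_sub_distrib, Finset.sum_boole, Finset.sum_const, nsmul_eq_mul, mul_comm]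
  rw [hDsum] at htot
  rw [Real.dist_eq]
  have hfin : (((B.sb X).filter fun S => Q S).card : ℝ) / ((B.sb X).card : ℝ) - sinf =
      ((((B.sb X).filter fun S => Q S).card : ℝ) - sinf * (B.sb X).card) / (B.sb X).card := by
    field_simp
  rw [hfin, abs_div, abs_of_pos hN, div_lt_iff₀ hN]
  refine lt_of_le_of_lt (htot.trans (add_le_add hGsum le_rfl)) ?_
  have : η * (B.sb X).card + η * (B.sb X).card + η * (B.sb X).card = (3 * η) * (B.sb X).card := by ring
  rw [this]
  refine mul_lt_mul_of_pos_right ?_ hN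
  rw [hηd]
  linarith

/-- the mean value over the edges between the large primes -/
noncomputable def qvL (B : Base P) (k : P → Prop) (T : Finset P) (m : ℕ) (x : Fin m → P) : ℝ :=
  (∑ A : TRN.Pairs m → ZMod 2, if Pool.Agent.TRG.f
    (bigE (fun u v : T => B.e u v) (fun i => ((typL B k T (x i)).1, (typL B k T (x i)).2.1)) A)
    (bigRL (fun u v : T => B.e u v) (fun u : T => B.ρ u) (fun u : T => k u) (fun i => typL B k T (x i)) A)
    (Finset.univ.filter (bigK (fun u : T => k u) (fun i => typL B k T (x i)))) ≠ 0 then 1 else 0) /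
    2 ^ Fintype.card (TRN.Pairs m)

theorem qvL_nonneg (B : Base P) (k : P → Prop) (T : Finset P) (m : ℕ) (x : Fin m → P) : 0 ≤ qvL B k T m x := by
  unfold qvL
  refine div_nonneg (Finset.sum_nonneg fun A _ => ?_) (by positivity)
  split_ifs <;> norm_num

theorem qvL_le_one (B : Base P) (k : P → Prop) (T : Finset P) (m : ℕ) (x : Fin m → P) : qvL B k T m x ≤ 1 := by
  unfold qvL
  rw [div_le_one (by positivity)]
  refine (Finset.sum_le_sum (g := fun _ => (1 : ℝ)) fun A _ => ?_).trans ?_
  · split_ifs <;> norm_num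
  · rw [Finset.sum_const, nsmul_eq_mul, mul_one, Finset.card_univ, Fintype.card_fun, ZMod.card]
    push_cast
    exact le_rfl

/-- the local statement -/
theorem main_localL (B : SysL P) : ∃ C' δ' : ℝ, 0 < C' ∧ 0 < δ' ∧ ∀ (m : ℕ) (z X : ℝ), 1 ≤ z → 0 < X →
    ∀ T ⊆ B.pb z, |∑ x ∈ tup B.toBase m z (X / B.nS T),
      ((if OddL B.toBase B.k (T ∪ Finset.univ.image x) then 1 else 0) - qvL B.toBase B.k T m x)| ≤
        errL B.toBase C' δ' z X T m := by
  obtain ⟨C', δ', hC', hδ', h⟩ := fourier B.toSys0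
  refine ⟨C', δ', hC', hδ', fun m z X hz hX T hT => ?_⟩
  have hZ : 0 < X / B.nS T := div_pos hX (by exact_mod_cast B.nS_pos T)
  have h1 := h m z (X / B.nS T) hz hZ ((T → ZMod 2) × ZMod 2 × Bool) (typL B.toBase B.k T)
    (fun g A => if Pool.Agent.TRG.f (bigE (fun u v : T => B.e u v) (fun i => ((g i).1, (g i).2.1)) A)
      (bigRL (fun u v : T => B.e u v) (fun u : T => B.ρ u) (fun u : T => B.k u) g A)
      (Finset.univ.filter (bigK (fun u : T => B.k u) g)) ≠ 0 then 1 else 0)
    (fun g A => by split_ifs <;> norm_num)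
  have h2 : (Fintype.card ((T → ZMod 2) × ZMod 2 × Bool) : ℝ) = 2 ^ (T.card + 2) := by
    rw [Fintype.card_prod, Fintype.card_prod, Fintype.card_fun, ZMod.card, Fintype.card_coe, Fintype.card_bool]
    push_cast
    ring
  rw [h2] at h1
  refine le_trans (le_of_eq ?_) h1
  congr 1
  refine Finset.sum_congr rfl fun x hx => ?_
  rw [mem_tup] at hx
  congr 1
  have h3 : ∀ i, x i ∉ T := by
    intro i hi
    have h4 := B.mem_pb.1 (hT hi)
    exact absurd (hx.2.1 i) (not_lt.2 h4)
  exact ifd (f_bigL B.toBase B.k T x hx.1 h3) _ _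

/-- the exceptional sets -/
noncomputable def excL (B : SysL P) (X : ℝ) : Finset (Finset P) :=
  (B.sb X).filter fun S => 2 * lX X < S.card ∨
    ((S.filter fun v => zX X < (B.N v : ℝ) ∧ B.k v).card : ℝ) ≤ B.βs / 2 * lX X ∨
    B.βs / 4 * lX X < ((S.filter fun v => (B.N v : ℝ) ≤ zX X).card : ℝ) ∨
    (∀ v ∈ S, zX X < (B.N v : ℝ) → B.k v) ∨
    ∃ A ⊆ S.filter (fun v => (B.N v : ℝ) ≤ zX X ∧ B.k v), A.Nonempty ∧
      ∀ v ∈ S, zX X < (B.N v : ℝ) → B.k v → B.xi A 0 v = 1

/-- the mean value for the sets which are not exceptional -/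
theorem qvL_near (B : SysL P) {η : ℝ} (hη : 0 < η) : ∃ X₀ : ℝ, ∀ X : ℝ, X₀ ≤ X → ∀ T ⊆ B.pb (zX X), ∀ (m : ℕ)
    (x : Fin m → P), Function.Injective x → (∀ i, zX X < (B.N (x i) : ℝ)) → T ∪ Finset.univ.image x ∈ B.sb X →
    T ∪ Finset.univ.image x ∉ excL B X → |qvL B.toBase B.k T m x - sinf| ≤ η := by
  obtain ⟨K, hK⟩ := (Metric.tendsto_atTop.1 sn_tendsto) η hη
  have hl2 : Tendsto (fun X => B.βs / 4 * lX X) atTop atTop := lX_tendsto.const_mul_atTop (by linarith [B.hβs])
  obtain ⟨X₀, hX₀⟩ := Filter.eventually_atTop.1 (hl2.eventually_ge_atTop (K : ℝ))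
  refine ⟨X₀, fun X hX T hT m x hinj hbig hsb hexc => ?_⟩
  have hxT : ∀ i, x i ∉ T := by
    intro i hi
    exact absurd (hbig i) (not_lt.2 (B.mem_pb.1 (hT hi)))
  have hsmall : (T ∪ Finset.univ.image x).filter (fun v => (B.N v : ℝ) ≤ zX X) = T := by
    ext v
    rw [Finset.mem_filter, Finset.mem_union]
    constructor
    · rintro ⟨h1 | h1, h2⟩
      · exact h1
      · obtain ⟨i, -, rfl⟩ := Finset.mem_image.1 h1
        exact absurd (hbig i) (not_lt.2 h2)
    · intro h
      exact ⟨Or.inl h, B.mem_pb.1 (hT h)⟩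
  have hlarge : ∀ v ∈ T ∪ Finset.univ.image x, zX X < (B.N v : ℝ) → ∃ i, x i = v := by
    intro v hv h2
    rcases Finset.mem_union.1 hv with h1 | h1
    · exact absurd h2 (not_lt.2 (B.mem_pb.1 (hT h1)))
    · obtain ⟨i, -, h⟩ := Finset.mem_image.1 h1
      exact ⟨i, h⟩
  have hlk : (T ∪ Finset.univ.image x).filter (fun v => zX X < (B.N v : ℝ) ∧ B.k v) =
      (Finset.univ.filter fun i => (typL B.toBase B.k T (x i)).2.2 = true).image x := by
    ext v
    rw [Finset.mem_filter, Finset.mem_image]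
    constructor
    · rintro ⟨h1, h2, h3⟩
      obtain ⟨i, rfl⟩ := hlarge v h1 h2
      exact ⟨i, Finset.mem_filter.2 ⟨Finset.mem_univ _, decide_eq_true h3⟩, rfl⟩
    · rintro ⟨i, hi, rfl⟩
      exact ⟨Finset.mem_union_right _ (Finset.mem_image_of_mem _ (Finset.mem_univ _)), hbig i,
        of_decide_eq_true (Finset.mem_filter.1 hi).2⟩
  unfold excL at hexc
  rw [Finset.mem_filter, not_and] at hexc
  have h1 := hexc hsb
  rw [not_or, not_or, not_or, not_or, hsmall, hlk, Finset.card_image_of_injective _ hinj, not_lt, not_le, not_lt] at h1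
  obtain ⟨-, h2, h3, h4, h5⟩ := h1
  obtain ⟨n, hn1, hn2⟩ := count_bigL (T := T) (m := m) (fun u v : T => B.e u v) (fun u v => B.sym u v)
    (fun u : T => B.ρ u) (fun u : T => B.k u) (fun i => typL B.toBase B.k T (x i)) (by
      push Not at h4
      obtain ⟨v, hv, hz, hk⟩ := h4
      obtain ⟨i, rfl⟩ := hlarge v hv hz
      exact ⟨i, decide_eq_false hk⟩) (by
      intro A hA hAk
      by_contra hcon
      push Not at hcon
      apply h5
      refine ⟨A.map (Function.Embedding.subtype _), ?_, Finset.map_nonempty.2 hA, ?_⟩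
      · intro v hv
        obtain ⟨u, hu, rfl⟩ := Finset.mem_map.1 hv
        exact Finset.mem_filter.2 ⟨Finset.mem_union_left _ u.2, B.mem_pb.1 (hT u.2), hAk u hu⟩
      · intro v hv hzv hkv
        obtain ⟨i, rfl⟩ := hlarge v hv hzv
        unfold Base.xi
        rw [if_pos]
        rw [Finset.sum_map, zero_mul, add_zero]
        exact hcon i (decide_eq_true hkv))
  have hTk : (Finset.univ.filter fun u : T => B.k u).card ≤ T.card := by
    refine (Finset.card_filter_le _ _).trans ?_
    rw [Finset.card_univ, Fintype.card_coe]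
  have hkK : K ≤ n := by
    have h5 := hX₀ X hX
    have h6 : ((Finset.univ.filter fun i => (typL B.toBase B.k T (x i)).2.2 = true).card : ℝ) ≤ n + T.card := by
      exact_mod_cast hn1.trans (Nat.add_le_add_left hTk n)
    have h7 : (K : ℝ) ≤ n := by
      have : B.βs / 2 * lX X = B.βs / 4 * lX X + B.βs / 4 * lX X := by ring
      linarith
    exact_mod_cast h7
  have h8 := hK n hkK
  rw [Real.dist_eq] at h8
  have h9 : qvL B.toBase B.k T m x = TRN.sn n := by
    unfold qvL
    rw [div_eq_iff (by positivity), ← hn2, Finset.sum_boole]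
    exact congrArg Nat.cast (cfd fun _ _ => not_congr (by rw [f_dec]))
  rw [h9]
  exact h8.le

/-- the exceptional sets are few -/
theorem excL_small (B : SysL P) {η : ℝ} (hη : 0 < η) : ∃ X₀ : ℝ, ∀ X : ℝ, X₀ ≤ X →
    ((excL B X).card : ℝ) ≤ η * (B.sb X).card := by
  obtain ⟨c1, X1, h1, H1⟩ := card_many B.toSys0
  obtain ⟨c2, X2, h2, H2⟩ := card_few_large_split B
  obtain ⟨c3, X3, h3, H3⟩ := card_many_small' B
  obtain ⟨c4, X4, h4, H4⟩ := card_dep_split B
  obtain ⟨c5, X5, h5, H5⟩ := card_no_inert B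
  obtain ⟨c0, X0, h0, H0⟩ := card_sb_ge B.toSys0
  have hη' : 0 < c0 * η / 5 := by positivity
  have key : ∀ᶠ X : ℝ in atTop, ((excL B X).card : ℝ) ≤ η * (B.sb X).card := by
    filter_upwards [d8b_small h1 hη', d8b_small h2 hη', d8b_small h3 hη', d8b_small h4 hη', d8b_small h5 hη',
      eventually_ge_atTop X0, eventually_ge_atTop X1, eventually_ge_atTop X2, eventually_ge_atTop X3,
      eventually_ge_atTop X4, eventually_ge_atTop X5, eventually_gt_atTop (Real.exp 1)]
      with X e1 e2 e3 e4 e5 g0 g1 g2 g3 g4 g5 gX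
    have hXpos : 0 < X := (Real.exp_pos 1).trans gX
    have hlog : 1 < Real.log X := by
      rw [Real.lt_log_iff_exp_lt hXpos]
      exact gX
    have hlog0 : 0 < Real.log X := by linarith
    have hT : 0 ≤ X * (Real.log X) ^ (B.β - 1) :=
      mul_nonneg hXpos.le (Real.rpow_nonneg hlog0.le _)
    have hone : ∀ {c n : ℝ}, n ≤ X * (Real.log X) ^ (B.β - 1 - c) → (Real.log X) ^ (-c) ≤ c0 * η / 5 →
        n ≤ c0 * η / 5 * (X * (Real.log X) ^ (B.β - 1)) := by
      intro c n hn hc
      refine hn.trans ?_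
      rw [sub_eq_add_neg (B.β - 1) c, Real.rpow_add hlog0]
      calc X * ((Real.log X) ^ (B.β - 1) * (Real.log X) ^ (-c)) =
          (Real.log X) ^ (-c) * (X * (Real.log X) ^ (B.β - 1)) := by ring
        _ ≤ _ := mul_le_mul_of_nonneg_right hc hT
    set E1 := (B.sb X).filter fun S => 2 * lX X < S.card with hE1
    set E2 := (B.sb X).filter fun S => ((S.filter fun v => zX X < (B.N v : ℝ) ∧ B.k v).card : ℝ) ≤ B.βs / 2 * lX X
      with hE2
    set E3 := (B.sb X).filter fun S => B.βs / 4 * lX X < ((S.filter fun v => (B.N v : ℝ) ≤ zX X).card : ℝ) with hE3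
    set E4 := (B.sb X).filter fun S => (S.card : ℝ) ≤ 2 * lX X ∧
      ∃ A ⊆ S.filter (fun v => (B.N v : ℝ) ≤ zX X ∧ B.k v), A.Nonempty ∧
        ∀ v ∈ S, zX X < (B.N v : ℝ) → B.k v → B.xi A 0 v = 1 with hE4
    set E5 := (B.sb X).filter fun S => ∀ v ∈ S, zX X < (B.N v : ℝ) → B.k v with hE5
    have hsub : excL B X ⊆ (((E1 ∪ E2) ∪ E3) ∪ E4) ∪ E5 := by
      intro S hS
      unfold excL at hS
      rw [Finset.mem_filter] at hS
      obtain ⟨hS0, hS⟩ := hS
      rw [Finset.mem_union, Finset.mem_union, Finset.mem_union, Finset.mem_union, hE1, hE2, hE3, hE4, hE5,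
        Finset.mem_filter, Finset.mem_filter, Finset.mem_filter, Finset.mem_filter, Finset.mem_filter]
      rcases hS with hS | hS | hS | hS | hS
      · exact Or.inl (Or.inl (Or.inl (Or.inl ⟨hS0, hS⟩)))
      · exact Or.inl (Or.inl (Or.inl (Or.inr ⟨hS0, hS⟩)))
      · exact Or.inl (Or.inl (Or.inr ⟨hS0, hS⟩))
      · exact Or.inr ⟨hS0, hS⟩
      · by_cases hc : (S.card : ℝ) ≤ 2 * lX X
        · exact Or.inl (Or.inr ⟨hS0, hc, hS⟩)
        · exact Or.inl (Or.inl (Or.inl (Or.inl ⟨hS0, not_le.1 hc⟩)))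
    have hcard : (excL B X).card ≤ E1.card + E2.card + E3.card + E4.card + E5.card := by
      refine (Finset.card_le_card hsub).trans ((Finset.card_union_le _ _).trans (Nat.add_le_add_right ?_ _))
      refine (Finset.card_union_le _ _).trans (Nat.add_le_add_right ?_ _)
      refine (Finset.card_union_le _ _).trans (Nat.add_le_add_right ?_ _)
      exact Finset.card_union_le _ _
    have hcard' : ((excL B X).card : ℝ) ≤ E1.card + E2.card + E3.card + E4.card + E5.card := by
      exact_mod_cast hcard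
    have b1 := hone (H1 X g1) e1
    have b2 := hone (H2 X g2) e2
    have b3 := hone (H3 X g3) e3
    have b4 := hone (H4 X g4) e4
    have b5 := hone (H5 X g5) e5
    have b0 := mul_le_mul_of_nonneg_left (H0 X g0) hη.le
    calc ((excL B X).card : ℝ) ≤ 5 * (c0 * η / 5 * (X * (Real.log X) ^ (B.β - 1))) := by linarith
      _ = η * (c0 * X * (Real.log X) ^ (B.β - 1)) := by ring
      _ ≤ _ := b0
  exact (eventually_atTop.1 key)

/-- [DNL-D8] THE MAIN ESTIMATE -/
theorem main_absL (B : SysL P) : Tendsto (fun X : ℝ =>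
    (((B.sb X).filter fun S => OddL B.toBase B.k S).card : ℝ) / ((B.sb X).card : ℝ)) atTop (𝓝 sinf) := by
  obtain ⟨C, δ, hC, hδ, hlocal⟩ := main_localL B
  exact main_gen B.toSys0 (Q := fun S => OddL B.toBase B.k S) (q := fun T m x => qvL B.toBase B.k T m x)
    (fun T m x => qvL_nonneg B.toBase B.k T m x) (fun T m x => qvL_le_one B.toBase B.k T m x)
    (er := fun X T m => errL B.toBase C δ (zX X) X T m) (ex := fun X => excL B X)
    (fun X hX hz T hT m => hlocal m (zX X) X hz hX T hT)
    (fun X S hS h => by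
      unfold excL
      rw [Finset.mem_filter]
      exact ⟨hS, Or.inl h⟩)
    (fun hη => qvL_near B hη) (fun hη => excL_small B hη) (fun hη => errL_small B.toSys0 hC hδ hη)

end TRQ
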