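import Pool.Agent.TRW.FN

/-! [DNL-FM] good and strict curves over `M = L(√-7)` are the same -/

set_option autoImplicit false

open NumberField IsDedekindDomain Filter Topology
open scoped Classical

namespace XTB

open TRB XTR

/-- over `L(√-7)` good curves are strict -/
theorem strict_of_good {L : Type} [Field L] [NumberField L] (hL : IsTotallyReal L)
    (h7 : (Ideal.span {(7 : 𝓞 L)}).IsPrime) {M : Type} [Field M] [NumberField M] [Algebra L M]
    (hM : Module.finrank L M = 2) (hr : ∃ r : M, r ^ 2 = -7) (hodd : Odd (classNumber M))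
    {E : WeierstrassCurve M} (hE : GoodCurve E) : StrictCurve E := by
  obtain ⟨D0⟩ := Real7.dat h7 hM hr
  obtain ⟨D, hD⟩ : ∃ D : TR.Dat L M, D = D0.toTR hodd := ⟨_, rfl⟩
  refine ⟨hE.j_eq, hE.two, fun P h7P => ?_⟩
  by_cases hP : XTS.GoodReduction E P
  · exact Or.inl hP
  · right
    have h2 : (2 : 𝓞 M) ∉ P.asIdeal := fun h => hP (hE.two P h)
    have hg := TRN.n10_good D h2 h7P ((hE.good P h7P).resolve_left hP)
    intro u
    have h1 := hg.unit u
    unfold TT.qr at h1
    by_contra hcon
    rw [if_neg fun h => P.isPrime.ne_top (Ideal.eq_top_of_isUnit_mem _ h u.isUnit), if_neg hcon] at h1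
    norm_num at h1

/-- the density theorem over `L(√-7)` for strict curves -/
theorem density_sqrt {L : Type} [Field L] [NumberField L] (hL : Admissible L) {M : Type} [Field M] [NumberField M]
    [Algebra L M] (hM : Module.finrank L M = 2) (hr : ∃ r : M, r ^ 2 = -7) :
    (∀ X : ℕ, (strictFamily M X fun _ => True).Finite) ∧
    Tendsto (fun X : ℕ => (strictFamily M X fun _ => True).ncard) atTop atTop ∧
    Tendsto (fun X : ℕ => ((strictFamily M X FiniteSha).ncard : ℝ) / ((strictFamily M X fun _ => True).ncard : ℝ))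
      atTop (𝓝 (∏' k : ℕ, (1 - 1 / 2 ^ (2 * k + 1)))) := by
  have hodd := Admissible.sqrt_odd hL hM hr
  have h1 : ∀ (X : ℕ) (Q : WeierstrassCurve M → Prop), strictFamily M X Q = normFamily M X Q := by
    intro X Q
    ext c
    constructor
    · rintro ⟨E, h1, h2, h3⟩
      exact ⟨E, h1, h2.goodCurve, h3⟩
    · rintro ⟨E, h1, h2, h3⟩
      exact ⟨E, h1, strict_of_good hL.real hL.inert hM hr hodd h2, h3⟩
  simp only [h1]
  exact density_norm hL.real hL.inert hM hr hodd

end XTB
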