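import Pool.Agent.TRW.FNb
import Pool.Agent.TRW.D8

/-! [DNL-FN] the density theorem over `L` -/

set_option autoImplicit false

open NumberField IsDedekindDomain Filter Topology
open scoped Classical

namespace XTB

open TRB XTR

section
variable {L M : Type} [Field L] [NumberField L] [Field M] [NumberField M] [Algebra L M]
  [IsTotallyReal L]

/-- to each set of good primes belong exactly two classes of strict curves -/
theorem strict_family (hL : Admissible L) (D : TRB.Dat L M) (hodd : Odd (classNumber M))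
    {n : HeightOneSpectrum (𝓞 L) → 𝓞 L} (hn : TRQ.GenL n) (B : TRQ.Base (TRQ.GQ L))
    (hN : ∀ v, B.N v = Ideal.absNorm v.1.asIdeal) (X : ℕ) (Q : WeierstrassCurve L → Prop)
    (T : Finset (TRQ.GQ L) → Prop)
    (hT : ∀ (S : Finset (TRQ.GQ L)) (E : WeierstrassCurve L), StrictCurve E →
      (∀ v, v ∈ S.map (gqEmb L) ↔ (7 : 𝓞 L) ∉ v.asIdeal ∧ ¬ XTS.GoodReduction E v) → (Q E ↔ T S)) :
    (strictFamily L X Q).Finite ∧
      (strictFamily L X Q).ncard = 2 * ((B.sb (X : ℝ)).filter fun S => T S).card := by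
  obtain ⟨𝒮, h𝒮⟩ : ∃ 𝒮 : Finset (Finset (TRQ.GQ L)), 𝒮 = (B.sb (X : ℝ)).filter fun S => T S := ⟨_, rfl⟩
  rw [← h𝒮]
  have hex : ∀ S : Finset (TRQ.GQ L), ∃ E E' : WeierstrassCurve L, StrictCurve E ∧ StrictCurve E' ∧
      (∀ v, v ∈ S.map (gqEmb L) ↔ (7 : 𝓞 L) ∉ v.asIdeal ∧ ¬ XTS.GoodReduction E v) ∧
      (∀ v, v ∈ S.map (gqEmb L) ↔ (7 : 𝓞 L) ∉ v.asIdeal ∧ ¬ XTS.GoodReduction E' v) ∧
      (¬ ∃ C : WeierstrassCurve.VariableChange L, E' = C • E) ∧
      ∀ F : WeierstrassCurve L, StrictCurve F →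
        (∀ v, v ∈ S.map (gqEmb L) ↔ (7 : 𝓞 L) ∉ v.asIdeal ∧ ¬ XTS.GoodReduction F v) →
        ∃ C : WeierstrassCurve.VariableChange L, F = C • E ∨ F = C • E' := by
    intro S
    refine exists_two_curves hL fun v hv => ?_
    obtain ⟨w, -, rfl⟩ := Finset.mem_map.1 hv
    exact w.2
  choose E E' hE hE' hbad hbad' hne huniq using hex
  have hnS : ∀ (S : Finset (TRQ.GQ L)) (E : WeierstrassCurve L),
      (∀ v, v ∈ S.map (gqEmb L) ↔ (7 : 𝓞 L) ∉ v.asIdeal ∧ ¬ XTS.GoodReduction E v) → badNorm E = B.nS S := by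
    intro S E hS
    rw [badNorm_eq hS, Finset.prod_map]
    unfold TRQ.Base.nS
    exact Finset.prod_congr rfl fun v _ => (hN v).symm
  have hinv : ∀ (S S' : Finset (TRQ.GQ L)) (E E' : WeierstrassCurve L),
      (∀ v, v ∈ S.map (gqEmb L) ↔ (7 : 𝓞 L) ∉ v.asIdeal ∧ ¬ XTS.GoodReduction E v) →
      (∀ v, v ∈ S'.map (gqEmb L) ↔ (7 : 𝓞 L) ∉ v.asIdeal ∧ ¬ XTS.GoodReduction E' v) →
      (∃ C : WeierstrassCurve.VariableChange L, C • E' = E) → S = S' := by
    rintro S S' E E' h1 h2 ⟨C, hC⟩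
    apply Finset.map_injective (gqEmb L)
    ext v
    rw [h1, h2, ← hC, TRN.good_smul]
  obtain ⟨cl, hcl⟩ : ∃ cl : WeierstrassCurve L →
      MulAction.orbitRel.Quotient (WeierstrassCurve.VariableChange L) (WeierstrassCurve L),
      ∀ E, cl E = Quotient.mk _ E := ⟨fun E => Quotient.mk _ E, fun _ => rfl⟩
  have hcl' : ∀ E E', cl E = cl E' ↔ ∃ C : WeierstrassCurve.VariableChange L, C • E' = E := by
    intro E E'
    rw [hcl, hcl]
    constructor
    · intro h
      exact Quotient.exact h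
    · intro h
      exact Quotient.sound h
  have hset : strictFamily L X Q = ↑(𝒮.image (fun S => cl (E S)) ∪ 𝒮.image fun S => cl (E' S)) := by
    ext c
    rw [Finset.mem_coe, Finset.mem_union, Finset.mem_image, Finset.mem_image]
    constructor
    · rintro ⟨F, hc, hF, hX, hQF⟩
      obtain ⟨S, hS, -⟩ := strict_form D hodd n hn hF
      have hS𝒮 : S ∈ 𝒮 := by
        rw [h𝒮, Finset.mem_filter, TRQ.Base.mem_sb, ← hnS S F hS]
        exact ⟨by exact_mod_cast hX, (hT S F hF hS).1 hQF⟩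
      obtain ⟨C, h⟩ := huniq S F hF hS
      rcases h with h | h
      · refine Or.inl ⟨S, hS𝒮, ?_⟩
        rw [← hc, ← hcl]
        exact ((hcl' _ _).2 ⟨C, h.symm⟩).symm
      · refine Or.inr ⟨S, hS𝒮, ?_⟩
        rw [← hc, ← hcl]
        exact ((hcl' _ _).2 ⟨C, h.symm⟩).symm
    · rintro (⟨S, hS, rfl⟩ | ⟨S, hS, rfl⟩)
      · rw [h𝒮, Finset.mem_filter, TRQ.Base.mem_sb] at hS
        refine ⟨E S, (hcl _).symm, hE S, ?_, (hT S (E S) (hE S) (hbad S)).2 hS.2⟩
        rw [hnS S (E S) (hbad S)]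
        exact_mod_cast hS.1
      · rw [h𝒮, Finset.mem_filter, TRQ.Base.mem_sb] at hS
        refine ⟨E' S, (hcl _).symm, hE' S, ?_, (hT S (E' S) (hE' S) (hbad' S)).2 hS.2⟩
        rw [hnS S (E' S) (hbad' S)]
        exact_mod_cast hS.1
  have hinj : Set.InjOn (fun S => cl (E S)) (𝒮 : Set (Finset (TRQ.GQ L))) := by
    intro S _ S' _ h
    exact hinv S S' _ _ (hbad S) (hbad S') ((hcl' _ _).1 h)
  have hinj' : Set.InjOn (fun S => cl (E' S)) (𝒮 : Set (Finset (TRQ.GQ L))) := by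
    intro S _ S' _ h
    exact hinv S S' _ _ (hbad' S) (hbad' S') ((hcl' _ _).1 h)
  have hdisj : Disjoint (𝒮.image fun S => cl (E S)) (𝒮.image fun S => cl (E' S)) := by
    rw [Finset.disjoint_left]
    intro c h1 h2
    obtain ⟨S, -, h3⟩ := Finset.mem_image.1 h1
    obtain ⟨S', -, h4⟩ := Finset.mem_image.1 h2
    obtain ⟨C, hC⟩ := (hcl' _ _).1 (h4.trans h3.symm)
    have h5 := hinv S' S _ _ (hbad' S') (hbad S) ⟨C, hC⟩
    subst h5
    exact hne S' ⟨C, hC.symm⟩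
  rw [hset]
  refine ⟨Finset.finite_toSet _, ?_⟩
  rw [Set.ncard_coe_finset, Finset.card_union_of_disjoint hdisj, Finset.card_image_of_injOn hinj,
    Finset.card_image_of_injOn hinj']
  ring

end

/-- **[DNL]** the density theorem over `L` -/
theorem density_real {L : Type} [Field L] [NumberField L] (hL : Admissible L) :
    (∀ X : ℕ, (strictFamily L X fun _ => True).Finite) ∧
    Tendsto (fun X : ℕ => (strictFamily L X fun _ => True).ncard) atTop atTop ∧
    Tendsto (fun X : ℕ => ((strictFamily L X FiniteSha).ncard : ℝ) / ((strictFamily L X fun _ => True).ncard : ℝ))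
      atTop (𝓝 (∏' k : ℕ, (1 - 1 / 2 ^ (2 * k + 1)))) := by
  have : IsTotallyReal L := hL.real
  obtain ⟨M, _, _, _, r, hr, gen⟩ := TR.exists_sqrt L
  have hM : Module.finrank L M = 2 := (hL.good.dat hL.inert M r hr gen).finrank_eq_two
  have hodd := Admissible.sqrt_odd hL hM ⟨r, hr⟩
  obtain ⟨D⟩ := Real7.dat hL.inert hM ⟨r, hr⟩
  obtain ⟨n, hn⟩ : ∃ n : HeightOneSpectrum (𝓞 L) → 𝓞 L, TRQ.GenL n := by
    have h1 : ∀ v : HeightOneSpectrum (𝓞 L), TRG.Good v ∧ (7 : 𝓞 L) ∉ v.asIdeal →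
        ∃ a : 𝓞 L, ∃ k : ℕ, Odd k ∧ Ideal.span {a} = v.asIdeal ^ k := by
      intro v hv
      obtain ⟨k, t, c, h⟩ := TRG.exists_AdmG_one (D.toTR hodd) hv.1.two hv.2
      refine ⟨t ^ 2 + 4 * c, k, h.odd, ?_⟩
      rw [h.spn, Finset.prod_singleton]
    choose! n hn using h1
    exact ⟨n, fun v => hn v.1 v.2⟩
  obtain ⟨B, hB, hk⟩ := TRQ.exists_sysL (D.toTR hodd) hodd n hn
  obtain ⟨B₀, hB₀⟩ : ∃ B₀ : TRQ.Base (TRQ.GQ L), B₀ = B.toBase := ⟨_, rfl⟩
  have hB₁ : B₀ = TRQ.baseL (D.toTR hodd) n hn := hB₀.trans hB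
  have hN : ∀ v, B₀.N v = Ideal.absNorm v.1.asIdeal := fun v => by rw [hB₁]; rfl
  have hTrue := fun X => strict_family hL D hodd hn B₀ hN X (fun _ => True)
    (fun _ => True) (fun _ _ _ _ => Iff.rfl)
  have hFin := fun X => strict_family hL D hodd hn B₀ hN X FiniteSha
    (fun S => TRQ.OddL B₀ TRQ.kL S) (by
      intro S E hE hS
      obtain ⟨S', h1, h2⟩ := strict_form D hodd n hn hE
      have h3 : S' = S := by
        apply Finset.map_injective (gqEmb L)
        ext v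
        rw [h1, hS]
      rw [h2, h3, hB₁])
  have hc1 : ∀ X : ℕ, (strictFamily L X fun _ => True).ncard = 2 * (B₀.sb X).card := by
    intro X
    rw [(hTrue X).2]
    congr 2
    ext S
    simp only [Finset.mem_filter, and_true]
  refine ⟨fun X => (hTrue X).1, ?_, ?_⟩
  · refine tendsto_atTop_mono (fun X => ?_) (TRQ.card_sb_tendsto B.toSys0)
    rw [hc1, hB₀]
    omega
  · have h1 := TRQ.main_absL B
    unfold TRQ.sinf at h1
    refine (h1.comp tendsto_natCast_atTop_atTop).congr fun X => ?_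
    rw [hc1, (hFin X).2, hB₀, ← hk]
    push_cast
    rw [mul_div_mul_left _ _ two_ne_zero]
    rfl

end XTB
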