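import Pool.Agent.TRG.Graph

/-! [DNL-LKa] reduced Laplacians over `ZMod 2` with an involution -/

set_option autoImplicit false

open scoped Classical

namespace TRQ

open Finset Matrix

section
variable {ι : Type}

/-- the equations of the kernel of the reduced Laplacian -/
def lkEq (a : ι → ι → ZMod 2) (b : ι → ZMod 2) (T : Finset ι) (x : ι → ZMod 2) : Prop :=
  ∀ P ∈ T, b P * x P + ∑ R ∈ T, a P R * (x P + x R) = 0

theorem lk_mulVec (a : ι → ι → ZMod 2) (b : ι → ZMod 2) (T : Finset ι) (x : ι → ZMod 2) (P : T) :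
    (Pool.Agent.TRG.lap a b T *ᵥ fun Q : T => x Q) P = b P * x P + ∑ R ∈ T, a P R * (x P + x R) := by
  have h1 : ∀ z : ZMod 2, z + z = 0 := by decide
  have h2 : (Pool.Agent.TRG.lap a b T *ᵥ fun Q : T => x Q) P =
      ∑ Q : T, (if P = Q then b P + ∑ R ∈ T.erase P, a P R else a P Q) * x Q := rfl
  have h3 : ∑ Q : T, (if P = Q then b P + ∑ R ∈ T.erase P, a P R else a P Q) * x Q =
      ∑ Q ∈ T, (if P.1 = Q then b P + ∑ R ∈ T.erase P, a P R else a P Q) * x Q := by
    rw [← Finset.sum_coe_sort T (fun Q => (if P.1 = Q then b P + ∑ R ∈ T.erase P, a P R else a P Q) * x Q)]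
    refine Finset.sum_congr rfl fun Q _ => ?_
    by_cases h : P = Q
    · rw [if_pos h, if_pos (congrArg Subtype.val h)]
    · rw [if_neg h, if_neg (fun h' => h (Subtype.ext h'))]
  rw [h2, h3, ← Finset.add_sum_erase T _ P.2, if_pos rfl, ← Finset.add_sum_erase T _ P.2, h1, mul_zero, zero_add,
    add_mul, Finset.sum_mul, add_assoc, ← Finset.sum_add_distrib]
  congr 1
  refine Finset.sum_congr rfl fun R hR => ?_
  rw [if_neg (Finset.ne_of_mem_erase hR).symm, mul_add]

theorem lk_iff (a : ι → ι → ZMod 2) (b : ι → ZMod 2) (T : Finset ι) :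
    Pool.Agent.TRG.f a b T ≠ 0 ↔ ∀ x : ι → ZMod 2, lkEq a b T x → ∀ P ∈ T, x P = 0 := by
  unfold Pool.Agent.TRG.f
  rw [Ne, ← Matrix.exists_mulVec_eq_zero_iff, not_exists]
  constructor
  · intro h x hx P hP
    by_contra hne
    apply h (fun Q : T => x Q)
    refine ⟨fun h0 => hne (congrFun h0 ⟨P, hP⟩), ?_⟩
    funext Q
    rw [lk_mulVec, hx Q.1 Q.2]
    rfl
  · rintro h v ⟨hv, hv0⟩
    apply hv
    have h1 : (fun Q : T => (fun P : ι => if h : P ∈ T then v ⟨P, h⟩ else 0) Q.1) = v := by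
      funext Q
      exact dif_pos Q.2
    have h2 := h (fun P : ι => if h : P ∈ T then v ⟨P, h⟩ else 0) (by
      intro P hP
      have h3 := lk_mulVec a b T (fun P : ι => if h : P ∈ T then v ⟨P, h⟩ else 0) ⟨P, hP⟩
      rw [h1, hv0] at h3
      exact h3.symm)
    funext Q
    have h3 := h2 Q.1 Q.2
    rw [← h1]
    exact h3

theorem lk_inv {a : ι → ι → ZMod 2} {b : ι → ZMod 2} {T : Finset ι} {τ : ι → ι} (hτ : ∀ P, τ (τ P) = P)
    (hT : ∀ P ∈ T, τ P ∈ T) (ha : ∀ P ∈ T, ∀ R ∈ T, a (τ P) (τ R) = a P R) (hb : ∀ P ∈ T, b (τ P) = b P)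
    (h : ∀ x : ι → ZMod 2, (∀ P ∈ T, x (τ P) = x P) → lkEq a b T x → ∀ P ∈ T, x P = 0) :
    ∀ x : ι → ZMod 2, lkEq a b T x → ∀ P ∈ T, x P = 0 := by
  intro x hx
  have h2 : ∀ z : ZMod 2, z + z = 0 := by decide
  have h3 : lkEq a b T fun P => x (τ P) := by
    intro P hP
    have h4 := hx (τ P) (hT P hP)
    rw [hb P hP] at h4
    have h5 : ∑ R ∈ T, a (τ P) R * (x (τ P) + x R) = ∑ R ∈ T, a P R * (x (τ P) + x (τ R)) := by
      refine Finset.sum_bij (fun R _ => τ R) (fun R hR => hT R hR) ?_ ?_ ?_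
      · intro R _ R' _ hRR
        rw [← hτ R, hRR, hτ]
      · intro R hR
        exact ⟨τ R, hT R hR, hτ R⟩
      · intro R hR
        have h6 := ha P hP (τ R) (hT R hR)
        rw [hτ] at h6
        rw [h6, hτ]
    rw [h5] at h4
    exact h4
  have h4 : lkEq a b T fun P => x P + x (τ P) := by
    intro P hP
    have h5 := hx P hP
    have h6 := h3 P hP
    have h7 : ∑ R ∈ T, a P R * (x P + x (τ P) + (x R + x (τ R))) =
        ∑ R ∈ T, a P R * (x P + x R) + ∑ R ∈ T, a P R * (x (τ P) + x (τ R)) := by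
      rw [← Finset.sum_add_distrib]
      refine Finset.sum_congr rfl fun R _ => ?_
      ring
    change b P * (x P + x (τ P)) + ∑ R ∈ T, a P R * (x P + x (τ P) + (x R + x (τ R))) = 0
    rw [h7]
    linear_combination h5 + h6
  have h5 := h _ (fun P hP => by
    change x (τ P) + x (τ (τ P)) = x P + x (τ P)
    rw [hτ, add_comm]) h4
  refine h x (fun P hP => ?_) hx
  have h6 : x P + x (τ P) = 0 := h5 P hP
  have h7 := h2 (x P)
  linear_combination h6 - h7

end

end TRQ
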