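import Pool.Agent.TRQ.SY
import Pool.Agent.TRW.Defs
import Pool.Agent.TRG.Z4
import Pool.Agent.TRG.U4
import Pool.Agent.TRG.AS3
import Pool.Agent.TRC.A7

/-! [DNL-SY0] the primes of `L` modulo which all units are squares: the base -/

set_option autoImplicit false

open NumberField Ideal IsDedekindDomain
open scoped Classical

namespace TRQ

open TR

section
variable {K : Type} [Field K] [NumberField K]

/-- away from `2`: `X² - t X - c` has a root modulo `v` iff `t² + 4 c` is a square modulo `v` -/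
theorem sy0_chd {t c : 𝓞 K} {v : HeightOneSpectrum (𝓞 K)} (h2 : (2 : 𝓞 K) ∉ v.asIdeal)
    (hv : t ^ 2 + 4 * c ∉ v.asIdeal) : TT.chd t c v = TT.qr v (t ^ 2 + 4 * c) := by
  have h1 : (∃ b : 𝓞 K, b ^ 2 - t * b - c ∈ v.asIdeal) ↔
      ∃ y : 𝓞 K, y ^ 2 - (t ^ 2 + 4 * c) ∈ v.asIdeal := by
    constructor
    · rintro ⟨b, hb⟩
      refine ⟨2 * b - t, ?_⟩
      rw [show (2 * b - t) ^ 2 - (t ^ 2 + 4 * c) = 4 * (b ^ 2 - t * b - c) by ring]
      exact Ideal.mul_mem_left _ _ hb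
    · rintro ⟨y, hy⟩
      obtain ⟨s, hs⟩ : ∃ s : 𝓞 K, s * 2 - 1 ∈ v.asIdeal := by
        obtain ⟨s, i, hi, hsi⟩ := v.isMaximal.exists_inv h2
        refine ⟨s, ?_⟩
        rw [show s * 2 - 1 = -i by rw [← hsi]; ring]
        exact Ideal.neg_mem_iff _ |>.2 hi
      refine ⟨s * (y + t), ?_⟩
      have h3 : 2 * (2 * ((s * (y + t)) ^ 2 - t * (s * (y + t)) - c)) ∈ v.asIdeal := by
        have e : 2 * (2 * ((s * (y + t)) ^ 2 - t * (s * (y + t)) - c)) =
            (y ^ 2 - (t ^ 2 + 4 * c)) + ((s * 2 + 1) * (y + t) ^ 2 - 2 * t * (y + t)) * (s * 2 - 1) := by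
          ring
        rw [e]
        exact Ideal.add_mem _ hy (Ideal.mul_mem_left _ _ hs)
      exact (v.isPrime.mem_or_mem ((v.isPrime.mem_or_mem h3).resolve_left h2)).resolve_left h2
  unfold TT.chd TT.qr
  rw [if_neg hv]
  simp only [h1]

/-- generators of odd powers of `w` have the same symbol modulo a good prime `v` -/
theorem sy0_gen {v w : HeightOneSpectrum (𝓞 K)} (hv : TRG.Good v) {q q' : 𝓞 K} {k k' : ℕ} (hk : Odd k)
    (hk' : Odd k') (hq : span {q} = w.asIdeal ^ k) (hq' : span {q'} = w.asIdeal ^ k') : TT.qr v q = TT.qr v q' := by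
  have h1 : span {q ^ k'} = span {q' ^ k} := by
    rw [← Ideal.span_singleton_pow, ← Ideal.span_singleton_pow, hq, hq', ← pow_mul, ← pow_mul, mul_comm]
  obtain ⟨u, hu⟩ := Ideal.span_singleton_eq_span_singleton.1 h1
  have hpow : ∀ (x : 𝓞 K) (m : ℕ), TT.qr v (x ^ (m + 1)) = TT.qr v x ^ (m + 1) := by
    intro x m
    induction m with
    | zero => rw [zero_add, pow_one, pow_one]
    | succ m ih => rw [pow_succ, TT.qr_mul v hv.two, ih, ← pow_succ]
  have hodd : ∀ (x : 𝓞 K) (m : ℕ), Odd m → TT.qr v (x ^ m) = TT.qr v x := by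
    intro x m hm
    obtain ⟨m', rfl⟩ : ∃ m', m = m' + 1 := ⟨m - 1, by have := hm.pos; omega⟩
    rw [hpow]
    rcases TT.qr_cases v x with h0 | h0 | h0
    · rw [h0]; exact zero_pow hm.pos.ne'
    · rw [h0]; exact one_pow _
    · rw [h0]; exact hm.neg_one_pow
  have h2 : TT.qr v (q' ^ k) = TT.qr v (q ^ k') := by
    rw [← hu, TT.qr_mul v hv.two, hv.unit u, mul_one]
  rw [hodd _ _ hk, hodd _ _ hk'] at h2
  exact h2.symm

theorem sy0_not_mem {v w : HeightOneSpectrum (𝓞 K)} (h : v ≠ w) {q : 𝓞 K} {k : ℕ}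
    (hq : span {q} = w.asIdeal ^ k) : q ∉ v.asIdeal := by
  intro hm
  have h1 : w.asIdeal ^ k ≤ v.asIdeal := by
    rw [← hq, Ideal.span_singleton_le_iff_mem]
    exact hm
  have h2 : w.asIdeal ≤ v.asIdeal := v.isPrime.le_of_pow_le h1
  exact h (HeightOneSpectrum.ext (w.isMaximal.eq_of_le v.isPrime.ne_top h2).symm)

end

section
variable {L M : Type} [Field L] [NumberField L] [Field M] [NumberField M] [Algebra L M]
  [IsTotallyReal L] (D : Dat L M)

/-- the primes of `L` not above `14` modulo which all units are squares -/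
abbrev GQ (L : Type) [Field L] [NumberField L] : Type :=
  {v : HeightOneSpectrum (𝓞 L) // TRG.Good v ∧ (7 : 𝓞 L) ∉ v.asIdeal}

/-- `n v` generates an odd power of `v` -/
def GenL (n : HeightOneSpectrum (𝓞 L) → 𝓞 L) : Prop :=
  ∀ v : GQ L, ∃ k : ℕ, Odd k ∧ span {n v.1} = v.1.asIdeal ^ k

/-- the symbol over `L` -/
noncomputable def eL (n : HeightOneSpectrum (𝓞 L) → 𝓞 L) (v w : GQ L) : ZMod 2 :=
  if TT.qr v.1 (n w.1) = -1 then 1 else 0

/-- the edge to the root: the symbol of `√-7` modulo a prime `P` of `M` above `v` -/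
noncomputable def rL (v : GQ L) : ZMod 2 :=
  if h : ∃ P : HeightOneSpectrum (𝓞 M), a7a_pi (L := L) P = v.1 then TRG.bM D h.choose else 0

/-- `v` splits in `M` -/
def kL (v : GQ L) : Prop := c7 (absNorm v.1.asIdeal) = 1

include D in
/-- [DNL-SYa] reciprocity over `L`, for the symbols: `n` totally positive up to a unit, `t² + 4c` a generator
of an odd power of `w`, `TRC.recF` -/
theorem sy0_qr_comm {n : HeightOneSpectrum (𝓞 L) → 𝓞 L} (hn : GenL n) {v w : GQ L} (hvw : v ≠ w) :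
    TT.qr w.1 (n v.1) = TT.qr v.1 (n w.1) := by
  have hvw' : v.1 ≠ w.1 := fun h => hvw (Subtype.ext h)
  obtain ⟨kv, hkv, hnv⟩ := hn v
  obtain ⟨kw, hkw, hnw⟩ := hn w
  obtain ⟨k, t, c, hA⟩ := TRG.exists_AdmG_one D w.2.1.two w.2.2
  have hspan : span {t ^ 2 + 4 * c} = w.1.asIdeal ^ k := by
    rw [hA.spn, Finset.prod_singleton]
  have hnv0 : n v.1 ≠ 0 := by
    intro h0
    have h3 : v.1.asIdeal ^ kv = ⊥ := by rw [← hnv, h0]; simp
    exact v.1.ne_bot (pow_eq_zero_iff hkv.pos.ne' |>.1 h3)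
  obtain ⟨u, hu⟩ := TRG.exists_sign D (n v.1) hnv0
  have hα : span {(u : 𝓞 L) * n v.1} = v.1.asIdeal ^ kv := by
    rw [Ideal.span_singleton_mul_left_unit u.isUnit, hnv]
  have hd : t ^ 2 + 4 * c ∉ v.1.asIdeal := sy0_not_mem hvw' hspan
  have h1 := TRC.recF (fun N hN => by
      obtain ⟨F, -⟩ := TRG.exists_frame_flip D.odd_classNumber hN
      exact ⟨F⟩) hA.odd hA.spn hA.two v.1 hd hu hkv hα
  rw [Finset.prod_singleton, TT.qr_mul w.1 w.2.1.two, w.2.1.unit u, one_mul, sy0_chd v.2.1.two hd,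
    sy0_gen v.2.1 hA.odd hkw hspan hnw] at h1
  exact h1

include D in
/-- [DNL-SYa] reciprocity over `L` -/
theorem eL_comm {n : HeightOneSpectrum (𝓞 L) → 𝓞 L} (hn : GenL n) (v w : GQ L) : eL n v w = eL n w v := by
  by_cases h : v = w
  · rw [h]
  · unfold eL
    rw [sy0_qr_comm D hn h]

/-- the primes of `L` with the residue symbols -/
noncomputable def baseL (n : HeightOneSpectrum (𝓞 L) → 𝓞 L) (hn : GenL n) : Base (GQ L) where
  N := fun v => absNorm v.1.asIdeal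
  e := eL n
  ρ := rL D
  two := fun v => by
    have h1 : absNorm v.1.asIdeal ≠ 0 := fun h => v.1.ne_bot (Ideal.absNorm_eq_zero_iff.1 h)
    have h2 : absNorm v.1.asIdeal ≠ 1 := fun h => v.1.isPrime.ne_top (Ideal.absNorm_eq_one_iff.1 h)
    omega
  fin := fun x => by
    have h1 : (Subtype.val ⁻¹' {P : HeightOneSpectrum (𝓞 L) | absNorm P.asIdeal ≤ ⌊x⌋₊} : Set (GQ L)).Finite :=
      (TRN.prb_finite L ⌊x⌋₊).preimage Subtype.val_injective.injOn
    refine h1.subset fun v hv => ?_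
    exact Nat.le_floor hv
  sym := eL_comm D hn

end

end TRQ
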