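import Pool.Agent.TRG.GEN
import Pool.Agent.TRW.SY0

/-! [DNL-SYg] the symbols of `M` at the primes above the primes of `L` -/

set_option autoImplicit false

open NumberField Ideal IsDedekindDomain
open scoped Classical

namespace TRQ

open TR

section
variable {K : Type} [Field K] [NumberField K]

/-- generators of odd powers of `Q` have the same symbol modulo a good prime `P` -/
theorem syg_qr_gen {P Q : HeightOneSpectrum (𝓞 K)} (hP : TRG.Good P) {q q' : 𝓞 K} {k k' : ℕ} (hk : Odd k)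
    (hk' : Odd k') (hq : span {q} = Q.asIdeal ^ k) (hq' : span {q'} = Q.asIdeal ^ k') : TT.qr P q = TT.qr P q' := by
  have h1 : span {q ^ k'} = span {q' ^ k} := by
    rw [← Ideal.span_singleton_pow, ← Ideal.span_singleton_pow, hq, hq', ← pow_mul, ← pow_mul, mul_comm]
  obtain ⟨u, hu⟩ := Ideal.span_singleton_eq_span_singleton.1 h1
  have h2 : TT.qr P (q' ^ k) = TT.qr P (q ^ k') := by
    rw [← hu, TT.qr_mul P hP.two, hP.unit u, mul_one]
  have h3 : ∀ (x : 𝓞 K) (m : ℕ), Odd m → TT.qr P (x ^ m) = TT.qr P x := by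
    intro x m hm
    rw [TRG.qr_pow P hP.two]
    rcases TT.qr_cases P x with h0 | h0 | h0
    · rw [h0]; exact zero_pow hm.pos.ne'
    · rw [h0]; exact one_pow m
    · rw [h0]; exact hm.neg_one_pow
  rw [h3 _ _ hk, h3 _ _ hk'] at h2
  exact h2.symm

theorem syg_not_mem {P Q : HeightOneSpectrum (𝓞 K)} (h : P ≠ Q) {q : 𝓞 K} {k : ℕ}
    (hq : span {q} = Q.asIdeal ^ k) : q ∉ P.asIdeal := by
  intro hm
  have h1 : Q.asIdeal ^ k ≤ P.asIdeal := by
    rw [← hq, Ideal.span_singleton_le_iff_mem]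
    exact hm
  have h2 : Q.asIdeal ≤ P.asIdeal := P.isPrime.le_of_pow_le h1
  exact h (HeightOneSpectrum.ext (Q.isMaximal.eq_of_le P.isPrime.ne_top h2).symm)

end

section
variable {L M : Type} [Field L] [NumberField L] [Field M] [NumberField M] [Algebra L M]
  [IsTotallyReal L] (D : Dat L M)

include D

/-- the primes above a split prime -/
theorem syg_fib {v : GQ L} (hv : kL v) : ∃ P Q : GP D, P ≠ Q ∧ Q.1.asIdeal = P.1.asIdeal.map D.cjO ∧
    (∀ R : HeightOneSpectrum (𝓞 M), a7a_pi (L := L) R = v.1 ↔ R = P.1 ∨ R = Q.1) ∧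
    absNorm P.1.asIdeal = absNorm v.1.asIdeal ∧ absNorm Q.1.asIdeal = absNorm v.1.asIdeal := by
  obtain ⟨P, Q, hPQ, hQ, hR, hP, hQ'⟩ := D.split v.1 v.2.2 hv
  have h1 : a7a_pi (L := L) P = v.1 := TRG.a7a_pi_eq.2 ((hR P).2 (Or.inl rfl))
  have h2 : a7a_pi (L := L) Q = v.1 := TRG.a7a_pi_eq.2 ((hR Q).2 (Or.inr rfl))
  refine ⟨⟨P, TRG.good_split D v.2.1.two v.2.1.unit h1, TRG.rr_above D h1 v.2.2⟩,
    ⟨Q, TRG.good_split D v.2.1.two v.2.1.unit h2, TRG.rr_above D h2 v.2.2⟩, ?_, hQ, ?_, hP, hQ'⟩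
  · intro h
    exact hPQ (congrArg Subtype.val h)
  · intro R
    rw [TRG.a7a_pi_eq]
    exact hR R

theorem syg_map_cj {P Q : HeightOneSpectrum (𝓞 M)} (hQ : Q.asIdeal = P.asIdeal.map D.cjO) :
    P.asIdeal = Q.asIdeal.map D.cjO := by
  have e : D.cjO.comp D.cjO = RingHom.id (𝓞 M) := RingHom.ext fun y => a6_cj_cj D y
  rw [hQ, Ideal.map_map, e, Ideal.map_id]

/-- the norm of a generator of an odd power of a prime `R` above a split prime `v` generates an odd power of `v` -/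
theorem syg_nm {v : GQ L} (hv : kL v) {R : HeightOneSpectrum (𝓞 M)} (hR : a7a_pi (L := L) R = v.1) {x : 𝓞 M} {k : ℕ}
    (hx : span {x} = R.asIdeal ^ k) : span {(TT.nm x : 𝓞 L)} = v.1.asIdeal ^ k := by
  obtain ⟨P, Q, hPQ, hQ, hF, hP, hQ'⟩ := syg_fib D hv
  have h1 : P.1.asIdeal.comap (algebraMap (𝓞 L) (𝓞 M)) = v.1.asIdeal := TRG.a7a_pi_eq.1 ((hF P.1).2 (Or.inl rfl))
  have h2 : Q.1.asIdeal.comap (algebraMap (𝓞 L) (𝓞 M)) = v.1.asIdeal := TRG.a7a_pi_eq.1 ((hF Q.1).2 (Or.inr rfl))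
  have hne : P.1 ≠ Q.1 := fun h => hPQ (Subtype.ext h)
  rcases (hF R).1 hR with h | h
  · rw [h] at hx
    exact TT.span_nm D v.1 P.1 Q.1 hne hQ h1 h2 hP hx.symm
  · rw [h] at hx
    exact TT.span_nm D v.1 Q.1 P.1 hne.symm (syg_map_cj D hQ) h2 h1 hQ' hx.symm

/-- the symbol of the norm -/
theorem syg_qr_nm {p : HeightOneSpectrum (𝓞 M) → 𝓞 M} {n : HeightOneSpectrum (𝓞 L) → 𝓞 L} (hn : GenL n) (u : GQ L)
    {v : GQ L} (hv : kL v) {R : HeightOneSpectrum (𝓞 M)} (hR : a7a_pi (L := L) R = v.1) (hp : TRG.GenP R (p R)) :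
    TT.qr u.1 (TT.nm (p R) : 𝓞 L) = TT.qr u.1 (n v.1) := by
  obtain ⟨k, hk, hx⟩ := hp.gen
  obtain ⟨k', hk', hx'⟩ := hn v
  exact syg_qr_gen u.2.1 hk hk' (syg_nm D hv hR hx) hx'

/-- `u` and `v` split, `P` and `Q` the primes above `u`, `R` above `v` -/
theorem syg_edge {p : HeightOneSpectrum (𝓞 M) → 𝓞 M} {n : HeightOneSpectrum (𝓞 L) → 𝓞 L} (hn : GenL n) {u v : GQ L}
    (hv : kL v) (huv : u ≠ v) {P Q R : HeightOneSpectrum (𝓞 M)} (hPQ : P ≠ Q)
    (hF : ∀ R : HeightOneSpectrum (𝓞 M), a7a_pi (L := L) R = u.1 ↔ R = P ∨ R = Q)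
    (hR : a7a_pi (L := L) R = v.1) (hp : TRG.GenP R (p R)) :
    TRG.aM p P R + TRG.aM p Q R = eL n u v := by
  obtain ⟨k, hk, hx⟩ := hp.gen
  have h1 : R ≠ P := fun h => huv (Subtype.ext (by rw [← hR, h, (hF P).2 (Or.inl rfl)]))
  have h2 : R ≠ Q := fun h => huv (Subtype.ext (by rw [← hR, h, (hF Q).2 (Or.inr rfl)]))
  have h3 := syg_not_mem h1.symm hx
  have h4 := syg_not_mem h2.symm hx
  have h5 := TRG.qr_nm D u.2.1.two u.2.2 (F := {P, Q}) (fun R => by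
    rw [hF, Finset.mem_insert, Finset.mem_singleton]) (p R)
  rw [Finset.prod_pair hPQ, syg_qr_nm D hn u hv hR hp] at h5
  unfold TRG.aM eL
  rw [← h5]
  rcases sy3_qr_pm h3 with h6 | h6 <;> rcases sy3_qr_pm h4 with h7 | h7 <;> rw [h6, h7] <;> norm_num
  decide

omit D in
omit [IsTotallyReal L] [NumberField M] [Algebra L M] in
theorem syg_inert {v : GQ L} (hv : c7 (absNorm v.1.asIdeal) ≠ 1) : c7 (absNorm v.1.asIdeal) = -1 := by
  have h1 : (-7 : 𝓞 L) ∉ v.1.asIdeal := fun h => v.2.2 ((Ideal.neg_mem_iff _).1 h)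
  have h2 := TRG.qr_neg_seven v.2.1.two v.2.2
  rcases sy3_qr_pm h1 with h | h
  · rw [h] at h2
    exact absurd h2.symm hv
  · rw [← h2, h]

/-- `P` above the inert prime `u`, `R` above the split prime `v` -/
theorem syg_edge_inert_split {p : HeightOneSpectrum (𝓞 M) → 𝓞 M} {n : HeightOneSpectrum (𝓞 L) → 𝓞 L} (hn : GenL n)
    {u v : GQ L} (hu : ¬ kL u) (hv : kL v) {P R : HeightOneSpectrum (𝓞 M)} (hP : a7a_pi (L := L) P = u.1)
    (hR : a7a_pi (L := L) R = v.1) (hp : TRG.GenP R (p R)) :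
    TRG.aM p P R = eL n u v := by
  unfold TRG.aM eL
  rw [TRG.qr_inert_nm D hP u.2.1.two (syg_inert hu), syg_qr_nm D hn u hv hR hp]

/-- a generator of an odd power of the prime above an inert prime -/
theorem syg_qr_inert {p : HeightOneSpectrum (𝓞 M) → 𝓞 M} {n : HeightOneSpectrum (𝓞 L) → 𝓞 L} (hn : GenL n)
    {v : GQ L} (hv : ¬ kL v) {P R : HeightOneSpectrum (𝓞 M)} (hP : TRG.Good P)
    (hR : a7a_pi (L := L) R = v.1) (hp : TRG.GenP R (p R)) :
    TT.qr P (p R) = TT.qr P (algebraMap (𝓞 L) (𝓞 M) (n v.1)) := by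
  obtain ⟨R', h1, h2⟩ := TT.h1_inert D v.1 (syg_inert hv)
  have h3 : R = R' := (h1 R).1 (TRG.a7a_pi_eq.1 hR)
  obtain ⟨k, hk, hx⟩ := hp.gen
  obtain ⟨k', hk', hx'⟩ := hn v
  refine syg_qr_gen hP hk hk' hx ?_
  rw [h3, ← h2, ← Ideal.map_pow, ← hx', Ideal.map_span, Set.image_singleton]

/-- `P` above the split prime `u`, `R` above the inert prime `v` -/
theorem syg_edge_split_inert {p : HeightOneSpectrum (𝓞 M) → 𝓞 M} {n : HeightOneSpectrum (𝓞 L) → 𝓞 L} (hn : GenL n)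
    {u v : GQ L} (hu : kL u) (hv : ¬ kL v) {P R : HeightOneSpectrum (𝓞 M)} (hP : a7a_pi (L := L) P = u.1)
    (hR : a7a_pi (L := L) R = v.1) (hp : TRG.GenP R (p R)) :
    TRG.aM p P R = eL n u v := by
  unfold TRG.aM eL
  rw [syg_qr_inert D hn hv (TRG.good_split D u.2.1.two u.2.1.unit hP) hR hp,
    TRG.qr_split_alg D hP u.2.1.two hu]

/-- `P` above the inert prime `u`, `R` above the inert prime `v` -/
theorem syg_edge_inert_inert {p : HeightOneSpectrum (𝓞 M) → 𝓞 M} {n : HeightOneSpectrum (𝓞 L) → 𝓞 L} (hn : GenL n)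
    {u v : GQ L} (hu : ¬ kL u) (hv : ¬ kL v) (huv : u ≠ v) {P R : HeightOneSpectrum (𝓞 M)} (hP : a7a_pi (L := L) P = u.1)
    (hR : a7a_pi (L := L) R = v.1) (hp : TRG.GenP R (p R)) :
    TRG.aM p P R = 0 := by
  obtain ⟨k', hk', hx'⟩ := hn v
  have h1 : n v.1 ∉ u.1.asIdeal := syg_not_mem (fun h => huv (Subtype.ext h)) hx'
  unfold TRG.aM
  rw [syg_qr_inert D hn hv (TRG.good_inert D u.2.1.two u.2.2 (syg_inert hu) hP) hR hp,
    TRG.qr_inert_alg D hP u.2.1.two (syg_inert hu) h1, if_neg (by norm_num)]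

/-- the symbol of `√-7` modulo a prime above an inert prime `u` (`-1` is a square modulo `u`) -/
theorem syg_bM_inert {u : GQ L} (hu : ¬ kL u) {P : HeightOneSpectrum (𝓞 M)} (hP : a7a_pi (L := L) P = u.1) :
    TRG.bM D P = 1 := by
  have h2 := TRG.norm_odd u.2.1.two
  have h4 : absNorm u.1.asIdeal % 4 = 1 := by
    rcases h2 with h | h
    · exact h
    · have h5 := TRG.qr_neg_one_three u.2.1.two h
      have h6 := u.2.1.unit (-1)
      rw [Units.val_neg, Units.val_one, h5] at h6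
      norm_num at h6
  unfold TRG.bM
  rw [(TRG.qr_inert_rr D hP u.2.1.two (syg_inert hu)).1 h4, if_pos rfl]

end

end TRQ
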