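import Pool.Agent.TR.U6
import Pool.Agent.TRW.SYg
import Pool.Agent.TRW.LKa

/-! [DNL-LK] the link between the graph over `M` and the graph over `L` -/

set_option autoImplicit false

open NumberField Ideal IsDedekindDomain
open scoped Classical

namespace TRQ

open TR TTS TU

section
variable {L M : Type} [Field L] [NumberField L] [Field M] [NumberField M] [Algebra L M]
  [IsTotallyReal L] (D : Dat L M)
include D

theorem lk_mem (P : HeightOneSpectrum (𝓞 M)) (x : 𝓞 M) : x ∈ (u6_conj D P).asIdeal ↔ D.cjO x ∈ P.asIdeal := by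
  have h1 : (u6_conj D P).asIdeal = P.asIdeal.map D.cjO := rfl
  constructor
  · intro h
    rw [h1] at h
    have h2 := Ideal.mem_map_of_mem D.cjO h
    rwa [Ideal.map_map, show D.cjO.comp D.cjO = RingHom.id (𝓞 M) from RingHom.ext fun y => a6_cj_cj D y,
      Ideal.map_id] at h2
  · intro h
    have h2 := Ideal.mem_map_of_mem D.cjO h
    rw [a6_cj_cj] at h2
    exact h2

theorem lk_pi (P : HeightOneSpectrum (𝓞 M)) : a7a_pi (L := L) (u6_conj D P) = a7a_pi P := by
  apply HeightOneSpectrum.ext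
  ext x
  change algebraMap (𝓞 L) (𝓞 M) x ∈ (u6_conj D P).asIdeal ↔ algebraMap (𝓞 L) (𝓞 M) x ∈ P.asIdeal
  rw [lk_mem, D.a2_cjO_algebraMap]

/-- the primes above `v` are conjugate -/
theorem lk_fib {v : GQ L} {P Q : HeightOneSpectrum (𝓞 M)} (hP : a7a_pi (L := L) P = v.1)
    (hQ : a7a_pi (L := L) Q = v.1) : Q = P ∨ Q = u6_conj D P := by
  by_cases hv : kL v
  · obtain ⟨P', Q', -, hQ', hF, -⟩ := syg_fib D hv
    have h1 : Q'.1 = u6_conj D P'.1 := HeightOneSpectrum.ext hQ'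
    have h2 : P'.1 = u6_conj D Q'.1 := by rw [h1, u6_conj_conj]
    rcases (hF P).1 hP with h3 | h3 <;> rcases (hF Q).1 hQ with h4 | h4
    · left; rw [h3, h4]
    · right; rw [h3, h4, h1]
    · right; rw [h3, h4, ← h2]
    · left; rw [h3, h4]
  · obtain ⟨P', h1, -⟩ := TT.h1_inert D v.1 (syg_inert hv)
    left
    rw [(h1 P).1 (TRG.a7a_pi_eq.1 hP), (h1 Q).1 (TRG.a7a_pi_eq.1 hQ)]

theorem lk_qr (P : HeightOneSpectrum (𝓞 M)) (x : 𝓞 M) : TT.qr (u6_conj D P) x = TT.qr P (D.cjO x) :=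
  TRG.z1a_split D rfl x

theorem lk_a {p : HeightOneSpectrum (𝓞 M) → 𝓞 M} {P R : HeightOneSpectrum (𝓞 M)} (hP : TRG.Good P)
    (hR : TRG.GenP R (p R)) (hR' : TRG.GenP (u6_conj D R) (p (u6_conj D R))) :
    TRG.aM p (u6_conj D P) (u6_conj D R) = TRG.aM p P R := by
  obtain ⟨k, hk, hx⟩ := hR.gen
  obtain ⟨k', hk', hx'⟩ := hR'.gen
  unfold TRG.aM
  rw [lk_qr]
  have h1 : span {D.cjO (p (u6_conj D R))} = R.asIdeal ^ k' := by
    have h2 : R.asIdeal = (u6_conj D R).asIdeal.map D.cjO := syg_map_cj D rfl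
    rw [h2, ← Ideal.map_pow, ← hx', Ideal.map_span, Set.image_singleton]
  rw [syg_qr_gen hP hk' hk h1 hx]

theorem lk_cj_rr : D.cjO D.rr = -D.rr := by
  apply RingOfIntegers.ext
  change D.cj ((D.rr : 𝓞 M) : M) = ((-D.rr : 𝓞 M) : M)
  have h2 : ((-D.rr : 𝓞 M) : M) = -((D.rr : 𝓞 M) : M) := by
    change algebraMap (𝓞 M) M (-D.rr) = _
    rw [map_neg]
  rw [h2, n1_coe_rr D]
  exact D.cj_r

theorem lk_b {P : HeightOneSpectrum (𝓞 M)} (hP : TRG.Good P) : TRG.bM D (u6_conj D P) = TRG.bM D P := by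
  unfold TRG.bM
  rw [lk_qr, lk_cj_rr]
  have h1 : (-D.rr : 𝓞 M) = D.rr * ((-1 : (𝓞 M)ˣ) : 𝓞 M) := by
    rw [Units.val_neg, Units.val_one, mul_neg_one]
  rw [h1, TT.qr_mul P hP.two, hP.unit, mul_one]

theorem lk_good {v : GQ L} {P : HeightOneSpectrum (𝓞 M)} (hP : a7a_pi (L := L) P = v.1) : TRG.Good P :=
  TRG.good_split D v.2.1.two v.2.1.unit hP

theorem lk_rL {v : GQ L} {P : HeightOneSpectrum (𝓞 M)} (hP : a7a_pi (L := L) P = v.1) : rL D v = TRG.bM D P := by
  have h : ∃ P : HeightOneSpectrum (𝓞 M), a7a_pi (L := L) P = v.1 := ⟨P, hP⟩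
  unfold rL
  rw [dif_pos h]
  rcases lk_fib D hP h.choose_spec with h1 | h1
  · rw [h1]
  · rw [h1, lk_b D (lk_good D hP)]

theorem lk_exists (v : GQ L) : ∃ P : HeightOneSpectrum (𝓞 M), a7a_pi (L := L) P = v.1 := by
  by_cases hv : kL v
  · obtain ⟨P', Q', -, hQ', hF, -⟩ := syg_fib D hv
    exact ⟨P'.1, (hF P'.1).2 (Or.inl rfl)⟩
  · obtain ⟨P', h1, -⟩ := TT.h1_inert D v.1 (syg_inert hv)
    exact ⟨P', TRG.a7a_pi_eq.2 ((h1 P').2 rfl)⟩

/-- the contribution of the primes above `w` -/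
theorem lk_term (hodd : Odd (classNumber M)) {n : HeightOneSpectrum (𝓞 L) → 𝓞 L} (hn : GenL n)
    {S : Finset (GQ L)} {SM : Finset (HeightOneSpectrum (𝓞 M))}
    {X : HeightOneSpectrum (𝓞 M) → (Ideal (𝓞 M) →*₀ ℤ)} {p : HeightOneSpectrum (𝓞 M) → 𝓞 M}
    (G : TRG.DG D (S.image Subtype.val) SM X p) {x : HeightOneSpectrum (𝓞 M) → ZMod 2} {y : GQ L → ZMod 2}
    (hxy : ∀ v ∈ S, ∀ P : HeightOneSpectrum (𝓞 M), a7a_pi (L := L) P = v.1 → x P = y v)
    {u w : GQ L} (hu : u ∈ S) (hw : w ∈ S) {P : HeightOneSpectrum (𝓞 M)} (hP : a7a_pi (L := L) P = u.1) :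
    ∑ R ∈ SM.filter (fun R => a7a_pi (L := L) R = w.1), TRG.aM p P R * (x P + x R) =
      if kL u then eL n u w * (y u + y w) else 0 := by
  have h2 : ∀ z : ZMod 2, z + z = 0 := by decide
  have hPM : P ∈ SM := by
    rw [G.mem, hP]
    exact Finset.mem_image_of_mem _ hu
  have hsum : ∑ R ∈ SM.filter (fun R => a7a_pi (L := L) R = w.1), TRG.aM p P R * (x P + x R) =
      (∑ R ∈ SM.filter (fun R => a7a_pi (L := L) R = w.1), TRG.aM p P R) * (y u + y w) := by
    rw [Finset.sum_mul]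
    refine Finset.sum_congr rfl fun R hR => ?_
    rw [hxy u hu P hP, hxy w hw R (Finset.mem_filter.1 hR).2]
  rw [hsum]
  by_cases huw : u = w
  · rw [huw, h2, mul_zero, mul_zero, ite_self]
  have hmem : ∀ R : HeightOneSpectrum (𝓞 M), R ∈ SM.filter (fun R => a7a_pi (L := L) R = w.1) ↔
      a7a_pi (L := L) R = w.1 := by
    intro R
    rw [Finset.mem_filter, G.mem]
    refine ⟨fun h => h.2, fun h => ⟨?_, h⟩⟩
    rw [h]
    exact Finset.mem_image_of_mem _ hw
  have hMw : ∀ R : HeightOneSpectrum (𝓞 M), a7a_pi (L := L) R = w.1 → R ∈ SM := fun R hR =>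
    (Finset.mem_filter.1 ((hmem R).2 hR)).1
  by_cases hkw : kL w
  · obtain ⟨R₁, R₂, hne, -, hF, -⟩ := syg_fib D hkw
    have hR₁ := (hF R₁.1).2 (Or.inl rfl)
    have hR₂ := (hF R₂.1).2 (Or.inr rfl)
    have hne' : R₁.1 ≠ R₂.1 := fun h => hne (Subtype.ext h)
    have hFw : SM.filter (fun R => a7a_pi (L := L) R = w.1) = {R₁.1, R₂.1} := by
      ext R
      rw [hmem, hF, Finset.mem_insert, Finset.mem_singleton]
    rw [hFw, Finset.sum_pair hne']
    by_cases hku : kL u
    · rw [if_pos hku]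
      congr 1
      have hP7 := G.gs.seven P hPM
      have hc : ∀ R : HeightOneSpectrum (𝓞 M), a7a_pi (L := L) R = w.1 → TRG.aM p P R = TRG.aM p R P := by
        intro R hR
        have hM : IsTotallyComplex M := D.isTotallyComplex
        have hne : P ≠ R := by
          intro h
          apply huw
          apply Subtype.ext
          rw [← hP, ← hR, h]
        have h1 := TRG.qr_comm hodd (G.gs.good P hPM) (G.gs.good R (hMw R hR)) (G.gen P hPM) (G.gen R (hMw R hR)) hne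
        unfold TRG.aM
        rw [h1]
      rw [hc _ hR₁, hc _ hR₂, syg_edge D hn hku (Ne.symm huw) hne' hF hP (G.gen P hPM), eL_comm D hn]
    · rw [if_neg hku, syg_edge_inert_split D hn hku hkw hP hR₁ (G.gen _ (hMw _ hR₁)),
        syg_edge_inert_split D hn hku hkw hP hR₂ (G.gen _ (hMw _ hR₂)), h2, zero_mul]
  · obtain ⟨R₁, hR₁⟩ := lk_exists D w
    have hFw : SM.filter (fun R => a7a_pi (L := L) R = w.1) = {R₁} := by
      ext R
      rw [hmem, Finset.mem_singleton]
      constructor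
      · intro hR
        obtain ⟨P', h1, -⟩ := TT.h1_inert D w.1 (syg_inert hkw)
        rw [(h1 R).1 (TRG.a7a_pi_eq.1 hR), (h1 R₁).1 (TRG.a7a_pi_eq.1 hR₁)]
      · intro hR
        rw [hR, hR₁]
    rw [hFw, Finset.sum_singleton]
    by_cases hku : kL u
    · rw [if_pos hku, syg_edge_split_inert D hn hku hkw hP hR₁ (G.gen _ (hMw _ hR₁))]
    · rw [if_neg hku, syg_edge_inert_inert D hn hku hkw huw hP hR₁ (G.gen _ (hMw _ hR₁)), zero_mul]

/-- the equation at `P` above `u` -/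
theorem lk_eq (hodd : Odd (classNumber M)) {n : HeightOneSpectrum (𝓞 L) → 𝓞 L} (hn : GenL n)
    {S : Finset (GQ L)} {SM : Finset (HeightOneSpectrum (𝓞 M))}
    {X : HeightOneSpectrum (𝓞 M) → (Ideal (𝓞 M) →*₀ ℤ)} {p : HeightOneSpectrum (𝓞 M) → 𝓞 M}
    (G : TRG.DG D (S.image Subtype.val) SM X p) {x : HeightOneSpectrum (𝓞 M) → ZMod 2} {y : GQ L → ZMod 2}
    (hxy : ∀ v ∈ S, ∀ P : HeightOneSpectrum (𝓞 M), a7a_pi (L := L) P = v.1 → x P = y v)
    {u : GQ L} (hu : u ∈ S) {P : HeightOneSpectrum (𝓞 M)} (hP : a7a_pi (L := L) P = u.1) :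
    TRG.bM D P * x P + ∑ R ∈ SM, TRG.aM p P R * (x P + x R) =
      if kL u then rL D u * y u + ∑ w ∈ S, eL n u w * (y u + y w) else y u := by
  have h1 : ∑ R ∈ SM, TRG.aM p P R * (x P + x R) =
      ∑ w ∈ S, if kL u then eL n u w * (y u + y w) else 0 := by
    rw [← Finset.sum_fiberwise_of_maps_to (s := SM) (t := S.image Subtype.val)
      (g := fun R => a7a_pi (L := L) R) (fun R hR => (G.mem R).1 hR)
      (fun R => TRG.aM p P R * (x P + x R)), Finset.sum_image (fun v _ w _ h => Subtype.ext h)]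
    exact Finset.sum_congr rfl fun w hw => lk_term D hodd hn G hxy hu hw hP
  rw [h1, hxy u hu P hP]
  by_cases hk : kL u
  · rw [if_pos hk, lk_rL D hP]
    congr 1
    exact Finset.sum_congr rfl fun w _ => by rw [if_pos hk]
  · rw [if_neg hk, syg_bM_inert D hk hP, one_mul]
    have h3 : ∑ w ∈ S, (if kL u then eL n u w * (y u + y w) else 0) = 0 :=
      Finset.sum_eq_zero fun w _ => if_neg hk
    rw [h3, add_zero]

/-- [DNL-LK] the link -/
theorem link (hodd : Odd (classNumber M)) (n : HeightOneSpectrum (𝓞 L) → 𝓞 L) (hn : GenL n)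
    {S : Finset (GQ L)} {SM : Finset (HeightOneSpectrum (𝓞 M))}
    {X : HeightOneSpectrum (𝓞 M) → (Ideal (𝓞 M) →*₀ ℤ)} {p : HeightOneSpectrum (𝓞 M) → 𝓞 M}
    (G : TRG.DG D (S.image Subtype.val) SM X p) :
    Pool.Agent.TRG.f (TRG.aM p) (TRG.bM D) SM ≠ 0 ↔ OddL (baseL D n hn) kL S := by
  have h2 : ∀ z : ZMod 2, z + z = 0 := by decide
  have hfib : ∀ P ∈ SM, ∃ v ∈ S, a7a_pi (L := L) P = v.1 := by
    intro P hP
    obtain ⟨v, hv, hvP⟩ := Finset.mem_image.1 ((G.mem P).1 hP)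
    exact ⟨v, hv, hvP.symm⟩
  have hSM : ∀ v ∈ S, ∀ P : HeightOneSpectrum (𝓞 M), a7a_pi (L := L) P = v.1 → P ∈ SM := by
    intro v hv P hP
    rw [G.mem, hP]
    exact Finset.mem_image_of_mem _ hv
  have hconj : ∀ P ∈ SM, u6_conj D P ∈ SM := by
    intro P hP
    rw [G.mem, lk_pi, ← G.mem]
    exact hP
  -- the equations over `L`
  have hL : ∀ y : GQ L → ZMod 2,
      lkEq (baseL D n hn).e (fun v => (baseL D n hn).ρ v + ∑ w ∈ S.filter (fun w => ¬ kL w), (baseL D n hn).e v w)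
        (S.filter kL) y ↔
      ∀ u ∈ S, kL u → rL D u * y u + ∑ w ∈ S, eL n u w * (y u + if kL w then y w else 0) = 0 := by
    intro y
    have h3 : ∀ u : GQ L, (rL D u + ∑ w ∈ S.filter (fun w => ¬ kL w), eL n u w) * y u +
        ∑ w ∈ S.filter kL, eL n u w * (y u + y w) =
        rL D u * y u + ∑ w ∈ S, eL n u w * (y u + if kL w then y w else 0) := by
      intro u
      rw [← Finset.sum_filter_add_sum_filter_not S kL (fun w => eL n u w * (y u + if kL w then y w else 0))]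
      have h4 : ∑ w ∈ S.filter kL, eL n u w * (y u + if kL w then y w else 0) =
          ∑ w ∈ S.filter kL, eL n u w * (y u + y w) :=
        Finset.sum_congr rfl fun w hw => by rw [if_pos (Finset.mem_filter.1 hw).2]
      have h5 : ∑ w ∈ S.filter (fun w => ¬ kL w), eL n u w * (y u + if kL w then y w else 0) =
          (∑ w ∈ S.filter (fun w => ¬ kL w), eL n u w) * y u := by
        rw [Finset.sum_mul]
        exact Finset.sum_congr rfl fun w hw => by rw [if_neg (Finset.mem_filter.1 hw).2, add_zero]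
      rw [h4, h5]
      ring
    constructor
    · intro h u hu hk
      rw [← h3]
      exact h u (Finset.mem_filter.2 ⟨hu, hk⟩)
    · intro h u hu
      have h4 := h u (Finset.mem_filter.1 hu).1 (Finset.mem_filter.1 hu).2
      rw [← h3] at h4
      exact h4
  unfold OddL
  rw [lk_iff, lk_iff]
  constructor
  · intro h y hy v hv
    rw [Finset.mem_filter] at hv
    rw [hL] at hy
    set y' : GQ L → ZMod 2 := fun w => if kL w then y w else 0 with hy'
    have hx : ∀ v ∈ S, ∀ P : HeightOneSpectrum (𝓞 M), a7a_pi (L := L) P = v.1 →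
        (fun P : HeightOneSpectrum (𝓞 M) => if h : ∃ v : GQ L, a7a_pi (L := L) P = v.1 then y' h.choose else 0) P =
          y' v := by
      intro v _ P hP
      have h3 : ∃ v : GQ L, a7a_pi (L := L) P = v.1 := ⟨v, hP⟩
      change (if h : ∃ v : GQ L, a7a_pi (L := L) P = v.1 then y' h.choose else 0) = y' v
      rw [dif_pos h3]
      congr 1
      exact Subtype.ext (h3.choose_spec.symm.trans hP)
    have h4 := h _ (fun P hP => by
      obtain ⟨u, hu, hPu⟩ := hfib P hP
      rw [lk_eq D hodd hn G hx hu hPu]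
      by_cases hk : kL u
      · rw [if_pos hk]
        have h5 := hy u hu hk
        have h6 : y' u = y u := if_pos hk
        rw [h6]
        exact h5
      · rw [if_neg hk]
        exact if_neg hk)
    obtain ⟨P, hP⟩ := lk_exists D v
    have h5 := h4 P (hSM v hv.1 P hP)
    have h6 : y' v = y v := if_pos hv.2
    rw [← h6]
    exact (hx v hv.1 P hP).symm.trans h5
  · intro h
    refine lk_inv (τ := u6_conj D) (u6_conj_conj D) hconj
      (fun P hP R hR => lk_a D (G.gs.good P hP) (G.gen R hR) (G.gen _ (hconj R hR)))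
      (fun P hP => lk_b D (G.gs.good P hP)) ?_
    intro x hx0 hx
    set y : GQ L → ZMod 2 := fun v => x (lk_exists D v).choose with hy
    have hxy : ∀ v ∈ S, ∀ P : HeightOneSpectrum (𝓞 M), a7a_pi (L := L) P = v.1 → x P = y v := by
      intro v hv P hP
      have h3 := (lk_exists D v).choose_spec
      rcases lk_fib D h3 hP with h4 | h4
      · rw [h4]
      · rw [h4]
        exact hx0 _ (hSM v hv _ h3)
    have h3 : ∀ u ∈ S, (if kL u then rL D u * y u + ∑ w ∈ S, eL n u w * (y u + y w) else y u) = 0 := by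
      intro u hu
      obtain ⟨P, hP⟩ := lk_exists D u
      rw [← lk_eq D hodd hn G hxy hu hP]
      exact hx P (hSM u hu P hP)
    have h4 : ∀ u ∈ S, ¬ kL u → y u = 0 := by
      intro u hu hk
      have h5 := h3 u hu
      rwa [if_neg hk] at h5
    have h5 := h y ((hL y).2 (fun u hu hk => by
      have h6 := h3 u hu
      rw [if_pos hk] at h6
      refine Eq.trans ?_ h6
      congr 1
      refine Finset.sum_congr rfl fun w hw => ?_
      by_cases hkw : kL w
      · rw [if_pos hkw]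
      · rw [if_neg hkw, h4 w hw hkw]))
    intro P hP
    obtain ⟨v, hv, hPv⟩ := hfib P hP
    rw [hxy v hv P hPv]
    by_cases hk : kL v
    · exact h5 v (Finset.mem_filter.2 ⟨hv, hk⟩)
    · exact h4 v hv hk

end

end TRQ
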