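import Pool.Agent.TRW.SY
import Pool.Agent.TRW.LK
import Pool.Agent.TRQ.FN
import Pool.Agent.TRG.ResA

/-! [DNL-FN] strict curves over `L`: definitions, the form of a strict curve -/

set_option autoImplicit false

open NumberField IsDedekindDomain Filter Topology
open scoped Classical

namespace XTB

open TRB XTR

section
variable {K : Type} [Field K] [NumberField K]

/-- `E` is an elliptic curve over `K` with `j`-invariant `-3375`, with good reduction at the prime ideals above `2` and at all prime ideals `v`, `7 ∉ v`, modulo which not all units are squares. -/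
structure StrictCurve (E : WeierstrassCurve K) : Prop where
  j_eq : ∃ _ : E.IsElliptic, E.j = -3375
  two : ∀ v : HeightOneSpectrum (𝓞 K), (2 : 𝓞 K) ∈ v.asIdeal → XTS.GoodReduction E v
  good : ∀ v : HeightOneSpectrum (𝓞 K), (7 : 𝓞 K) ∉ v.asIdeal →
    XTS.GoodReduction E v ∨ ∀ u : (𝓞 K)ˣ, ∃ x : 𝓞 K, x ^ 2 - (u : 𝓞 K) ∈ v.asIdeal

theorem StrictCurve.goodCurve {E : WeierstrassCurve K} (h : StrictCurve E) : GoodCurve E :=
  ⟨h.j_eq, h.two, fun v hv => (h.good v hv).imp_right fun h1 => Or.inr (Or.inr (Or.inr h1))⟩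

/-- The isomorphism classes over `K` of the strict curves `E` over `K` which satisfy `Q`, such that the product of the norms of the bad prime ideals of `E` which do not contain `7` is at most `X`. -/
def strictFamily (K : Type) [Field K] [NumberField K] (X : ℕ) (Q : WeierstrassCurve K → Prop) :
    Set (MulAction.orbitRel.Quotient (WeierstrassCurve.VariableChange K) (WeierstrassCurve K)) :=
  {c | ∃ E : WeierstrassCurve K, Quotient.mk _ E = c ∧ StrictCurve E ∧ badNorm E ≤ X ∧ Q E}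

/-- the inclusion -/
def gqEmb (K : Type) [Field K] [NumberField K] : TRQ.GQ K ↪ HeightOneSpectrum (𝓞 K) :=
  ⟨Subtype.val, Subtype.val_injective⟩

/-- the bad primes of a strict curve are good primes -/
theorem StrictCurve.badGood {E : WeierstrassCurve K} (hE : StrictCurve E) {v : HeightOneSpectrum (𝓞 K)}
    (h7 : (7 : 𝓞 K) ∉ v.asIdeal) (hb : ¬ XTS.GoodReduction E v) : TRG.Good v := by
  refine ⟨fun h2 => hb (hE.two v h2), fun u => ?_⟩
  unfold TT.qr
  rw [if_neg, if_pos ((hE.good v h7).resolve_left hb u)]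
  intro hu
  exact v.isPrime.ne_top (Ideal.eq_top_of_isUnit_mem _ hu u.isUnit)

end

section
variable {L M : Type} [Field L] [NumberField L] [Field M] [NumberField M] [Algebra L M]
  [IsTotallyReal L]

/-- [DNL-FNa] the set of the bad primes of a strict curve, and the criterion -/
theorem strict_form (D : TRB.Dat L M) (hodd : Odd (classNumber M)) (n : HeightOneSpectrum (𝓞 L) → 𝓞 L)
    (hn : TRQ.GenL n) {E : WeierstrassCurve L} (hE : StrictCurve E) :
    ∃ S : Finset (TRQ.GQ L),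
      (∀ v, v ∈ S.map (gqEmb L) ↔ (7 : 𝓞 L) ∉ v.asIdeal ∧ ¬ XTS.GoodReduction E v) ∧
      (FiniteSha E ↔ TRQ.OddL (TRQ.baseL (D.toTR hodd) n hn) TRQ.kL S) := by
  obtain ⟨hell, hj⟩ := hE.j_eq
  obtain ⟨d, k, t, c, S₀, C, C', hNG, -, h1, h2, hbad⟩ := exists_NG D hodd E hj (fun v hv => hE.two v hv)
  have hS₀ : ∀ v, v ∈ S₀ ↔ (7 : 𝓞 L) ∉ v.asIdeal ∧ ¬ XTS.GoodReduction E v := by
    intro v
    refine ⟨fun hv => ⟨hNG.adm.seven v hv, hbad v hv⟩, fun h => ?_⟩
    by_contra hv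
    apply h.2
    rw [h1]
    exact TRH.h2_good h.1 (hNG.sg.ur v hv h.1) C
  have hg : ∀ v ∈ S₀, TRG.Good v ∧ (7 : 𝓞 L) ∉ v.asIdeal := by
    intro v hv
    have h3 := (hS₀ v).1 hv
    exact ⟨hE.badGood h3.1 h3.2, h3.1⟩
  obtain ⟨S, hS⟩ : ∃ S : Finset (TRQ.GQ L), S.image Subtype.val = S₀ := by
    refine ⟨S₀.subtype fun v => TRG.Good v ∧ (7 : 𝓞 L) ∉ v.asIdeal, ?_⟩
    ext v
    rw [Finset.mem_image]
    constructor
    · rintro ⟨w, hw, rfl⟩
      exact Finset.mem_subtype.1 hw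
    · intro hv
      exact ⟨⟨v, hg v hv⟩, Finset.mem_subtype.2 hv, rfl⟩
  have hS' : ∀ v, v ∈ S.map (gqEmb L) ↔ v ∈ S₀ := by
    intro v
    rw [← hS, Finset.mem_map, Finset.mem_image]
    rfl
  refine ⟨S, fun v => (hS' v).trans (hS₀ v), ?_⟩
  have hgL : ∀ v ∈ S₀, TRG.GoodL v := fun v hv => Or.inr (hg v hv).1.unit
  obtain ⟨SM, X, p, G⟩ := TRG.exists_DG (D.toTR hodd) hNG.adm.two hNG.adm.seven hgL
  obtain ⟨hA, -⟩ := TRG.modTwo_G G hNG
  rw [(hA E C C' h1 h2).2]
  rw [← hS] at G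
  exact TRQ.link (D.toTR hodd) hodd n hn G

end

end XTB
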