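import Pool.Agent.TRW.FNa

/-! [DNL-N10a] the two strict curves for a set of good primes of `L` -/

set_option autoImplicit false

open NumberField IsDedekindDomain Filter Topology
open scoped Classical

namespace XTB

open TRB XTR

section
variable {F : Type} [Field F] [CharZero F]

/-- the curves `Ws d` -/
theorem fnb_ws {d : F} (hd : d ≠ 0) : ∃ _ : (TTS.Ws d).IsElliptic, (TTS.Ws d).j = -3375 := by
  have hΔ : (TTS.Ws d).Δ ≠ 0 := by
    rw [TTS.Ws_Δ]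
    exact mul_ne_zero (by norm_num) (pow_ne_zero _ hd)
  have hE : (TTS.Ws d).IsElliptic := ⟨isUnit_iff_ne_zero.2 hΔ⟩
  refine ⟨hE, ?_⟩
  rw [WeierstrassCurve.j, TTS.Ws_c₄, Units.val_inv_eq_inv_val, WeierstrassCurve.coe_Δ', TTS.Ws_Δ]
  field_simp
  norm_num

omit [CharZero F] in
theorem fnb_c₆ (d : F) : (TTS.Ws d).c₆ = 84672 * d ^ 3 := by
  simp only [TTS.Ws, WeierstrassCurve.c₆, WeierstrassCurve.b₂, WeierstrassCurve.b₄,
    WeierstrassCurve.b₆]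
  ring

/-- isomorphic twists -/
theorem fnb_iso {d d' : F} (hd' : d' ≠ 0) {C : WeierstrassCurve.VariableChange F}
    (h : TTS.Ws d' = C • TTS.Ws d) : ∃ y : F, y ≠ 0 ∧ d' = y ^ 2 * d := by
  have h4 := WeierstrassCurve.variableChange_c₄ (TTS.Ws d) C
  have h6 := WeierstrassCurve.variableChange_c₆ (TTS.Ws d) C
  rw [← h, TTS.Ws_c₄, TTS.Ws_c₄] at h4
  rw [← h, fnb_c₆, fnb_c₆] at h6
  have hw0 : ((C.u⁻¹ : Fˣ) : F) ≠ 0 := Units.ne_zero _
  generalize ((C.u⁻¹ : Fˣ) : F) = w at h4 h6 hw0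
  have k4 : d' ^ 2 = (w ^ 2 * d) ^ 2 := by
    have h105 : (1680 : F) ≠ 0 := by norm_num
    apply mul_left_cancel₀ h105
    linear_combination h4
  have k6 : d' ^ 3 = (w ^ 2 * d) ^ 3 := by
    have h1323 : (84672 : F) ≠ 0 := by norm_num
    apply mul_left_cancel₀ h1323
    linear_combination h6
  refine ⟨w, hw0, ?_⟩
  have h5 : d' ^ 2 * d' = d' ^ 2 * (w ^ 2 * d) := by
    calc d' ^ 2 * d' = d' ^ 3 := by ring
      _ = (w ^ 2 * d) ^ 2 * (w ^ 2 * d) := by rw [k6]; ring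
      _ = _ := by rw [← k4]
  exact mul_left_cancel₀ (pow_ne_zero 2 hd') h5

end

section
variable {L M : Type} [Field L] [NumberField L] [Field M] [NumberField M] [Algebra L M]
  [IsTotallyReal L]

/-- a unit of `L` which is a square modulo `4` is a square -/
theorem fnb_unit (D : TR.Dat L M) {u : (𝓞 L)ˣ} {t c : 𝓞 L} (h : (u : 𝓞 L) = t ^ 2 + 4 * c) :
    ∃ w : (𝓞 L)ˣ, u = w ^ 2 := by
  obtain ⟨v, hv⟩ := D.unit_square u t c h
  have hvi : IsIntegral ℤ v := by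
    refine IsIntegral.of_pow (n := 2) two_pos ?_
    rw [hv]
    exact (u : 𝓞 L).2.algebraMap
  have hv1 : (⟨v, hvi⟩ : 𝓞 M) * ⟨v, hvi⟩ = algebraMap (𝓞 L) (𝓞 M) u := by
    apply RingOfIntegers.ext
    show v * v = _
    rw [← sq, hv]
    rfl
  have hvu : IsUnit (⟨v, hvi⟩ : 𝓞 M) := by
    have h1 : IsUnit ((⟨v, hvi⟩ : 𝓞 M) * ⟨v, hvi⟩) := by
      rw [hv1]
      exact u.isUnit.map _
    exact isUnit_of_mul_isUnit_left h1
  obtain ⟨V, hV⟩ := hvu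
  obtain ⟨w, hw⟩ := D.unit_real V
  refine ⟨w, ?_⟩
  apply Units.ext
  have hinj : Function.Injective (algebraMap (𝓞 L) (𝓞 M)) := FaithfulSMul.algebraMap_injective (𝓞 L) (𝓞 M)
  apply hinj
  rw [Units.val_pow_eq_pow_val, map_pow, ← hw, hV, sq]
  exact hv1.symm

/-- two elements `t² + 4c` for the same set of primes differ by a square -/
theorem fnb_sq (D : TRB.Dat L M) (hodd : Odd (classNumber M)) {k k' : ℕ} {t c t' c' : 𝓞 L}
    {S : Finset (HeightOneSpectrum (𝓞 L))} (hA : AdmG k t c S) (hA' : AdmG k' t' c' S) :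
    ∃ y : L, y ≠ 0 ∧ ((t' ^ 2 + 4 * c' : 𝓞 L) : L) = y ^ 2 * ((t ^ 2 + 4 * c : 𝓞 L) : L) := by
  obtain ⟨a, ha⟩ : ∃ a : 𝓞 L, a = t ^ 2 + 4 * c := ⟨_, rfl⟩
  obtain ⟨a', ha'⟩ : ∃ a : 𝓞 L, a = t' ^ 2 + 4 * c' := ⟨_, rfl⟩
  have ha0 : (a : L) ≠ 0 := RingOfIntegers.coe_ne_zero_iff.2 (ha ▸ hA.ne)
  have ha0' : (a' : L) ≠ 0 := RingOfIntegers.coe_ne_zero_iff.2 (ha' ▸ hA'.ne)
  have hur : ∀ v ∉ S, TU.Ur v ((a' : L) * (a : L)) := fun v hv => by
    rw [ha, ha']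
    exact (hA'.ur hv).mul (hA.ur hv)
  obtain ⟨x, t2, c2, S2, hx, hd, hA2⟩ := exists_normalG D hodd (mul_ne_zero ha0' ha0)
    (fun v hv => hur v fun h => hA.two v h hv) (fun v hv => hur v fun h => hA.seven v h hv)
  have hS2 : S2 = ∅ := by
    rw [Finset.eq_empty_iff_forall_notMem]
    intro v hv
    have h2 := hA2.two v hv
    have h3 : TU.Od v ((a' : L) * (a : L)) := by
      rw [hd, TU.od_sq_mul hx]
      exact hA2.od hv
    refine h3.val (TU.Ur.val ?_)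
    by_cases hvS : v ∈ S
    · rw [ha, ha']
      exact (hA'.od hvS).mul h2 (hA.od hvS)
    · exact hur v hvS
  have hu : IsUnit (t2 ^ 2 + 4 * c2) := by
    rw [← Ideal.span_singleton_eq_top, hA2.spn, hS2, Finset.prod_empty, Ideal.one_eq_top]
  obtain ⟨u, hu⟩ := hu
  obtain ⟨w, hw⟩ := fnb_unit (D.toTR hodd) hu
  have hw1 : ((t2 ^ 2 + 4 * c2 : 𝓞 L) : L) = ((w : 𝓞 L) : L) ^ 2 := by
    rw [← hu, hw, Units.val_pow_eq_pow_val]
    exact map_pow (algebraMap (𝓞 L) L) _ _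
  have hw0 : ((w : 𝓞 L) : L) ≠ 0 := RingOfIntegers.coe_ne_zero_iff.2 w.ne_zero
  rw [← ha, ← ha']
  refine ⟨x * ((w : 𝓞 L) : L) / (a : L), div_ne_zero (mul_ne_zero hx hw0) ha0, ?_⟩
  rw [hw1] at hd
  field_simp
  linear_combination hd

/-- the curves `Ws d` are strict -/
theorem fnb_strict {d : L} {k : ℕ} {t c : 𝓞 L} {S : Finset (HeightOneSpectrum (𝓞 L))} (hN : TRB.NG L d k t c S)
    (hS : ∀ v ∈ S, TRG.Good v ∧ (7 : 𝓞 L) ∉ v.asIdeal) :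
    StrictCurve (TTS.Ws d) ∧ ∀ v, v ∈ S ↔ (7 : 𝓞 L) ∉ v.asIdeal ∧ ¬ XTS.GoodReduction (TTS.Ws d) v := by
  have hd := hN.ne
  obtain ⟨C3, hC3⟩ := TTS.Wd_eq_Ws d
  have hE : TTS.Ws d = C3⁻¹ • TU.Wd d := by rw [hC3, inv_smul_smul]
  have hg : ∀ v ∉ S, (7 : 𝓞 L) ∉ v.asIdeal → XTS.GoodReduction (TTS.Ws d) v := by
    intro v hv h7
    have h := TRH.h2_good h7 (hN.sg.ur v hv h7) 1
    rw [one_smul] at h
    exact h
  have hb : ∀ v ∈ S, ¬ XTS.GoodReduction (TTS.Ws d) v := by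
    intro v hv h
    rw [hE] at h
    exact (hN.sg.od v hv).val (TU.Ur.val (TU.ur_of_good (hS v hv).2 hd h))
  refine ⟨⟨fnb_ws hd, fun v h2 => ?_, fun v h7 => ?_⟩, fun v => ⟨fun hv => ⟨(hS v hv).2, hb v hv⟩, fun h => ?_⟩⟩
  · apply hg v (fun hv => (hS v hv).1.two h2)
    intro h7
    apply v.isPrime.ne_top
    rw [Ideal.eq_top_iff_one]
    have h3 : (1 : 𝓞 L) = 7 - 3 * 2 := by norm_num
    rw [h3]
    exact Ideal.sub_mem _ h7 (Ideal.mul_mem_left _ _ h2)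
  · by_cases hv : v ∈ S
    · right
      intro u
      by_contra hno
      have h1 := (hS v hv).1.unit u
      unfold TT.qr at h1
      rw [if_neg (fun h => (hS v hv).1.two (by
        exact absurd (v.asIdeal.eq_top_of_isUnit_mem h u.isUnit) v.isPrime.ne_top)), if_neg hno] at h1
      norm_num at h1
    · exact Or.inl (hg v hv h7)
  · by_contra hv
    exact h.2 (hg v hv h.1)

end

/-- [DNL-N10a] PROOF. `TRG.exists_AdmG` for `S`; `E = XTS.twist t c` resp. its twist by `-7`; `TRB.exists_NG` and `TRG.modTwo_G` as in `mod_two_good`; bad exactly at `S` and at `7`. -/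
theorem exists_two_curves {L : Type} [Field L] [NumberField L] (hL : Admissible L)
    {S : Finset (HeightOneSpectrum (𝓞 L))} (hS : ∀ v ∈ S, TRG.Good v ∧ (7 : 𝓞 L) ∉ v.asIdeal) :
    ∃ E E' : WeierstrassCurve L, StrictCurve E ∧ StrictCurve E' ∧
      (∀ v, v ∈ S ↔ (7 : 𝓞 L) ∉ v.asIdeal ∧ ¬ XTS.GoodReduction E v) ∧
      (∀ v, v ∈ S ↔ (7 : 𝓞 L) ∉ v.asIdeal ∧ ¬ XTS.GoodReduction E' v) ∧
      (¬ ∃ C : WeierstrassCurve.VariableChange L, E' = C • E) ∧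
      ∀ F : WeierstrassCurve L, StrictCurve F → (∀ v, v ∈ S ↔ (7 : 𝓞 L) ∉ v.asIdeal ∧ ¬ XTS.GoodReduction F v) →
        ∃ C : WeierstrassCurve.VariableChange L, F = C • E ∨ F = C • E' := by
  have : IsTotallyReal L := hL.real
  obtain ⟨M, _, _, _, r, hr, gen⟩ := TR.exists_sqrt L
  have hM : Module.finrank L M = 2 := (hL.good.dat hL.inert M r hr gen).finrank_eq_two
  have hodd := Admissible.sqrt_odd hL hM ⟨r, hr⟩
  obtain ⟨D0⟩ := Real7.dat hL.inert hM ⟨r, hr⟩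
  obtain ⟨k, t, c, hA⟩ := TRG.exists_AdmG (D0.toTR hodd) (fun v hv => (hS v hv).1.two) (fun v hv => (hS v hv).2)
  obtain ⟨a, ha⟩ : ∃ a : 𝓞 L, a = t ^ 2 + 4 * c := ⟨_, rfl⟩
  have ha0 : (a : L) ≠ 0 := RingOfIntegers.coe_ne_zero_iff.2 (ha ▸ hA.ne)
  have h7 : (7 : L) ≠ 0 := by norm_num
  have hN1 : TRB.NG L (a : L) k t c S :=
    ⟨ha0, hA, 1, one_ne_zero, Or.inl (by rw [← ha]; ring)⟩
  have hN2 : TRB.NG L (-7 * (a : L)) k t c S :=
    ⟨mul_ne_zero (neg_ne_zero.2 h7) ha0, hA, 7, h7, Or.inr (by rw [← ha]; ring)⟩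
  obtain ⟨h1, h2⟩ := fnb_strict hN1 hS
  obtain ⟨h3, h4⟩ := fnb_strict hN2 hS
  refine ⟨TTS.Ws (a : L), TTS.Ws (-7 * (a : L)), h1, h3, h2, h4, ?_, fun F hF hbad => ?_⟩
  · rintro ⟨C, hC⟩
    obtain ⟨y, -, hy⟩ := fnb_iso hN2.ne hC
    apply TR.no_sqrt_real y
    exact (mul_right_cancel₀ ha0 hy).symm
  · obtain ⟨hell, hj⟩ := hF.j_eq
    obtain ⟨d, k', t', c', S0, C, C', hNG, -, hC, hC', hb⟩ := exists_NG D0 hodd F hj (fun v hv => hF.two v hv)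
    have hS0 : S0 = S := by
      ext v
      rw [hbad v]
      refine ⟨fun hv => ⟨hNG.adm.seven v hv, hb v hv⟩, fun h => ?_⟩
      by_contra hv
      apply h.2
      rw [hC]
      exact TRH.h2_good h.1 (hNG.sg.ur v hv h.1) C
    rw [hS0] at hNG
    obtain ⟨y, hy0, hy⟩ := fnb_sq D0 hodd hA hNG.adm
    obtain ⟨x, hx0, hx⟩ := hNG.rep
    rw [hy, ← ha] at hx
    rcases hx with hx | hx
    · obtain ⟨C1, hC1, -⟩ := TTS.Ws_scale (d := (a : L)) (mul_ne_zero hx0 hy0)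
      refine ⟨C * C1, Or.inl ?_⟩
      rw [hC, mul_smul, ← hC1, hx]
      congr 2
      ring
    · obtain ⟨C1, hC1, -⟩ := TTS.Ws_scale (d := -7 * (a : L)) (div_ne_zero (mul_ne_zero hx0 hy0) h7)
      refine ⟨C * C1, Or.inr ?_⟩
      rw [hC, mul_smul, ← hC1]
      congr 2
      field_simp
      linear_combination -hx

end XTB
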