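import Pool.Agent.TRW.SYg

/-! [DNL-SYk] the field `chrk` of the system of the primes of `L` -/

set_option autoImplicit false

open NumberField Ideal IsDedekindDomain
open scoped Classical

namespace TRQ

open TR

section
variable (K : Type) [Field K] [NumberField K]

theorem syk_sq (S : Finset (HeightOneSpectrum (𝓞 K))) :
    ∑ v ∈ S, 1 / (absNorm v.asIdeal : ℝ) ^ 2 ≤ ∑' I : Ideal (𝓞 K), (absNorm I : ℝ) ^ (-(2 : ℝ)) := by
  have hs := TR.summable_absNorm K (s := 2) (by norm_num)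
  have h1 : ∑ v ∈ S, 1 / (absNorm v.asIdeal : ℝ) ^ 2 = ∑ v ∈ S, (absNorm v.asIdeal : ℝ) ^ (-(2 : ℝ)) := by
    refine Finset.sum_congr rfl fun v _ => ?_
    rw [Real.rpow_neg (Nat.cast_nonneg _), Real.rpow_two, one_div]
  rw [h1, ← Finset.sum_image (f := fun I : Ideal (𝓞 K) => (absNorm I : ℝ) ^ (-(2 : ℝ)))
    (g := fun P : HeightOneSpectrum (𝓞 K) => P.asIdeal) (fun P _ P' _ h => HeightOneSpectrum.ext h)]
  exact hs.sum_le_tsum _ (fun I _ => Real.rpow_nonneg (Nat.cast_nonneg _) _)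

end

theorem syk_log {n : ℕ} (hn : 0 < n) : 0 ≤ Real.log (Real.log ((n : ℝ) + 3)) ∧
    Real.log (Real.log (((n ^ 2 : ℕ) : ℝ) + 3)) ≤ Real.log (Real.log ((n : ℝ) + 3)) + Real.log 2 := by
  have h1 : (1 : ℝ) ≤ n := by exact_mod_cast hn
  have h2 : (1 : ℝ) ≤ Real.log ((n : ℝ) + 3) := by
    rw [Real.le_log_iff_exp_le (by linarith)]
    have := Real.exp_one_lt_d9
    linarith
  refine ⟨Real.log_nonneg h2, ?_⟩
  rw [← Real.log_mul (by linarith) (by norm_num)]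
  have h3 : (1 : ℝ) < ((n ^ 2 : ℕ) : ℝ) + 3 := by
    have : (0 : ℝ) ≤ ((n ^ 2 : ℕ) : ℝ) := Nat.cast_nonneg _
    linarith
  refine Real.log_le_log (Real.log_pos h3) ?_
  have h4 : Real.log ((n : ℝ) + 3) * 2 = Real.log (((n : ℝ) + 3) ^ 2) := by
    rw [Real.log_pow]
    push_cast
    ring
  rw [h4]
  refine Real.log_le_log (by linarith) ?_
  push_cast
  nlinarith

section
variable {L M : Type} [Field L] [NumberField L] [Field M] [NumberField M] [Algebra L M]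
  [IsTotallyReal L] (D : Dat L M)

/-- the prime of `L` below a good prime `P` of `M`: split and in `GQ L`, or inert -/
theorem syk_below (P : GP D) : (∃ v : GQ L, kL v ∧ a7a_pi (L := L) P.1 = v.1) ∨
    (c7 (absNorm (a7a_pi (L := L) P.1).asIdeal) = -1) := by
  rcases TRG.qr_algebraMap D P.2.1.two P.2.2 1 with ⟨h, -⟩ | ⟨h, -⟩
  · left
    have h2 : (2 : 𝓞 L) ∉ (a7a_pi (L := L) P.1).asIdeal := by
      intro h2
      apply P.2.1.two
      have := (TRG.alg_mem (P := P.1) rfl 2).2 h2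
      rwa [map_ofNat] at this
    refine ⟨⟨a7a_pi (L := L) P.1, ⟨h2, fun u => ?_⟩, TRG.gen_seven D P.2.2⟩, h, rfl⟩
    rw [← TRG.qr_split_alg D rfl h2 h]
    exact P.2.1.unit (Units.map (algebraMap (𝓞 L) (𝓞 M)).toMonoidHom u)
  · right
    exact h

theorem syk_norm {P : GP D} (h : c7 (absNorm (a7a_pi (L := L) P.1).asIdeal) = -1) :
    absNorm P.1.asIdeal = absNorm (a7a_pi (L := L) P.1).asIdeal ^ 2 ∧
      ∀ R : GP D, a7a_pi (L := L) R.1 = a7a_pi (L := L) P.1 → R = P := by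
  obtain ⟨P', h1, h2⟩ := D.inert _ (TRG.gen_seven D P.2.2) h
  have h3 : P.1 = P' := (h1 P.1).1 rfl
  rw [← h3] at h1 h2
  exact ⟨h2, fun R hR => Subtype.ext ((h1 R.1).1 (TRG.a7a_pi_eq.1 hR))⟩

/-- the primes above inert primes -/
theorem syk_inert (S : Finset (GP D)) (hS : ∀ P ∈ S, c7 (absNorm (a7a_pi (L := L) P.1).asIdeal) = -1) :
    ∑ P ∈ S, 1 / (absNorm P.1.asIdeal : ℝ) ≤ ∑' I : Ideal (𝓞 L), (absNorm I : ℝ) ^ (-(2 : ℝ)) := by
  refine le_trans (le_of_eq ?_) (syk_sq L (S.image fun P => a7a_pi (L := L) P.1))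
  rw [Finset.sum_image]
  · refine Finset.sum_congr rfl fun P hP => ?_
    rw [(syk_norm D (hS P hP)).1]
    push_cast
    rfl
  · intro P hP R hR h
    exact (syk_norm D (hS R hR)).2 P h

/-- [DNL-SYk] the field `chrk` -/
theorem syl_chrk (hodd : Odd (classNumber M)) {n : HeightOneSpectrum (𝓞 L) → 𝓞 L} (hn : GenL n) :
    ∃ C : ℝ, 0 < C ∧ ∀ A : Finset (GQ L), A.Nonempty → (∀ u ∈ A, kL u) → ∀ x : ℝ, 1 ≤ x →
      ∑ v ∈ ((baseL D n hn).pb x \ A).filter kL, (baseL D n hn).xi A 0 v / (baseL D n hn).N v ≤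
        Real.log (Real.log ((baseL D n hn).nS A + 3)) + C := by
  have hp0 : ∀ P : HeightOneSpectrum (𝓞 M), ∃ q : 𝓞 M, TRG.Good P → D.rr ∉ P.asIdeal → TRG.GenP P q := by
    intro P
    by_cases h : TRG.Good P ∧ D.rr ∉ P.asIdeal
    · obtain ⟨q, hq⟩ := TRG.exists_genP D h.1 h.2
      exact ⟨q, fun _ _ => hq⟩
    · exact ⟨0, fun h1 h2 => absurd ⟨h1, h2⟩ h⟩
  choose p hp using hp0
  obtain ⟨C, hC, h⟩ := sy_chr D hodd hp
  have hF0 : ∀ v : GQ L, ∃ F : Finset (GP D), kL v → (∀ R : GP D, R ∈ F ↔ a7a_pi (L := L) R.1 = v.1) ∧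
      ∃ P Q : GP D, P ≠ Q ∧ F = {P, Q} ∧
        (∀ R : HeightOneSpectrum (𝓞 M), a7a_pi (L := L) R = v.1 ↔ R = P.1 ∨ R = Q.1) ∧
        absNorm P.1.asIdeal = absNorm v.1.asIdeal ∧ absNorm Q.1.asIdeal = absNorm v.1.asIdeal := by
    intro v
    by_cases hv : kL v
    · obtain ⟨P, Q, hPQ, -, hR, h1, h2⟩ := syg_fib D hv
      refine ⟨{P, Q}, fun _ => ⟨fun R => ?_, P, Q, hPQ, rfl, hR, h1, h2⟩⟩
      rw [Finset.mem_insert, Finset.mem_singleton, hR]
      constructor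
      · rintro (h3 | h3)
        · exact Or.inl (congrArg Subtype.val h3)
        · exact Or.inr (congrArg Subtype.val h3)
      · rintro (h3 | h3)
        · exact Or.inl (Subtype.ext h3)
        · exact Or.inr (Subtype.ext h3)
    · exact ⟨∅, fun h3 => absurd h3 hv⟩
  choose F hF using hF0
  have hdisj : ∀ B : Finset (GQ L), (∀ v ∈ B, kL v) → (B : Set (GQ L)).PairwiseDisjoint F := by
    intro B hB v hv w hw hvw
    rw [Function.onFun, Finset.disjoint_left]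
    intro R hR hR'
    have h1 := ((hF v (hB v hv)).1 R).1 hR
    have h2 := ((hF w (hB w hw)).1 R).1 hR'
    exact hvw (Subtype.ext (h1.symm.trans h2))
  have hC1 : 0 ≤ ∑' I : Ideal (𝓞 L), (absNorm I : ℝ) ^ (-(2 : ℝ)) :=
    tsum_nonneg fun I => Real.rpow_nonneg (Nat.cast_nonneg _) _
  have hl2 : 0 < Real.log 2 := Real.log_pos (by norm_num)
  refine ⟨C + ∑' I : Ideal (𝓞 L), (absNorm I : ℝ) ^ (-(2 : ℝ)) + Real.log 2, by linarith, fun A hA hAk x hx => ?_⟩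
  obtain ⟨u₀, hu₀⟩ := hA
  have hAM : (A.biUnion F).Nonempty := by
    obtain ⟨-, P, Q, -, hPQ, -⟩ := hF u₀ (hAk u₀ hu₀)
    refine ⟨P, Finset.mem_biUnion.2 ⟨u₀, hu₀, ?_⟩⟩
    rw [hPQ]
    exact Finset.mem_insert_self _ _
  have h1 := h (A.biUnion F) 0 (Or.inl hAM) x hx
  -- the norm
  have hnS : (baseM D hodd p hp).nS (A.biUnion F) = (baseL D n hn).nS A ^ 2 := by
    unfold Base.nS
    rw [Finset.prod_biUnion (hdisj A hAk), ← Finset.prod_pow]
    refine Finset.prod_congr rfl fun u hu => ?_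
    obtain ⟨-, P, Q, hne, hPQ, -, hP, hQ⟩ := hF u (hAk u hu)
    rw [hPQ, Finset.prod_pair hne]
    change absNorm P.1.asIdeal * absNorm Q.1.asIdeal = absNorm u.1.asIdeal ^ 2
    rw [hP, hQ, sq]
  -- the character
  have hxi : ∀ v : GQ L, kL v → v ∉ A → ∀ R ∈ F v,
      (baseM D hodd p hp).xi (A.biUnion F) 0 R = (baseL D n hn).xi A 0 v := by
    intro v hv hvA R hR
    have hRv := ((hF v hv).1 R).1 hR
    unfold Base.xi
    change (if ∑ Q ∈ A.biUnion F, TRG.aM p Q.1 R.1 + 0 * _ = 0 then (1 : ℝ) else -1) =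
      if ∑ u ∈ A, eL n u v + 0 * _ = 0 then (1 : ℝ) else -1
    rw [zero_mul, zero_mul, Finset.sum_biUnion (hdisj A hAk)]
    have h2 : ∑ u ∈ A, ∑ Q ∈ F u, TRG.aM p Q.1 R.1 = ∑ u ∈ A, eL n u v := by
      refine Finset.sum_congr rfl fun u hu => ?_
      obtain ⟨-, P, Q, hne, hPQ, hPQ', -⟩ := hF u (hAk u hu)
      rw [hPQ, Finset.sum_pair hne]
      exact syg_edge D hn hv (fun h => hvA (h ▸ hu)) (fun h => hne (Subtype.ext h)) hPQ' hRv
        (hp R.1 R.2.1 R.2.2)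
    rw [h2]
  -- the split primes
  have hS : (((baseM D hodd p hp).pb x \ A.biUnion F).filter
      fun R => ∃ v : GQ L, kL v ∧ a7a_pi (L := L) R.1 = v.1) =
      ((((baseL D n hn).pb x \ A).filter kL).biUnion F) := by
    ext R
    rw [Finset.mem_filter, Finset.mem_sdiff, Base.mem_pb, Finset.mem_biUnion, Finset.mem_biUnion]
    constructor
    · rintro ⟨⟨h2, h3⟩, v, hv, hR⟩
      have h4 := ((hF v hv).1 R).2 hR
      refine ⟨v, ?_, h4⟩
      rw [Finset.mem_filter, Finset.mem_sdiff, Base.mem_pb]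
      refine ⟨⟨?_, fun h5 => h3 ⟨v, h5, h4⟩⟩, hv⟩
      obtain ⟨-, P, Q, hne, hPQ, -, hP, hQ⟩ := hF v hv
      rw [hPQ, Finset.mem_insert, Finset.mem_singleton] at h4
      change ((absNorm R.1.asIdeal : ℕ) : ℝ) ≤ x at h2
      change ((absNorm v.1.asIdeal : ℕ) : ℝ) ≤ x
      rcases h4 with h4 | h4
      · rwa [← hP, ← h4]
      · rwa [← hQ, ← h4]
    · rintro ⟨v, hv, hR⟩
      rw [Finset.mem_filter, Finset.mem_sdiff, Base.mem_pb] at hv
      obtain ⟨⟨h2, h3⟩, hv⟩ := hv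
      have h4 := ((hF v hv).1 R).1 hR
      refine ⟨⟨?_, ?_⟩, v, hv, h4⟩
      · obtain ⟨-, P, Q, hne, hPQ, -, hP, hQ⟩ := hF v hv
        rw [hPQ, Finset.mem_insert, Finset.mem_singleton] at hR
        change ((absNorm v.1.asIdeal : ℕ) : ℝ) ≤ x at h2
        change ((absNorm R.1.asIdeal : ℕ) : ℝ) ≤ x
        rcases hR with h5 | h5
        · rwa [h5, hP]
        · rwa [h5, hQ]
      · rintro ⟨u, hu, hRu⟩
        have h5 := ((hF u (hAk u hu)).1 R).1 hRu
        have h6 : v = u := Subtype.ext (h4.symm.trans h5)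
        exact h3 (h6 ▸ hu)
  have hsplit : ∑ R ∈ ((baseM D hodd p hp).pb x \ A.biUnion F).filter
      (fun R => ∃ v : GQ L, kL v ∧ a7a_pi (L := L) R.1 = v.1),
        (baseM D hodd p hp).xi (A.biUnion F) 0 R / (baseM D hodd p hp).N R =
      2 * ∑ v ∈ ((baseL D n hn).pb x \ A).filter kL, (baseL D n hn).xi A 0 v / (baseL D n hn).N v := by
    rw [hS, Finset.sum_biUnion (hdisj _ fun v hv => (Finset.mem_filter.1 hv).2), Finset.mul_sum]
    refine Finset.sum_congr rfl fun v hv => ?_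
    rw [Finset.mem_filter, Finset.mem_sdiff] at hv
    have h2 := hxi v hv.2 hv.1.2
    obtain ⟨-, P, Q, hne, hPQ, -, hP, hQ⟩ := hF v hv.2
    rw [hPQ] at h2 ⊢
    rw [Finset.sum_pair hne, h2 P (Finset.mem_insert_self _ _),
      h2 Q (Finset.mem_insert_of_mem (Finset.mem_singleton_self _))]
    have h3 : (baseM D hodd p hp).N P = (baseL D n hn).N v := hP
    have h4 : (baseM D hodd p hp).N Q = (baseL D n hn).N v := hQ
    rw [h3, h4]
    ring
  -- the inert primes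
  have hinert : -(∑' I : Ideal (𝓞 L), (absNorm I : ℝ) ^ (-(2 : ℝ))) ≤
      ∑ R ∈ ((baseM D hodd p hp).pb x \ A.biUnion F).filter
        (fun R => ¬ ∃ v : GQ L, kL v ∧ a7a_pi (L := L) R.1 = v.1),
        (baseM D hodd p hp).xi (A.biUnion F) 0 R / (baseM D hodd p hp).N R := by
    have h2 := syk_inert D (((baseM D hodd p hp).pb x \ A.biUnion F).filter
        (fun R => ¬ ∃ v : GQ L, kL v ∧ a7a_pi (L := L) R.1 = v.1)) (fun P hP =>
          (syk_below D P).resolve_left (Finset.mem_filter.1 hP).2)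
    refine (neg_le_neg h2).trans ?_
    rw [← Finset.sum_neg_distrib]
    refine Finset.sum_le_sum fun P _ => ?_
    have h3 : (baseM D hodd p hp).N P = absNorm P.1.asIdeal := rfl
    rw [h3, ← neg_div]
    refine div_le_div_of_nonneg_right ?_ (Nat.cast_nonneg _)
    unfold Base.xi
    split_ifs <;> norm_num
  rw [← Finset.sum_filter_add_sum_filter_not _ (fun R : GP D => ∃ v : GQ L, kL v ∧ a7a_pi (L := L) R.1 = v.1),
    hsplit, hnS] at h1
  obtain ⟨h5, h6⟩ := syk_log ((baseL D n hn).nS_pos A)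
  linarith

end

end TRQ
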