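import Pool.Agent.TRW.SYm
import Pool.Agent.TRW.SYb
import Pool.Agent.TRW.SYk

/-! [DNL-SY] the primes of `L` modulo which all units are squares form a system -/

set_option autoImplicit false

open NumberField Ideal IsDedekindDomain
open scoped Classical

namespace TRQ

open TR

section
variable {L M : Type} [Field L] [NumberField L] [Field M] [NumberField M] [Algebra L M]
  [IsTotallyReal L] (D : Dat L M)

/-- [DNL-SY] `syl_same`, `syl_cheb`, `syl_mert`, `syl_bil`, `syl_chrk` with one constant -/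
theorem exists_sysL (hodd : Odd (classNumber M)) (n : HeightOneSpectrum (𝓞 L) → 𝓞 L) (hn : GenL n) :
    ∃ B : SysL (GQ L), B.toBase = baseL D n hn ∧ B.k = kL := by
  obtain ⟨C₁, hC₁, h₁⟩ := syl_same L
  obtain ⟨C₂, hC₂, h₂⟩ := syl_cheb (baseL D n hn) (fun _ => rfl)
  obtain ⟨β, βs, C₃, hβ, hβ1, hβs, hβs1, hC₃, h₃, h₃'⟩ := syl_mert D.h7 (baseL D n hn) (fun _ => rfl) kL (fun _ => Iff.rfl)
  obtain ⟨C₄, δ, hC₄, hδ, hδ1, h₄⟩ := syl_bil D hn
  obtain ⟨C₅, hC₅, h₅⟩ := syl_chrk D hodd hn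
  have h0 : 1 ≤ C₁ + C₂ + C₃ + C₄ + C₅ + 1 := by linarith
  refine ⟨⟨⟨baseL D n hn, β, C₁ + C₂ + C₃ + C₄ + C₅ + 1, δ, hβ, hβ1, h0, hδ, hδ1, ?_, ?_, ?_, ?_⟩,
    kL, βs, hβs, hβs1, ?_, ?_⟩, rfl, rfl⟩
  · intro k S hS
    have := h₁ k S hS
    linarith
  · intro x hx
    refine (h₂ x hx).trans ?_
    gcongr
    linarith
  · intro x hx
    refine (h₃ x hx).trans ?_
    linarith
  · intro Y₁ Y₂ h1 h12 U V hU hV a b ha hb
    refine (h₄ Y₁ Y₂ h1 h12 U V hU hV a b ha hb).trans ?_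
    have h3 : 0 ≤ Y₁ ^ (1 - δ) := Real.rpow_nonneg (by linarith) _
    have h4 : 0 ≤ Y₂ := by linarith
    gcongr
    linarith
  · intro x hx
    refine (h₃' x hx).trans ?_
    linarith
  · intro A hA hAk x hx
    have h6 := h₅ A hA hAk x hx
    have h7 : Real.log (Real.log ((baseL D n hn).nS A + 3)) + C₅
        ≤ Real.log (Real.log ((baseL D n hn).nS A + 3)) + (C₁ + C₂ + C₃ + C₄ + C₅ + 1) := by linarith
    have h8 := h6.trans h7
    refine le_trans (le_of_eq ?_) h8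
    refine Finset.sum_congr ?_ fun v _ => rfl
    refine Finset.ext fun v => ?_
    simp only [Finset.mem_filter, Finset.mem_sdiff]

end

end TRQ
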