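import Pool.Agent.TRQ.SY1
import Pool.Agent.TR.A6

/-! [DNL-SY] the primes of `L` modulo which all units are squares: the fields `same`, `cheb`, `mert`, `mertk` -/

set_option autoImplicit false

open NumberField Ideal IsDedekindDomain
open scoped Classical

namespace TRQ

open TR

section
variable (L : Type) [Field L] [NumberField L]

/-- [DNL-SY] the field `same` -/
theorem syl_same : ∃ C : ℝ, 0 < C ∧ ∀ (k : ℕ)
    (S : Finset {v : HeightOneSpectrum (𝓞 L) // TRG.Good v ∧ (7 : 𝓞 L) ∉ v.asIdeal}),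
    (∀ v ∈ S, absNorm v.1.asIdeal = k) → (S.card : ℝ) ≤ C := by
  obtain ⟨C, hC, h⟩ := card_norm_eq_le L
  refine ⟨C, hC, fun k S hS => ?_⟩
  have h1 := h k (S.map (Function.Embedding.subtype _)) (by
    intro P hP
    rw [Finset.mem_map] at hP
    obtain ⟨v, hv, rfl⟩ := hP
    exact hS v hv)
  rwa [Finset.card_map] at h1

variable {L}

/-- sums over the primes of `L` modulo which all units are squares, of norm at most `x` -/
theorem syl_sum (B : Base {v : HeightOneSpectrum (𝓞 L) // TRG.Good v ∧ (7 : 𝓞 L) ∉ v.asIdeal})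
    (hB : ∀ v, B.N v = absNorm v.1.asIdeal) (Q : HeightOneSpectrum (𝓞 L) → Prop)
    (f : HeightOneSpectrum (𝓞 L) → ℝ) {x : ℝ} (hx : 0 ≤ x) :
    ∑ v ∈ (B.pb x).filter (fun v => Q v.1), f v.1 =
      ∑ P ∈ (TRN.prb L ⌊x⌋₊).filter (fun P => (TRG.Good P ∧ (7 : 𝓞 L) ∉ P.asIdeal) ∧ Q P), f P := by
  have h1 : ∀ v : {v : HeightOneSpectrum (𝓞 L) // TRG.Good v ∧ (7 : 𝓞 L) ∉ v.asIdeal},
      v ∈ B.pb x ↔ v.1 ∈ TRN.prb L ⌊x⌋₊ := by
    intro v
    rw [Base.mem_pb, TRN.mem_prb, Nat.le_floor_iff hx, hB]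
  refine Finset.sum_bij (fun v _ => v.1) ?_ ?_ ?_ ?_
  · intro v hv
    rw [Finset.mem_filter] at hv ⊢
    exact ⟨(h1 v).1 hv.1, v.2, hv.2⟩
  · intro v _ w _ h
    exact Subtype.ext h
  · intro P hP
    rw [Finset.mem_filter] at hP
    exact ⟨⟨P, hP.2.1⟩, Finset.mem_filter.2 ⟨(h1 _).2 hP.1, hP.2.2⟩, rfl⟩
  · intro v _
    rfl

/-- sums over the primes of `L` modulo which all units are squares, of norm at most `x` -/
theorem syl_sum' (B : Base {v : HeightOneSpectrum (𝓞 L) // TRG.Good v ∧ (7 : 𝓞 L) ∉ v.asIdeal})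
    (hB : ∀ v, B.N v = absNorm v.1.asIdeal) (f : HeightOneSpectrum (𝓞 L) → ℝ) {x : ℝ} (hx : 0 ≤ x) :
    ∑ v ∈ B.pb x, f v.1 =
      ∑ P ∈ (TRN.prb L ⌊x⌋₊).filter (fun P => TRG.Good P ∧ (7 : 𝓞 L) ∉ P.asIdeal), f P := by
  have h1 : ∀ v : {v : HeightOneSpectrum (𝓞 L) // TRG.Good v ∧ (7 : 𝓞 L) ∉ v.asIdeal},
      v ∈ B.pb x ↔ v.1 ∈ TRN.prb L ⌊x⌋₊ := by
    intro v
    rw [Base.mem_pb, TRN.mem_prb, Nat.le_floor_iff hx, hB]
  refine Finset.sum_bij (fun v _ => v.1) ?_ ?_ ?_ ?_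
  · intro v hv
    rw [Finset.mem_filter]
    exact ⟨(h1 v).1 hv, v.2⟩
  · intro v _ w _ h
    exact Subtype.ext h
  · intro P hP
    rw [Finset.mem_filter] at hP
    exact ⟨⟨P, hP.2⟩, (h1 _).2 hP.1, rfl⟩
  · intro v _
    rfl

/-- [DNL-SY] the field `cheb` -/
theorem syl_cheb (B : Base {v : HeightOneSpectrum (𝓞 L) // TRG.Good v ∧ (7 : 𝓞 L) ∉ v.asIdeal})
    (hB : ∀ v, B.N v = absNorm v.1.asIdeal) :
    ∃ C : ℝ, 0 < C ∧ ∀ x : ℝ, 0 ≤ x → ∑ v ∈ B.pb x, Real.log (B.N v) ≤ C * x := by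
  obtain ⟨C, hC, h⟩ := cheb_prb L
  refine ⟨C, hC, fun x hx => ?_⟩
  refine le_trans ?_ (h x hx)
  have h1 := syl_sum' B hB (fun P => Real.log (absNorm P.asIdeal)) hx
  have h2 : ∑ v ∈ B.pb x, Real.log (B.N v) = ∑ v ∈ B.pb x, Real.log (absNorm v.1.asIdeal) :=
    Finset.sum_congr rfl fun v _ => by rw [hB]
  rw [h2, h1]
  exact Finset.sum_le_sum_of_subset_of_nonneg (Finset.filter_subset _ _)
    fun P _ _ => Real.log_natCast_nonneg _

/-- the logarithm of the integral part -/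
theorem syl_log {S β C x : ℝ} (hβ : 0 < β) (hβ1 : β ≤ 1) (hx : 1 ≤ x)
    (h : |S - β * Real.log (⌊x⌋₊ : ℝ)| ≤ C) : |S - β * Real.log x| ≤ C + Real.log 2 := by
  have hx0 : (0 : ℝ) ≤ x := by linarith
  have hN : 1 ≤ ⌊x⌋₊ := Nat.le_floor (by exact_mod_cast hx)
  have hN' : (1 : ℝ) ≤ (⌊x⌋₊ : ℝ) := by exact_mod_cast hN
  have h4 : 0 ≤ Real.log x - Real.log (⌊x⌋₊ : ℝ) := by
    have := Real.log_le_log (by linarith) (Nat.floor_le hx0)
    linarith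
  have h5 : Real.log x - Real.log (⌊x⌋₊ : ℝ) ≤ Real.log 2 := by
    have h6 : x ≤ 2 * (⌊x⌋₊ : ℝ) := by
      have := Nat.lt_floor_add_one x
      linarith
    have h7 := Real.log_le_log (by linarith : (0 : ℝ) < x) h6
    rw [Real.log_mul (by norm_num) (by linarith)] at h7
    linarith
  have h8 : β * Real.log x - β * Real.log (⌊x⌋₊ : ℝ) ≤ Real.log 2 := by
    rw [← mul_sub]
    calc β * (Real.log x - Real.log (⌊x⌋₊ : ℝ)) ≤ 1 * (Real.log x - Real.log (⌊x⌋₊ : ℝ)) :=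
          mul_le_mul_of_nonneg_right hβ1 h4
      _ ≤ Real.log 2 := by rw [one_mul]; exact h5
  have h9 : 0 ≤ β * Real.log x - β * Real.log (⌊x⌋₊ : ℝ) := by
    rw [← mul_sub]
    exact mul_nonneg hβ.le h4
  rw [abs_le] at h ⊢
  constructor
  · linarith [h.1]
  · linarith [h.2, Real.log_nonneg (by norm_num : (1 : ℝ) ≤ 2)]

/-- `-7` times a unit is no square -/
theorem syl_nsq (h7 : (Ideal.span {(7 : 𝓞 L)}).IsPrime) (u : (𝓞 L)ˣ) :
    ¬ IsSquare ((-7 * (u : 𝓞 L) : 𝓞 L) : L) := by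
  rintro ⟨x, hx⟩
  have hxi : IsIntegral ℤ x := by
    refine IsIntegral.of_pow (n := 2) (by norm_num) ?_
    rw [pow_two, ← hx]
    exact RingOfIntegers.isIntegral_coe _
  let y : 𝓞 L := ⟨x, hxi⟩
  have hy : y * y = -7 * (u : 𝓞 L) := by
    apply RingOfIntegers.ext
    exact hx.symm
  have h7p : Prime (7 : 𝓞 L) := by
    rw [← Ideal.span_singleton_prime (by norm_num)]
    exact h7
  have h1 : (7 : 𝓞 L) ∣ y * y := ⟨-(u : 𝓞 L), by rw [hy]; ring⟩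
  have h2 : (7 : 𝓞 L) ∣ y := by
    rcases h7p.dvd_or_dvd h1 with h | h <;> exact h
  obtain ⟨z, hz⟩ := h2
  have h3 : (7 : 𝓞 L) * (7 * (z * z)) = 7 * (-(u : 𝓞 L)) := by
    calc (7 : 𝓞 L) * (7 * (z * z)) = (7 * z) * (7 * z) := by ring
      _ = y * y := by rw [← hz]
      _ = 7 * (-(u : 𝓞 L)) := by rw [hy]; ring
  have h4 := mul_left_cancel₀ h7p.ne_zero h3
  have h5 : IsUnit (7 : 𝓞 L) := by
    refine isUnit_of_dvd_unit ⟨z * z, h4.symm⟩ ?_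
    exact u.isUnit.neg
  exact h7p.not_isUnit h5

/-- the symbol of `-7` -/
theorem syl_neg_seven {v : HeightOneSpectrum (𝓞 L)} (h2 : (2 : 𝓞 L) ∉ v.asIdeal)
    (h7 : (7 : 𝓞 L) ∉ v.asIdeal) : TT.qr v (-7) = c7 (absNorm v.asIdeal) := by
  obtain ⟨k, _, _, π, hs, h0, hc, hq⟩ := TT.q0_data v
  have hrc := TT.q0_ringChar v π h0 h2
  have h7' : (7 : k) ≠ 0 := by
    intro h
    apply h7
    rw [← h0, map_ofNat]
    exact h
  have h1 := a6_quadChar (k := k) h7' hrc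
  rw [hq, map_neg, map_ofNat, h1, hc]

/-- [DNL-SY] the fields `mert` and `mertk` -/
theorem syl_mert (h7 : (Ideal.span {(7 : 𝓞 L)}).IsPrime)
    (B : Base {v : HeightOneSpectrum (𝓞 L) // TRG.Good v ∧ (7 : 𝓞 L) ∉ v.asIdeal})
    (hB : ∀ v, B.N v = absNorm v.1.asIdeal)
    (κ : {v : HeightOneSpectrum (𝓞 L) // TRG.Good v ∧ (7 : 𝓞 L) ∉ v.asIdeal} → Prop)
    (hκ : ∀ v, κ v ↔ c7 (absNorm v.1.asIdeal) = 1) :
    ∃ β βs C : ℝ, 0 < β ∧ β ≤ 1 ∧ 0 < βs ∧ βs < β ∧ 0 < C ∧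
      (∀ x : ℝ, 1 ≤ x → |∑ v ∈ B.pb x, Real.log (B.N v) / B.N v - β * Real.log x| ≤ C) ∧
      ∀ x : ℝ, 1 ≤ x → |∑ v ∈ (B.pb x).filter κ,
        Real.log (B.N v) / B.N v - βs * Real.log x| ≤ C := by
  obtain ⟨k, u, hu1, hu2⟩ := TRN.exists_unit_basis L
  have hfin2 := TRN.n7_fin L (two_ne_zero : (2 : 𝓞 L) ≠ 0)
  have hfin7 := TRN.n7_fin L (by norm_num : (7 : 𝓞 L) ≠ 0)
  set F := hfin2.toFinset ∪ hfin7.toFinset with hF
  have hFm : ∀ P, P ∉ F ↔ (2 : 𝓞 L) ∉ P.asIdeal ∧ (7 : 𝓞 L) ∉ P.asIdeal := by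
    intro P
    rw [hF, Finset.mem_union, Set.Finite.mem_toFinset, Set.Finite.mem_toFinset, not_or]
    exact Iff.rfl
  -- all primes
  obtain ⟨C1, hC1, H1⟩ := m3_good L mertAll (fun i : Fin k => (u i : 𝓞 L)) hu1 (fun _ => 1)
    (fun _ => Or.inl rfl) F
  rw [Fintype.card_fin] at H1
  -- split primes
  let a : Option (Fin k) → 𝓞 L := fun o => o.elim (-7) fun i => (u i : 𝓞 L)
  have ha : ∀ s : Finset (Option (Fin k)), s.Nonempty → ¬ IsSquare ((∏ i ∈ s, a i : 𝓞 L) : L) := by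
    intro s hs
    let t : Finset (Fin k) := Finset.univ.filter fun i => some i ∈ s
    have hprod : ∏ i ∈ s.erase none, a i = ∏ i ∈ t, (u i : 𝓞 L) := by
      symm
      refine Finset.prod_bij (fun i _ => some i) ?_ ?_ ?_ ?_
      · intro i hi
        rw [Finset.mem_erase]
        exact ⟨by simp, (Finset.mem_filter.1 hi).2⟩
      · intro i _ j _ h
        exact Option.some_injective _ h
      · intro o ho
        rw [Finset.mem_erase] at ho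
        obtain ⟨i, rfl⟩ := Option.ne_none_iff_exists'.1 ho.1
        exact ⟨i, Finset.mem_filter.2 ⟨Finset.mem_univ _, ho.2⟩, rfl⟩
      · intro i _
        rfl
    by_cases hn : none ∈ s
    · rw [← Finset.mul_prod_erase s a hn, hprod]
      have h1 := syl_nsq h7 (∏ i ∈ t, u i)
      rw [Units.coe_prod] at h1
      exact h1
    · have h2 : s.erase none = s := Finset.erase_eq_of_notMem hn
      rw [h2] at hprod
      rw [hprod]
      refine hu1 t ?_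
      obtain ⟨o, ho⟩ := hs
      cases o with
      | none => exact absurd ho hn
      | some i => exact ⟨i, Finset.mem_filter.2 ⟨Finset.mem_univ _, ho⟩⟩
  obtain ⟨C2, hC2, H2⟩ := m3_good L mertAll a ha (fun _ => 1) (fun _ => Or.inl rfl) F
  rw [Fintype.card_option, Fintype.card_fin] at H2
  have hlog2 : 0 ≤ Real.log 2 := Real.log_nonneg (by norm_num)
  have hβ : (0 : ℝ) < (1 / 2 : ℝ) ^ k := by positivity
  have hβ1 : ((1 / 2 : ℝ)) ^ k ≤ 1 := pow_le_one₀ (by norm_num) (by norm_num)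
  have hβs : (0 : ℝ) < (1 / 2 : ℝ) ^ (k + 1) := by positivity
  have hβs1 : ((1 / 2 : ℝ)) ^ (k + 1) < (1 / 2 : ℝ) ^ k := by
    rw [pow_succ]
    linarith
  refine ⟨(1 / 2 : ℝ) ^ k, (1 / 2 : ℝ) ^ (k + 1), max C1 C2 + Real.log 2, hβ, hβ1, hβs, hβs1, by
    have := le_max_left C1 C2
    linarith, fun x hx => ?_, fun x hx => ?_⟩
  · have hx0 : (0 : ℝ) ≤ x := by linarith
    have hN : 1 ≤ ⌊x⌋₊ := Nat.le_floor (by exact_mod_cast hx)
    have h1 : ∑ v ∈ B.pb x, Real.log (B.N v) / B.N v =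
        ∑ P ∈ (TRN.prb L ⌊x⌋₊).filter (fun P => TRG.Good P ∧ (7 : 𝓞 L) ∉ P.asIdeal),
          Real.log (absNorm P.asIdeal) / absNorm P.asIdeal := by
      rw [← syl_sum' B hB (fun P => Real.log (absNorm P.asIdeal) / absNorm P.asIdeal) hx0]
      exact Finset.sum_congr rfl fun v _ => by rw [hB]
    have h2 : (TRN.prb L ⌊x⌋₊).filter (fun P => TRG.Good P ∧ (7 : 𝓞 L) ∉ P.asIdeal) =
        (TRN.prb L ⌊x⌋₊).filter (fun P => P ∉ F ∧ ∀ i, TT.qr P (u i : 𝓞 L) = 1) := by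
      refine Finset.filter_congr fun P _ => ?_
      rw [sy1_good_iff hu2 P, hFm]
      constructor
      · rintro ⟨⟨ha, hb⟩, hc⟩
        exact ⟨⟨ha, hc⟩, hb⟩
      · rintro ⟨⟨ha, hc⟩, hb⟩
        exact ⟨⟨ha, hb⟩, hc⟩
    have h3 : |(∑ P ∈ (TRN.prb L ⌊x⌋₊).filter (fun P => TRG.Good P ∧ (7 : 𝓞 L) ∉ P.asIdeal),
        Real.log (absNorm P.asIdeal) / absNorm P.asIdeal) - (1 / 2 : ℝ) ^ k * Real.log (⌊x⌋₊ : ℝ)| ≤ max C1 C2 := by
      rw [h2]
      have h4 : |(∑ P ∈ (TRN.prb L ⌊x⌋₊).filter (fun P => P ∉ F ∧ ∀ i, TT.qr P (u i : 𝓞 L) = 1),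
          Real.log (absNorm P.asIdeal) / absNorm P.asIdeal) - (1 / 2 : ℝ) ^ k * Real.log (⌊x⌋₊ : ℝ)| ≤ C1 := by
        convert H1 _ hN using 6
      exact h4.trans (le_max_left C1 C2)
    rw [h1]
    exact syl_log hβ hβ1 hx h3
  · have hx0 : (0 : ℝ) ≤ x := by linarith
    have hN : 1 ≤ ⌊x⌋₊ := Nat.le_floor (by exact_mod_cast hx)
    have h1 : ∑ v ∈ (B.pb x).filter κ, Real.log (B.N v) / B.N v =
        ∑ P ∈ (TRN.prb L ⌊x⌋₊).filter (fun P => (TRG.Good P ∧ (7 : 𝓞 L) ∉ P.asIdeal) ∧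
          c7 (absNorm P.asIdeal) = 1), Real.log (absNorm P.asIdeal) / absNorm P.asIdeal := by
      have e1 : ∑ v ∈ (B.pb x).filter κ, Real.log (B.N v) / B.N v =
          ∑ v ∈ (B.pb x).filter (fun v => c7 (absNorm v.1.asIdeal) = 1),
            Real.log (absNorm v.1.asIdeal) / absNorm v.1.asIdeal := by
        refine Finset.sum_congr (Finset.filter_congr fun v _ => hκ v) fun v _ => ?_
        rw [hB]
      rw [e1]
      convert syl_sum B hB (fun P => c7 (absNorm P.asIdeal) = 1)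
        (fun P => Real.log (absNorm P.asIdeal) / absNorm P.asIdeal) hx0
    have h2 : (TRN.prb L ⌊x⌋₊).filter (fun P => (TRG.Good P ∧ (7 : 𝓞 L) ∉ P.asIdeal) ∧
          c7 (absNorm P.asIdeal) = 1) =
        (TRN.prb L ⌊x⌋₊).filter (fun P => P ∉ F ∧ ∀ i, TT.qr P (a i) = 1) := by
      refine Finset.filter_congr fun P _ => ?_
      rw [sy1_good_iff hu2 P, hFm]
      constructor
      · rintro ⟨⟨⟨ha, hb⟩, hc⟩, hd⟩
        refine ⟨⟨ha, hc⟩, fun o => ?_⟩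
        cases o with
        | none => exact (syl_neg_seven ha hc).trans hd
        | some i => exact hb i
      · rintro ⟨⟨ha, hc⟩, hb⟩
        exact ⟨⟨⟨ha, fun i => hb (some i)⟩, hc⟩, (syl_neg_seven ha hc).symm.trans (hb none)⟩
    have h3 : |(∑ P ∈ (TRN.prb L ⌊x⌋₊).filter (fun P => (TRG.Good P ∧ (7 : 𝓞 L) ∉ P.asIdeal) ∧
          c7 (absNorm P.asIdeal) = 1), Real.log (absNorm P.asIdeal) / absNorm P.asIdeal) -
          (1 / 2 : ℝ) ^ (k + 1) * Real.log (⌊x⌋₊ : ℝ)| ≤ max C1 C2 := by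
      rw [h2]
      have h4 : |(∑ P ∈ (TRN.prb L ⌊x⌋₊).filter (fun P => P ∉ F ∧ ∀ i, TT.qr P (a i) = 1),
          Real.log (absNorm P.asIdeal) / absNorm P.asIdeal) - (1 / 2 : ℝ) ^ (k + 1) * Real.log (⌊x⌋₊ : ℝ)| ≤ C2 := by
        convert H2 _ hN using 6
      exact h4.trans (le_max_right C1 C2)
    rw [h1]
    exact syl_log hβs (hβs1.le.trans hβ1) hx h3

end

end TRQ
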